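import Pool.Agent.H670R2.ERMem

/-!
# Graphs as instances, and formulas expressing distances
-/

namespace Pool.Agent.NPC.ER

open Pool.Agent.NPC Pool.Agent.NPC.H670R2

/-- Instances: a finite graph is given by the list of its vertices (natural numbers, written in
binary) and the list of its edges (pairs of vertices). -/
abbrev GCode := List ℕ × List (ℕ × ℕ)

/-- The pair `g` is the code of a simple graph: the ends of the edges are distinct elements of the
list of vertices. -/
def GCode.WF (g : GCode) : Prop := ∀ e ∈ g.2, e.1 ∈ g.1 ∧ e.2 ∈ g.1 ∧ e.1 ≠ e.2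

/-- The vertices of the graph with code `g`. -/
abbrev GCode.V (g : GCode) : Type := {v : ℕ // v ∈ g.1}

/-- The graph with code `g`: two distinct vertices are adjacent if the pair they form (in one of
the two orders) is in the list of edges. -/
def GCode.graph (g : GCode) : SimpleGraph g.V := SimpleGraph.fromRel fun u v => (u.1, v.1) ∈ g.2

instance (g : GCode) : Decidable g.WF := by unfold GCode.WF; infer_instance

theorem poly_wf {α : Type} [TEnc α] {g : α → GCode} (hg : Poly g) :
    Poly (fun a => decide (g a).WF) := by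
  have h1 : Poly (fun p : α × (ℕ × ℕ) => (g p.1).1) := Poly.fst (Poly.comp hg (Poly.fst Poly.id))
  have e1 : Poly (fun p : α × (ℕ × ℕ) => p.2.1) := Poly.fst (Poly.snd Poly.id)
  have e2 : Poly (fun p : α × (ℕ × ℕ) => p.2.2) := Poly.snd (Poly.snd Poly.id)
  refine (Poly.all (p := fun a (e : ℕ × ℕ) => (decide (e.1 ∈ (g a).1) && decide (e.2 ∈ (g a).1)) &&
    !decide (e.1 = e.2)) (Poly.snd hg) (Poly.and (Poly.and (Poly.decide_mem e1 h1)
      (Poly.decide_mem e2 h1)) (Poly.not (Poly.decide_eq e1 e2)))).congr fun a => ?_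
  rw [Bool.eq_iff_iff, decide_eq_true_iff]
  unfold GCode.WF
  simp only [List.all_eq_true, decide_eq_true_eq, Bool.and_eq_true, Bool.not_eq_true',
    decide_eq_false_iff_not, and_assoc, ne_eq]

theorem graph_adj {g : GCode} (hg : g.WF) {u v : g.V} :
    g.graph.Adj u v ↔ (u.1, v.1) ∈ g.2 ∨ (v.1, u.1) ∈ g.2 := by
  unfold GCode.graph
  rw [SimpleGraph.fromRel_adj]
  constructor
  · exact fun h => h.2
  · intro h
    refine ⟨?_, h⟩
    rintro rfl
    rcases h with h | h <;> exact (hg _ h).2.2 rfl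

section Formulas

variable {d : ℕ}

/-- The difference of two coordinates. -/
def difT (d k u v : ℕ) : Tm := Tm.add (Tm.var (u * d + k)) (Tm.neg (Tm.var (v * d + k)))

/-- The sum of the squares of the differences of the first `k` coordinates. -/
def sqT (d : ℕ) : ℕ → ℕ → ℕ → Tm
  | 0, _, _ => Tm.zero
  | k + 1, u, v => Tm.add (sqT d k u v) (Tm.mul (difT d k u v) (difT d k u v))

theorem sqT_eval (x : ℕ → ℝ) (k u v : ℕ) :
    (sqT d k u v).eval x = ∑ i ∈ Finset.range k, (x (u * d + i) - x (v * d + i)) ^ 2 := by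
  induction k with
  | zero => rfl
  | succ k ih =>
    rw [Finset.sum_range_succ, ← ih]
    simp only [sqT, difT, Tm.eval]
    ring

/-- The points with given coordinates. -/
noncomputable def ofX (d : ℕ) (x : ℕ → ℝ) (u : ℕ) : EuclideanSpace ℝ (Fin d) :=
  WithLp.toLp 2 fun i : Fin d => x (u * d + i)

theorem sqT_ofX (x : ℕ → ℝ) (u v : ℕ) :
    (sqT d d u v).eval x = dist (ofX d x u) (ofX d x v) ^ 2 := by
  rw [sqT_eval, EuclideanSpace.dist_eq, Real.sq_sqrt (by positivity), Finset.sum_range]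
  refine Finset.sum_congr rfl fun i _ => ?_
  simp only [ofX, Real.dist_eq, sq_abs]

/-- Coordinates of a family of points. -/
theorem exists_ofX {g : GCode} (p : g.V → EuclideanSpace ℝ (Fin d)) :
    ∃ x : ℕ → ℝ, ∀ v : g.V, ofX d x v.1 = p v := by
  classical
  refine ⟨fun n => if h : n / d ∈ g.1 ∧ n % d < d then p ⟨n / d, h.1⟩ ⟨n % d, h.2⟩ else 0, ?_⟩
  intro v
  ext i
  have hd : 0 < d := Fin.pos i
  have e1 : (v.1 * d + i) / d = v.1 := by
    rw [Nat.mul_comm, Nat.mul_add_div hd, Nat.div_eq_of_lt i.2, Nat.add_zero]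
  have e2 : (v.1 * d + i) % d = i := by
    rw [Nat.mul_comm, Nat.mul_add_mod, Nat.mod_eq_of_lt i.2]
  change (if h : (v.1 * d + i) / d ∈ g.1 ∧ (v.1 * d + i) % d < d then
    p ⟨(v.1 * d + i) / d, h.1⟩ ⟨(v.1 * d + i) % d, h.2⟩ else 0) = p v i
  have h : (v.1 * d + i) / d ∈ g.1 ∧ (v.1 * d + i) % d < d := by
    rw [e1, e2]
    exact ⟨v.2, i.2⟩
  rw [dif_pos h]
  have key : ∀ (w : ℕ) (hw : w ∈ g.1) (j : ℕ) (hj : j < d), w = v.1 → j = i →
      p ⟨w, hw⟩ ⟨j, hj⟩ = p v i := by
    rintro w hw j hj rfl rfl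
    rfl
  exact key _ _ _ _ e1 e2

/-- The formula saying that two points are at distance one. -/
def unitF (d u v : ℕ) : Fm := Fm.eq (sqT d d u v) Tm.one

/-- The formula saying that two points are distinct. -/
def neF (d u v : ℕ) : Fm := Fm.lt Tm.zero (sqT d d u v)

theorem unitF_holds (x : ℕ → ℝ) (u v : ℕ) :
    (unitF d u v).Holds x ↔ dist (ofX d x u) (ofX d x v) = 1 := by
  unfold unitF
  simp only [Fm.Holds, sqT_ofX, Tm.eval]
  exact pow_eq_one_iff_of_nonneg dist_nonneg (by norm_num)

theorem neF_holds (x : ℕ → ℝ) (u v : ℕ) :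
    (neF d u v).Holds x ↔ ofX d x u ≠ ofX d x v := by
  unfold neF
  simp only [Fm.Holds, sqT_ofX, Tm.eval]
  constructor
  · intro h he
    rw [he, dist_self] at h
    norm_num at h
  · intro h
    have := dist_pos.2 h
    positivity

variable {α : Type} [TEnc α]

theorem poly_sqT {u v : α → ℕ} (hu : Poly u) (hv : Poly v) (d k : ℕ) :
    Poly (fun a => sqT d k (u a) (v a)) := by
  induction k with
  | zero => exact Poly.const _
  | succ k ih =>
    have h1 : Poly (fun a => u a * d + k) := Poly.add (Poly.mul hu (Poly.const d)) (Poly.const k)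
    have h2 : Poly (fun a => v a * d + k) := Poly.add (Poly.mul hv (Poly.const d)) (Poly.const k)
    have h3 : Poly (fun a => difT d k (u a) (v a)) :=
      poly_tadd (poly_tvar h1) (poly_tneg (poly_tvar h2))
    exact poly_tadd ih (poly_tmul h3 h3)

theorem poly_unitF {u v : α → ℕ} (hu : Poly u) (hv : Poly v) (d : ℕ) :
    Poly (fun a => unitF d (u a) (v a)) := poly_eq (poly_sqT hu hv d d) (Poly.const _)

theorem poly_neF {u v : α → ℕ} (hu : Poly u) (hv : Poly v) (d : ℕ) :
    Poly (fun a => neF d (u a) (v a)) := poly_lt (Poly.const _) (poly_sqT hu hv d d)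

/-- The formula saying that the edges have length one. -/
def edgesF (d : ℕ) (g : GCode) : Fm := conj (g.2.map fun e => unitF d e.1 e.2)

/-- The formula saying that the vertices are distinct. -/
def injF (d : ℕ) (g : GCode) : Fm :=
  conj (g.1.flatMap fun u => g.1.map fun v => if u = v then tt else neF d u v)

theorem poly_edgesF {g : α → GCode} (hg : Poly g) (d : ℕ) : Poly (fun a => edgesF d (g a)) := by
  have h1 : Poly (fun a => (g a).2) := Poly.snd hg
  have h2 : Poly (fun p : α × (ℕ × ℕ) => unitF d p.2.1 p.2.2) :=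
    poly_unitF (Poly.fst (Poly.snd Poly.id)) (Poly.snd (Poly.snd Poly.id)) d
  exact poly_conj (Poly.map (F := fun (_ : α) (e : ℕ × ℕ) => unitF d e.1 e.2) h1 h2)

theorem poly_injF {g : α → GCode} (hg : Poly g) (d : ℕ) : Poly (fun a => injF d (g a)) := by
  have h1 : Poly (fun a => (g a).1) := Poly.fst hg
  have h1' : Poly (fun p : α × ℕ => (g p.1).1) :=
    Poly.fst (Poly.comp hg (Poly.fst Poly.id))
  have hu : Poly (fun q : (α × ℕ) × ℕ => q.1.2) := Poly.snd (Poly.fst Poly.id)
  have hv : Poly (fun q : (α × ℕ) × ℕ => q.2) := Poly.snd Poly.id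
  have h2 : Poly (fun q : (α × ℕ) × ℕ => if q.1.2 = q.2 then tt else neF d q.1.2 q.2) :=
    Poly.ite (Poly.decide_eq hu hv) (Poly.const _) (poly_neF hu hv d)
  have h3 : Poly (fun p : α × ℕ => (g p.1).1.map fun v => if p.2 = v then tt else neF d p.2 v) :=
    Poly.map (F := fun (p : α × ℕ) v => if p.2 = v then tt else neF d p.2 v) h1' h2
  exact poly_conj (Poly.flatMap (F := fun (a : α) u => (g a).1.map fun v =>
    if u = v then tt else neF d u v) h1 h3)

theorem edgesF_holds {g : GCode} (hg : g.WF) (x : ℕ → ℝ) : (edgesF d g).Holds x ↔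
    ∀ u v, g.graph.Adj u v → dist (ofX d x u.1) (ofX d x v.1) = 1 := by
  unfold edgesF
  rw [holds_conj]
  simp only [List.forall_mem_map, unitF_holds]
  constructor
  · intro h u v huv
    rcases (graph_adj hg).1 huv with h1 | h1
    · exact h (u.1, v.1) h1
    · rw [dist_comm]
      exact h (v.1, u.1) h1
  · intro h e he
    obtain ⟨h1, h2, h3⟩ := hg e he
    exact h ⟨e.1, h1⟩ ⟨e.2, h2⟩ ((graph_adj hg).2 (Or.inl he))

theorem injF_holds {g : GCode} (x : ℕ → ℝ) : (injF d g).Holds x ↔
    Function.Injective (fun v : g.V => ofX d x v.1) := by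
  unfold injF
  rw [holds_conj]
  simp only [List.mem_flatMap, List.mem_map]
  constructor
  · intro h u v huv
    by_contra hne
    have h1 : u.1 ≠ v.1 := fun h => hne (Subtype.ext h)
    have h2 := h (neF d u.1 v.1) ⟨u.1, u.2, v.1, v.2, if_neg h1⟩
    exact (neF_holds x _ _).1 h2 huv
  · rintro h φ ⟨u, hu, v, hv, rfl⟩
    split_ifs with huv
    · exact holds_tt x
    · rw [neF_holds]
      intro he
      have := @h ⟨u, hu⟩ ⟨v, hv⟩ he
      exact huv (congrArg Subtype.val this)

end Formulas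

end Pool.Agent.NPC.ER
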