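import Pool.Agent.ER.ToSysPoly

/-!
# Macro expansion of systems of geometric constraints

A *macro system* is a list of constraints `(s, l)`, where `s` is a symbol and `l` a list of names
of points.  A table gives for each symbol a *body*: a list of constraints on the arguments, on
auxiliary points and on global points.  The expansion replaces every constraint by its body.

There are two semantics: a weak one, for which the body of a symbol implies the symbol (soundness),
and a strong one, for which a symbol implies the existence of auxiliary points, pairwise distinct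
and avoiding any prescribed finite set, such that the body holds (completeness).
-/

namespace Pool.Agent.NPC.ER

/-- Constraints: a symbol and a list of names. -/
abbrev MC := ℕ × List ℕ

/-- Local names: `(0, k)` is the `k`-th argument, `(1, j)` the `j`-th auxiliary point and
`(2, j)` the `j`-th global point. -/
abbrev LV := ℕ × ℕ

/-- The body of a macro. -/
abbrev Body := List (ℕ × List LV)

/-- Names of old points. -/
def onm (G i : ℕ) : ℕ := if i < G then i else 2 * i

/-- Names of auxiliary points. -/
def anm (G t j : ℕ) : ℕ := 2 * (Nat.pair t j + G) + 1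

/-- Renaming. -/
def ren (G t : ℕ) (l : List ℕ) (x : LV) : ℕ :=
  if x.1 = 0 then onm G (l.getD x.2 0) else if x.1 = 1 then anm G t x.2 else
    if x.2 < G then x.2 else 0

/-- The expansion of one constraint. -/
def inst (G : ℕ) (T : List Body) (c : MC) (t : ℕ) : List MC :=
  (T.getD c.1 []).map (fun b => (b.1, b.2.map (ren G t c.2)))

/-- The expansion of a system. -/
def expand (G : ℕ) (T : List Body) (S : List MC) : List MC :=
  S.zipIdx.flatMap (fun p => inst G T p.1 p.2)

section Sem

variable {E : Type}

/-- The global points of a valuation. -/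
def glob (G : ℕ) (v : ℕ → E) : ℕ → E := fun j => v (if j < G then j else 0)

/-- Validity of a macro system. -/
def MHolds (G : ℕ) (sem : ℕ → (ℕ → E) → (ℕ → E) → Prop) (v : ℕ → E) (S : List MC) : Prop :=
  ∀ c ∈ S, sem c.1 (glob G v) (fun k => v (c.2.getD k 0))

/-- The value of a local name. -/
def lval (z a x : ℕ → E) (y : LV) : E :=
  if y.1 = 0 then a y.2 else if y.1 = 1 then x y.2 else z y.2

/-- Validity of a body. -/
def BHolds (sem : ℕ → (ℕ → E) → (ℕ → E) → Prop) (z a x : ℕ → E) (b : Body) : Prop :=
  ∀ c ∈ b, sem c.1 z (fun k => lval z a x (c.2.getD k (2, 0)))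

/-- The used names. -/
def used (G : ℕ) (S : List MC) : Set ℕ := {i | i < G ∨ ∃ c ∈ S, i ∈ c.2}

theorem used_finite (G : ℕ) (S : List MC) : (used G S).Finite := by
  have h : used G S ⊆ {i | i ∈ List.range G ++ S.flatMap Prod.snd} := by
    intro i hi
    simp only [used] at hi
    change i < G ∨ _ at hi
    simp only [List.mem_append, List.mem_range, List.mem_flatMap]
    exact hi
  exact (List.finite_toSet _).subset h

theorem getD_map_ren {G : ℕ} (t : ℕ) (l : List ℕ) (b : List LV) (k : ℕ) :
    (b.map (ren G t l)).getD k 0 = ren G t l (b.getD k (2, 0)) := by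
  have h0 : ren G t l (2, 0) = 0 := by simp [ren]
  conv_lhs => rw [← h0]
  rw [List.getD_map]

/-- The values of renamed points. -/
theorem val_ren {G : ℕ} (w : ℕ → E) (t : ℕ) (l : List ℕ) (y : LV) :
    w (ren G t l y) = lval (glob G w) (fun k => w (onm G (l.getD k 0)))
      (fun j => w (anm G t j)) y := by
  obtain ⟨s, k⟩ := y
  unfold ren lval glob
  by_cases h0 : s = 0
  · simp [h0]
  · by_cases h1 : s = 1
    · simp [h1]
    · simp [h0, h1]

theorem glob_onm {G : ℕ} (hG : 0 < G) (w : ℕ → E) : glob G (fun i => w (onm G i)) = glob G w := by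
  funext j
  unfold glob onm
  by_cases h : j < G <;> simp [h, hG]

/-- Validity of an expanded constraint. -/
theorem mholds_inst {G : ℕ} (sem : ℕ → (ℕ → E) → (ℕ → E) → Prop) (w : ℕ → E)
    (T : List Body) (c : MC) (t : ℕ) :
    MHolds G sem w (inst G T c t) ↔ BHolds sem (glob G w) (fun k => w (onm G (c.2.getD k 0)))
      (fun j => w (anm G t j)) (T.getD c.1 []) := by
  unfold MHolds BHolds inst
  simp only [List.forall_mem_map]
  refine forall₂_congr fun b hb => ?_
  have : (fun k => w ((List.map (ren G t c.2) b.2).getD k 0)) =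
      (fun k => lval (glob G w) (fun k => w (onm G (c.2.getD k 0)))
      (fun j => w (anm G t j)) (b.2.getD k (2, 0))) := by
    funext k
    rw [getD_map_ren, val_ren w t c.2]
  rw [this]

theorem mholds_expand {G : ℕ} (sem : ℕ → (ℕ → E) → (ℕ → E) → Prop) (w : ℕ → E)
    (T : List Body) (S : List MC) :
    MHolds G sem w (expand G T S) ↔ ∀ p ∈ S.zipIdx, MHolds G sem w (inst G T p.1 p.2) := by
  unfold MHolds expand
  simp only [List.mem_flatMap]
  constructor
  · intro h p hp c hc
    exact h c ⟨p, hp, hc⟩
  · rintro h c ⟨p, hp, hc⟩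
    exact h p hp c hc

/-- **Soundness of the expansion.** -/
theorem expand_sound {G : ℕ} (hG : 0 < G) {T : List Body}
    {sem : ℕ → (ℕ → E) → (ℕ → E) → Prop}
    (hs : ∀ s z a x, BHolds sem z a x (T.getD s []) → sem s z a)
    {S : List MC} {w : ℕ → E} (h : MHolds G sem w (expand G T S)) :
    MHolds G sem (fun i => w (onm G i)) S := by
  rw [mholds_expand] at h
  intro c hc
  obtain ⟨t, ht⟩ : ∃ t, (c, t) ∈ S.zipIdx := by
    obtain ⟨t, ht⟩ := List.mem_iff_getElem?.1 hc
    exact ⟨t, List.mem_zipIdx_iff_getElem?.2 ht⟩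
  have h1 := (mholds_inst sem w T c t).1 (h (c, t) ht)
  have h2 := hs _ _ _ _ h1
  rw [glob_onm hG]
  exact h2

/-- The auxiliary indices of a table. -/
def auxT (T : List Body) : List ℕ := T.flatMap (fun b => b.flatMap (fun c => c.2.map Prod.snd))

theorem mem_auxT {T : List Body} {s : ℕ} {c : ℕ × List LV} {y : LV} (hc : c ∈ T.getD s [])
    (hy : y ∈ c.2) : y.2 ∈ auxT T := by
  have hs : T.getD s [] ∈ T := by
    rcases lt_or_ge s T.length with h | h
    · rw [List.getD_eq_getElem _ _ h]
      exact List.getElem_mem h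
    · rw [List.getD_eq_default _ _ h] at hc
      simp at hc
  unfold auxT
  rw [List.mem_flatMap]
  refine ⟨_, hs, ?_⟩
  rw [List.mem_flatMap]
  exact ⟨c, hc, List.mem_map.2 ⟨y, hy, rfl⟩⟩

/-- **Completeness of the expansion.** -/
theorem expand_complete {G : ℕ} (hG : 0 < G) {T : List Body}
    {sem : ℕ → (ℕ → E) → (ℕ → E) → Prop}
    (hc : ∀ s z a, sem s z a → ∀ A : Set E, A.Finite → ∃ x : ℕ → E, Function.Injective x ∧
      (∀ j, x j ∉ A) ∧ BHolds sem z a x (T.getD s []))
    {S : List MC} {v : ℕ → E} (hinj : Set.InjOn v (used G S)) (h : MHolds G sem v S) :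
    ∃ v' : ℕ → E, Set.InjOn v' (used G (expand G T S)) ∧ MHolds G sem v' (expand G T S) := by
  -- choose the auxiliary points one constraint after the other
  have key : ∀ n ≤ S.length, ∃ X : ℕ → ℕ → E,
      (∀ t < n, Function.Injective (X t)) ∧
      (∀ t < n, ∀ j ∈ auxT T, ∀ i ∈ used G S, X t j ≠ v i) ∧
      (∀ t < n, ∀ t' < t, ∀ j ∈ auxT T, ∀ j' ∈ auxT T, X t j ≠ X t' j') ∧
      (∀ t < n, ∀ c, S[t]? = some c →
        BHolds sem (glob G v) (fun k => v (c.2.getD k 0)) (X t) (T.getD c.1 [])) := by
    intro n
    induction n with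
    | zero =>
      intro _
      exact ⟨fun _ _ => v 0, by simp, by simp, by simp, by simp⟩
    | succ n ih =>
      intro hn
      obtain ⟨X, h1, h2, h3, h4⟩ := ih (by omega)
      have hc0 := h (S[n]) (List.getElem_mem _)
      set A : Set E := v '' used G S ∪ ⋃ t ∈ Set.Iio n, X t '' {j | j ∈ auxT T} with hA
      have hAf : A.Finite := by
        refine ((used_finite G S).image v).union ?_
        exact (Set.finite_Iio n).biUnion fun t _ => (List.finite_toSet _).image _
      obtain ⟨x, hx1, hx2, hx3⟩ := hc _ _ _ hc0 A hAf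
      refine ⟨Function.update X n x, ?_, ?_, ?_, ?_⟩
      · intro t ht
        rcases Nat.lt_succ_iff_lt_or_eq.1 ht with ht | rfl
        · rw [Function.update_of_ne ht.ne]
          exact h1 t ht
        · rw [Function.update_self]
          exact hx1
      · intro t ht j hj i hi
        rcases Nat.lt_succ_iff_lt_or_eq.1 ht with ht | rfl
        · rw [Function.update_of_ne ht.ne]
          exact h2 t ht j hj i hi
        · rw [Function.update_self]
          intro he
          exact hx2 j (Or.inl ⟨i, hi, he.symm⟩)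
      · intro t ht t' ht' j hj j' hj'
        rcases Nat.lt_succ_iff_lt_or_eq.1 ht with ht | rfl
        · rw [Function.update_of_ne ht.ne, Function.update_of_ne (ht'.trans ht).ne]
          exact h3 t ht t' ht' j hj j' hj'
        · rw [Function.update_self, Function.update_of_ne ht'.ne]
          intro he
          refine hx2 j (Or.inr ?_)
          rw [Set.mem_iUnion₂]
          exact ⟨t', ht', j', hj', he.symm⟩
      · intro t ht c hct
        rcases Nat.lt_succ_iff_lt_or_eq.1 ht with ht | rfl
        · rw [Function.update_of_ne ht.ne]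
          exact h4 t ht c hct
        · rw [Function.update_self]
          rw [List.getElem?_eq_getElem (by omega)] at hct
          obtain rfl := Option.some_inj.1 hct
          exact hx3
  obtain ⟨X, h1, h2, h3, h4⟩ := key S.length le_rfl
  let v' : ℕ → E := fun i => if i < G then v i else if i % 2 = 0 then v (i / 2) else
    X (Nat.unpair (i / 2 - G)).1 (Nat.unpair (i / 2 - G)).2
  have ho : ∀ i, v' (onm G i) = v i := by
    intro i
    simp only [v', onm]
    by_cases h : i < G
    · simp [h]
    · have h' : ¬ 2 * i < G := by omega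
      simp only [if_neg h, if_neg h']
      rw [if_pos (by omega)]
      congr 1
      omega
  have ha : ∀ t j, v' (anm G t j) = X t j := by
    intro t j
    simp only [v', anm]
    have e1 : (2 * (Nat.pair t j + G) + 1) / 2 - G = Nat.pair t j := by omega
    rw [if_neg (by omega), if_neg (by omega), e1, Nat.unpair_pair]
  have hg : glob G v' = glob G v := by
    funext j
    simp only [glob, v']
    by_cases h : j < G <;> simp [h, hG]
  -- the used names of the expansion
  have hused : ∀ i ∈ used G (expand G T S), (∃ i' ∈ used G S, i = onm G i') ∨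
      ∃ t < S.length, ∃ j ∈ auxT T, i = anm G t j := by
    rintro i (hi | ⟨c, hcm, hi⟩)
    · exact Or.inl ⟨i, Or.inl hi, by simp [onm, hi]⟩
    · unfold expand at hcm
      rw [List.mem_flatMap] at hcm
      obtain ⟨⟨c0, t⟩, hp, hcm⟩ := hcm
      unfold inst at hcm
      rw [List.mem_map] at hcm
      obtain ⟨b, hb, rfl⟩ := hcm
      simp only [List.mem_map] at hi
      obtain ⟨y, hy, rfl⟩ := hi
      have ht : S[t]? = some c0 := List.mem_zipIdx_iff_getElem?.1 hp
      have ht' : t < S.length := by
        by_contra hh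
        rw [List.getElem?_eq_none (by omega)] at ht
        simp at ht
      have hc0 : c0 ∈ S := List.mem_of_getElem? ht
      unfold ren
      by_cases e0 : y.1 = 0
      · left
        rw [if_pos e0]
        refine ⟨_, ?_, rfl⟩
        rcases lt_or_ge y.2 c0.2.length with hl | hl
        · right
          refine ⟨c0, hc0, ?_⟩
          rw [List.getD_eq_getElem _ _ hl]
          exact List.getElem_mem hl
        · left
          rw [List.getD_eq_default _ _ hl]
          exact hG
      · rw [if_neg e0]
        by_cases e1 : y.1 = 1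
        · right
          rw [if_pos e1]
          exact ⟨t, ht', y.2, mem_auxT hb hy, rfl⟩
        · left
          rw [if_neg e1]
          refine ⟨if y.2 < G then y.2 else 0, Or.inl (by split <;> assumption), ?_⟩
          unfold onm
          by_cases e2 : y.2 < G <;> simp [e2, hG]
  refine ⟨v', ?_, ?_⟩
  · intro i hi i' hi' he
    rcases hused i hi with ⟨k, hk, rfl⟩ | ⟨t, ht, j, hj, rfl⟩
    · rcases hused i' hi' with ⟨k', hk', rfl⟩ | ⟨t', ht', j', hj', rfl⟩
      · rw [ho, ho] at he
        rw [hinj hk hk' he]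
      · rw [ho, ha] at he
        exact absurd he.symm (h2 t' ht' j' hj' k hk)
    · rcases hused i' hi' with ⟨k', hk', rfl⟩ | ⟨t', ht', j', hj', rfl⟩
      · rw [ho, ha] at he
        exact absurd he (h2 t ht j hj k' hk')
      · rw [ha, ha] at he
        rcases lt_trichotomy t t' with h | h | h
        · exact absurd he.symm (h3 t' ht' t h j' hj' j hj)
        · subst h
          rw [h1 t ht he]
        · exact absurd he (h3 t ht t' h j hj j' hj')
  · rw [mholds_expand]
    rintro ⟨c, t⟩ hp
    have ht : S[t]? = some c := List.mem_zipIdx_iff_getElem?.1 hp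
    have ht' : t < S.length := by
      by_contra hh
      rw [List.getElem?_eq_none (by omega)] at ht
      simp at ht
    rw [mholds_inst]
    simp only [ho, ha, hg]
    exact h4 t ht' c ht

/-- Extension of a finite list of points to an injective sequence. -/
theorem extend_list [Infinite E] (l : List E) (hl : l.Nodup) {A : Set E} (hA : A.Finite)
    (hlA : ∀ y ∈ l, y ∉ A) : ∃ x : ℕ → E, Function.Injective x ∧ (∀ j, x j ∉ A) ∧
      ∀ j (h : j < l.length), x j = l[j] := by
  have hB : (A ∪ {y | y ∈ l}).Finite := hA.union (List.finite_toSet _)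
  have hC : Set.Infinite (A ∪ {y | y ∈ l})ᶜ := hB.infinite_compl
  have hCi : Infinite ((A ∪ {y | y ∈ l})ᶜ : Set E) := hC.to_subtype
  let g : ℕ ↪ ((A ∪ {y | y ∈ l})ᶜ : Set E) := Infinite.natEmbedding _
  have hg : ∀ j, (g j : E) ∉ A ∧ (g j : E) ∉ l := fun j => by
    have h1 : (g j : E) ∉ A ∪ {y | y ∈ l} := (g j).2
    exact ⟨fun h => h1 (Or.inl h), fun h => h1 (Or.inr h)⟩
  refine ⟨fun j => if h : j < l.length then l[j] else g j, ?_, ?_, ?_⟩
  · intro i j hij
    simp only at hij
    by_cases hi : i < l.length <;> by_cases hj : j < l.length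
    · rw [dif_pos hi, dif_pos hj] at hij
      exact (List.Nodup.getElem_inj_iff hl).1 hij
    · rw [dif_pos hi, dif_neg hj] at hij
      exact absurd (hij ▸ List.getElem_mem hi) (hg j).2
    · rw [dif_neg hi, dif_pos hj] at hij
      exact absurd (hij ▸ List.getElem_mem hj) (hg i).2
    · rw [dif_neg hi, dif_neg hj] at hij
      exact g.injective (Subtype.ext hij)
  · intro j
    by_cases hj : j < l.length
    · simp only [dif_pos hj]
      exact hlA _ (List.getElem_mem hj)
    · simp only [dif_neg hj]
      exact (hg j).1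
  · intro j h
    simp only [dif_pos h]

end Sem

/-! ### Iterated expansion -/

/-- If the body of each symbol uses only smaller symbols (or the symbol `0` for the symbol `0`),
the expansion lowers the symbols. -/
theorem expand_lt {G : ℕ} {T : List Body} (hT : ∀ s, ∀ c ∈ T.getD s [], c.1 ≤ s - 1)
    {S : List MC} {n : ℕ} (h : ∀ c ∈ S, c.1 ≤ n) : ∀ c ∈ expand G T S, c.1 ≤ n - 1 := by
  intro c hc
  unfold expand at hc
  rw [List.mem_flatMap] at hc
  obtain ⟨⟨c0, t⟩, hp, hcm⟩ := hc
  unfold inst at hcm
  rw [List.mem_map] at hcm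
  obtain ⟨b, hb, rfl⟩ := hcm
  have ht : S[t]? = some c0 := List.mem_zipIdx_iff_getElem?.1 hp
  have h1 := h c0 (List.mem_of_getElem? ht)
  have h2 := hT _ b hb
  simp only at h1 h2 ⊢
  omega

/-- Iterated expansion. -/
def expandN (G : ℕ) (T : List Body) (n : ℕ) (S : List MC) : List MC := (expand G T)^[n] S

theorem expandN_zero {G : ℕ} {T : List Body} {S : List MC} : expandN G T 0 S = S := rfl

theorem expandN_succ {G : ℕ} {T : List Body} {S : List MC} (n : ℕ) :
    expandN G T (n + 1) S = expand G T (expandN G T n S) :=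
  Function.iterate_succ_apply' _ _ _

theorem expandN_symbols {G : ℕ} {T : List Body} (hT : ∀ s, ∀ c ∈ T.getD s [], c.1 ≤ s - 1)
    {S : List MC} {n : ℕ} (h : ∀ c ∈ S, c.1 ≤ n) : ∀ c ∈ expandN G T n S, c.1 = 0 := by
  have key : ∀ m, ∀ c ∈ expandN G T m S, c.1 ≤ n - m := by
    intro m
    induction m with
    | zero => exact h
    | succ m ih =>
      rw [expandN_succ]
      intro c hc
      have := expand_lt hT ih c hc
      omega
  intro c hc
  have := key n c hc
  omega

theorem expandN_sound {E : Type} {G : ℕ} (hG : 0 < G) {T : List Body}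
    {sem : ℕ → (ℕ → E) → (ℕ → E) → Prop}
    (hs : ∀ s z a x, BHolds sem z a x (T.getD s []) → sem s z a)
    {S : List MC} (n : ℕ) {w : ℕ → E} (h : MHolds G sem w (expandN G T n S)) :
    ∃ v : ℕ → E, MHolds G sem v S := by
  induction n generalizing w with
  | zero => exact ⟨w, h⟩
  | succ n ih =>
    rw [expandN_succ] at h
    exact ih (expand_sound hG hs h)

theorem expandN_complete {E : Type} {G : ℕ} (hG : 0 < G) {T : List Body}
    {sem : ℕ → (ℕ → E) → (ℕ → E) → Prop}
    (hc : ∀ s z a, sem s z a → ∀ A : Set E, A.Finite → ∃ x : ℕ → E, Function.Injective x ∧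
      (∀ j, x j ∉ A) ∧ BHolds sem z a x (T.getD s []))
    {S : List MC} (n : ℕ) {v : ℕ → E} (hinj : Set.InjOn v (used G S)) (h : MHolds G sem v S) :
    ∃ v' : ℕ → E, Set.InjOn v' (used G (expandN G T n S)) ∧ MHolds G sem v' (expandN G T n S) := by
  induction n with
  | zero => exact ⟨v, hinj, h⟩
  | succ n ih =>
    obtain ⟨v1, h1, h2⟩ := ih
    rw [expandN_succ]
    exact expand_complete hG hc h1 h2

/-! ### Polynomial time -/

section

variable {α : Type} [TEnc α]

theorem poly_onm {i : α → ℕ} (hi : Poly i) (G : ℕ) : Poly (fun a => onm G (i a)) :=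
  (Poly.ite (Poly.decide_lt hi (Poly.const G)) hi (Poly.mul (Poly.const 2) hi)).congr fun a => by
    simp only [onm]

theorem poly_pair {i j : α → ℕ} (hi : Poly i) (hj : Poly j) :
    Poly (fun a => Nat.pair (i a) (j a)) :=
  (Poly.ite (Poly.decide_lt hi hj) (Poly.add (Poly.mul hj hj) hi)
    (Poly.add (Poly.add (Poly.mul hi hi) hi) hj)).congr fun a => by
    simp only [Nat.pair]

theorem poly_anm {t j : α → ℕ} (ht : Poly t) (hj : Poly j) (G : ℕ) :
    Poly (fun a => anm G (t a) (j a)) :=
  Poly.add (Poly.mul (Poly.const 2) (Poly.add (poly_pair ht hj) (Poly.const G))) (Poly.const 1)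

theorem poly_ren {t : α → ℕ} {l : α → List ℕ} {x : α → LV} (ht : Poly t) (hl : Poly l)
    (hx : Poly x) (G : ℕ) : Poly (fun a => ren G (t a) (l a) (x a)) := by
  have h1 := Poly.fst hx
  have h2 := Poly.snd hx
  refine (Poly.ite (Poly.decide_eq h1 (Poly.const 0))
    (poly_onm (Poly.getD hl h2 (Poly.const 0)) G)
    (Poly.ite (Poly.decide_eq h1 (Poly.const 1)) (poly_anm ht h2 G)
      (Poly.ite (Poly.decide_lt h2 (Poly.const G)) h2 (Poly.const 0)))).congr fun a => ?_
  simp only [ren]

theorem poly_inst {t : α → ℕ} {c : α → MC} (ht : Poly t) (hc : Poly c) (G : ℕ) (T : List Body) :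
    Poly (fun a => inst G T (c a) (t a)) := by
  have h1 : Poly (fun a => T.getD (c a).1 []) :=
    Poly.getD (Poly.const T) (Poly.fst hc) (Poly.const [])
  have hb : Poly (fun p : α × (ℕ × List LV) => p.2) := Poly.snd Poly.id
  have ha : Poly (fun p : α × (ℕ × List LV) => p.1) := Poly.fst Poly.id
  have hb1 : Poly (fun p : α × (ℕ × List LV) => p.2.1) := Poly.fst hb
  have hb2 : Poly (fun p : α × (ℕ × List LV) => p.2.2) := Poly.snd hb
  have hq : Poly (fun q : (α × (ℕ × List LV)) × LV => q.1.1) := Poly.fst (Poly.fst Poly.id)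
  have hq1 : Poly (fun q : (α × (ℕ × List LV)) × LV => t q.1.1) := Poly.comp ht hq
  have hq2 : Poly (fun q : (α × (ℕ × List LV)) × LV => (c q.1.1).2) :=
    Poly.snd (Poly.comp hc hq)
  have hq3 : Poly (fun q : (α × (ℕ × List LV)) × LV => q.2) := Poly.snd Poly.id
  have h2 : Poly (fun p : α × (ℕ × List LV) => p.2.2.map (ren G (t p.1) (c p.1).2)) :=
    Poly.map (F := fun (p : α × (ℕ × List LV)) y => ren G (t p.1) (c p.1).2 y) hb2
      (poly_ren hq1 hq2 hq3 G)
  have h3 : Poly (fun p : α × (ℕ × List LV) =>
      (p.2.1, p.2.2.map (ren G (t p.1) (c p.1).2))) := Poly.pair hb1 h2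
  exact Poly.map (F := fun (a : α) (b : ℕ × List LV) =>
    (b.1, b.2.map (ren G (t a) (c a).2))) h1 h3

theorem poly_expand {S : α → List MC} (hS : Poly S) (G : ℕ) (T : List Body) :
    Poly (fun a => expand G T (S a)) := by
  have h0 : Poly (fun a => (S a).zipIdx) := Poly.zipIdx hS
  have hp : Poly (fun q : α × (MC × ℕ) => q.2) := Poly.snd Poly.id
  have hp1 : Poly (fun q : α × (MC × ℕ) => q.2.1) := Poly.fst hp
  have hp2 : Poly (fun q : α × (MC × ℕ) => q.2.2) := Poly.snd hp
  have h1 : Poly (fun q : α × (MC × ℕ) => inst G T q.2.1 q.2.2) := poly_inst hp2 hp1 G T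
  exact Poly.flatMap (F := fun (_ : α) (p : MC × ℕ) => inst G T p.1 p.2) h0 h1

theorem poly_expandN {S : α → List MC} (hS : Poly S) (G : ℕ) (T : List Body) (n : ℕ) :
    Poly (fun a => expandN G T n (S a)) := by
  induction n with
  | zero => exact hS
  | succ n ih => exact (poly_expand ih G T).congr fun a => (expandN_succ n).symm

end

end Pool.Agent.NPC.ER
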