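import Pool.Agent.H625R2.Gap

/-!
# The ball theorem

If a nonnegative integer polynomial of degree at most `e` (`e` odd) in `n` variables has a real
zero, then it has a real zero in an explicit box (doubly exponential in `n`).
-/

namespace Pool.Agent.NPC.ER.Ball

open Polynomial Pool.Agent.H625R2 Filter Topology

/-! ### Norms on commutative rings -/

/-- Submultiplicative norms with natural values. -/
structure NN {R : Type*} [CommRing R] (N : R → ℕ) : Prop where
  zero : N 0 = 0
  one : N 1 ≤ 1
  add : ∀ a b, N (a + b) ≤ N a + N b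
  mul : ∀ a b, N (a * b) ≤ N a * N b
  neg : ∀ a, N (-a) = N a

theorem nn_int : NN (Int.natAbs : ℤ → ℕ) :=
  ⟨rfl, le_rfl, Int.natAbs_add_le, fun a b => (Int.natAbs_mul a b).le, Int.natAbs_neg⟩

section

variable {R : Type*} [CommRing R] {N : R → ℕ}

theorem NN.sum_le (hN : NN N) {ι : Type*} (s : Finset ι) (f : ι → R) :
    N (∑ i ∈ s, f i) ≤ ∑ i ∈ s, N (f i) := by
  classical
  induction s using Finset.induction_on with
  | empty => simp [hN.zero]
  | insert a s ha ih =>
    rw [Finset.sum_insert ha, Finset.sum_insert ha]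
    exact (hN.add _ _).trans (Nat.add_le_add_left ih _)

theorem NN.prod_le (hN : NN N) {ι : Type*} (s : Finset ι) (f : ι → R) (B : ℕ)
    (h : ∀ i ∈ s, N (f i) ≤ B) : N (∏ i ∈ s, f i) ≤ B ^ s.card := by
  classical
  induction s using Finset.induction_on with
  | empty => simpa using hN.one
  | insert a s ha ih =>
    rw [Finset.prod_insert ha, Finset.card_insert_of_notMem ha, pow_succ, mul_comm (B ^ _)]
    exact (hN.mul _ _).trans (Nat.mul_le_mul (h a (by simp))
      (ih fun i hi => h i (Finset.mem_insert_of_mem hi)))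

theorem NN.det_le (hN : NN N) {ι : Type*} [Fintype ι] [DecidableEq ι] (A : Matrix ι ι R) (B : ℕ)
    (h : ∀ i j, N (A i j) ≤ B) :
    N A.det ≤ (Fintype.card ι).factorial * B ^ Fintype.card ι := by
  rw [Matrix.det_apply]
  refine (hN.sum_le _ _).trans ?_
  have : ∀ σ ∈ (Finset.univ : Finset (Equiv.Perm ι)),
      N (Equiv.Perm.sign σ • ∏ i, A (σ i) i) ≤ B ^ Fintype.card ι := by
    intro σ _
    have h1 : N (Equiv.Perm.sign σ • ∏ i, A (σ i) i) = N (∏ i, A (σ i) i) := by
      rcases Int.units_eq_one_or (Equiv.Perm.sign σ) with h | h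
      · rw [h, one_smul]
      · rw [h, Units.neg_smul, one_smul, hN.neg]
    rw [h1]
    exact hN.prod_le _ _ B fun i _ => h _ _
  refine (Finset.sum_le_card_nsmul _ _ _ this).trans ?_
  rw [Finset.card_univ, Fintype.card_perm, smul_eq_mul]

/-- The sum of the norms of the coefficients. -/
def pn (N : R → ℕ) (p : R[X]) : ℕ := ∑ i ∈ p.support, N (p.coeff i)

theorem pn_eq_sum (hN : NN N) {p : R[X]} {s : Finset ℕ} (h : p.support ⊆ s) :
    pn N p = ∑ i ∈ s, N (p.coeff i) := by
  unfold pn
  apply Finset.sum_subset h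
  intro i _ hi
  have : p.coeff i = 0 := by simpa using hi
  rw [this, hN.zero]

theorem pn_add_le (hN : NN N) (p q : R[X]) : pn N (p + q) ≤ pn N p + pn N q := by
  classical
  rw [pn_eq_sum hN (s := p.support ∪ q.support) Polynomial.support_add,
    pn_eq_sum hN (p := p) (s := p.support ∪ q.support) Finset.subset_union_left,
    pn_eq_sum hN (p := q) (s := p.support ∪ q.support) Finset.subset_union_right,
    ← Finset.sum_add_distrib]
  apply Finset.sum_le_sum
  intro i _
  rw [Polynomial.coeff_add]
  exact hN.add _ _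

theorem pn_zero : pn N 0 = 0 := by simp [pn]

theorem pn_sum_le (hN : NN N) {ι : Type*} (s : Finset ι) (f : ι → R[X]) :
    pn N (∑ i ∈ s, f i) ≤ ∑ i ∈ s, pn N (f i) := by
  classical
  induction s using Finset.induction_on with
  | empty => simp [pn_zero]
  | insert a s ha ih =>
    rw [Finset.sum_insert ha, Finset.sum_insert ha]
    exact (pn_add_le hN _ _).trans (Nat.add_le_add_left ih _)

theorem pn_monomial (hN : NN N) (i : ℕ) (a : R) : pn N (monomial i a) = N a := by
  by_cases h : a = 0
  · subst h; simp [pn, hN.zero]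
  · unfold pn
    rw [Polynomial.support_monomial i h]
    simp

theorem pn_mul_le (hN : NN N) (p q : R[X]) : pn N (p * q) ≤ pn N p * pn N q := by
  have h : p * q = ∑ i ∈ p.support, ∑ j ∈ q.support,
      monomial (i + j) (p.coeff i * q.coeff j) := by
    conv_lhs => rw [p.as_sum_support, q.as_sum_support, Finset.sum_mul_sum]
    simp only [monomial_mul_monomial]
  rw [h]
  refine (pn_sum_le hN _ _).trans ?_
  unfold pn
  rw [Finset.sum_mul_sum]
  apply Finset.sum_le_sum
  intro i _
  refine (pn_sum_le hN _ _).trans ?_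
  apply Finset.sum_le_sum
  intro j _
  rw [pn_monomial hN]
  exact hN.mul _ _

theorem NN.poly (hN : NN N) : NN (pn N) where
  zero := pn_zero
  one := by
    rw [← C_1, ← monomial_zero_left, pn_monomial hN]
    exact hN.one
  add := pn_add_le hN
  mul := pn_mul_le hN
  neg p := by
    unfold pn
    rw [Polynomial.support_neg]
    exact Finset.sum_congr rfl fun i _ => by rw [Polynomial.coeff_neg, hN.neg]

end

theorem pn_natAbs (p : ℤ[X]) : pn Int.natAbs p = nrm p := rfl

/-! ### Root bounds and limits -/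

/-- A root of a nonzero integer polynomial is at most the norm of the polynomial. -/
theorem abs_root_le {D : ℤ[X]} (hD : D ≠ 0) {t : ℝ} (ht : aeval t D = 0) :
    |t| ≤ max 1 (nrm D) := by
  rcases le_total 0 t with h | h
  · rw [abs_of_nonneg h]
    exact root_le hD ht
  · rw [abs_of_nonpos h]
    have h1 : aeval (-t) (D.comp (-X)) = 0 := by
      rw [aeval_comp]
      simpa using ht
    have h2 : D.comp (-X) ≠ 0 := by
      intro h0
      apply hD
      have : (D.comp (-X)).comp (-X) = 0 := by rw [h0, zero_comp]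
      rw [comp_assoc] at this
      simpa using this
    have h3 : nrm (D.comp (-X)) ≤ nrm D := by
      have h4 : D.comp (-X) = ∑ i ∈ D.support, monomial i (D.coeff i * (-1) ^ i) := by
        rw [comp_eq_sum_left, Polynomial.sum]
        apply Finset.sum_congr rfl
        intro i _
        rw [neg_pow, ← C_mul_X_pow_eq_monomial, C_mul, C_pow, C_neg, C_1]
        ring
      rw [h4]
      refine (nrm_sum_le _ _).trans (Finset.sum_le_sum fun i _ => ?_)
      rw [nrm_monomial, Int.natAbs_mul, Int.natAbs_pow]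
      simp
    exact (root_le h2 h1).trans (Nat.cast_le.2 (max_le_max le_rfl h3))

theorem tendsto_aeval_div (p : ℤ[X]) {K : ℕ} (hK : p.natDegree ≤ K) {ι : Type*} {l : Filter ι}
    {d : ι → ℝ} (hd : Tendsto d l atTop) :
    Tendsto (fun k => aeval (d k) p / d k ^ K) l (𝓝 (p.coeff K : ℝ)) := by
  have h1 : ∀ i ∈ Finset.range (K + 1), Tendsto (fun k => (p.coeff i : ℝ) * (d k ^ i / d k ^ K)) l
      (𝓝 (if i = K then (p.coeff i : ℝ) else 0)) := by
    intro i hi
    rw [Finset.mem_range] at hi
    by_cases hiK : i = K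
    · rw [if_pos hiK]
      subst hiK
      have : ∀ᶠ k in l, (p.coeff i : ℝ) * (d k ^ i / d k ^ i) = p.coeff i := by
        filter_upwards [hd.eventually_gt_atTop 0] with k hk
        rw [div_self (pow_pos hk _).ne', mul_one]
      exact (tendsto_congr' this).2 tendsto_const_nhds
    · rw [if_neg hiK]
      have h2 : Tendsto (fun x : ℝ => x ^ i / x ^ K) atTop (𝓝 0) :=
        tendsto_pow_div_pow_atTop_zero (by omega)
      have := (h2.comp hd).const_mul (p.coeff i : ℝ)
      simpa using this
  have h2 := tendsto_finsetSum _ h1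
  have e1 : ∑ i ∈ Finset.range (K + 1), (if i = K then (p.coeff i : ℝ) else 0) = p.coeff K := by
    rw [Finset.sum_ite_eq']
    simp
  rw [e1] at h2
  refine h2.congr fun k => ?_
  rw [Polynomial.aeval_eq_sum_range' (n := K + 1) (by omega), Finset.sum_div]
  apply Finset.sum_congr rfl
  intro i _
  rw [zsmul_eq_mul]
  ring

/-- The limit of the roots, when the parameter goes to infinity, of a nonzero polynomial in two
variables is a root of a nonzero polynomial with small coefficients. -/
theorem limit_root (P : ℤ[X][X]) (hP : P ≠ 0) {ι : Type*} {l : Filter ι} [l.NeBot]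
    {d t : ι → ℝ} {t₀ : ℝ} (hd : Tendsto d l atTop) (ht : Tendsto t l (𝓝 t₀))
    (h0 : ∀ k, ∑ i ∈ P.support, aeval (d k) (P.coeff i) * t k ^ i = 0) :
    |t₀| ≤ max 1 (pn nrm P) := by
  classical
  set K := P.support.sup (fun i => (P.coeff i).natDegree) with hK
  set Q : ℤ[X] := ∑ i ∈ P.support, monomial i ((P.coeff i).coeff K) with hQ
  have hne : P.support.Nonempty := Polynomial.nonempty_support_iff.2 hP
  obtain ⟨j, hj, hjK⟩ := Finset.exists_mem_eq_sup _ hne (fun i => (P.coeff i).natDegree)
  rw [← hK] at hjK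
  have hQ0 : Q ≠ 0 := by
    intro h
    have h1 : Q.coeff j = (P.coeff j).coeff K := by
      rw [hQ, Polynomial.finsetSum_coeff, Finset.sum_eq_single j]
      · rw [coeff_monomial, if_pos rfl]
      · intro b _ hb
        rw [coeff_monomial, if_neg hb]
      · intro h; exact absurd hj h
    rw [h, coeff_zero, hjK] at h1
    have h2 : (P.coeff j).leadingCoeff = 0 := h1.symm
    rw [Polynomial.leadingCoeff_eq_zero] at h2
    exact (Polynomial.mem_support_iff.1 hj) h2
  have hQn : nrm Q ≤ pn nrm P := by
    refine (nrm_sum_le _ _).trans ?_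
    unfold pn
    apply Finset.sum_le_sum
    intro i _
    rw [nrm_monomial]
    by_cases h : K ∈ (P.coeff i).support
    · exact Finset.single_le_sum (f := fun k => ((P.coeff i).coeff k).natAbs)
        (fun _ _ => Nat.zero_le _) h
    · have : (P.coeff i).coeff K = 0 := by simpa using h
      rw [this]
      exact Nat.zero_le _
  have hlim : Tendsto (fun k => ∑ i ∈ P.support, (aeval (d k) (P.coeff i) / d k ^ K) * t k ^ i) l
      (𝓝 (∑ i ∈ P.support, ((P.coeff i).coeff K : ℝ) * t₀ ^ i)) := by
    apply tendsto_finsetSum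
    intro i hi
    exact (tendsto_aeval_div _ (Finset.le_sup (f := fun i => (P.coeff i).natDegree) hi) hd).mul
      (ht.pow i)
  have hz : ∀ k, ∑ i ∈ P.support, (aeval (d k) (P.coeff i) / d k ^ K) * t k ^ i = 0 := by
    intro k
    have := h0 k
    calc _ = (∑ i ∈ P.support, aeval (d k) (P.coeff i) * t k ^ i) / d k ^ K := by
          rw [Finset.sum_div]
          exact Finset.sum_congr rfl fun i _ => by ring
      _ = 0 := by rw [this, zero_div]
  have hroot : aeval t₀ Q = 0 := by
    have h1 : ∑ i ∈ P.support, ((P.coeff i).coeff K : ℝ) * t₀ ^ i = 0 := by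
      apply tendsto_nhds_unique hlim
      simp only [hz]
      exact tendsto_const_nhds
    rw [hQ, map_sum, ← h1]
    apply Finset.sum_congr rfl
    intro i _
    rw [aeval_monomial]
    simp
  exact (abs_root_le hQ0 hroot).trans (Nat.cast_le.2 (max_le_max le_rfl hQn))

/-! ### The ball theorem -/

section

variable {n : ℕ}

/-- The explicit bound in the ball theorem. -/
def BB (n e c : ℕ) : ℕ := (e ^ n).factorial * (1 + (e * c + 1) ^ (1 + n * (e - 1))) ^ (e ^ n)

theorem crit_limit {e : ℕ} (he : 0 < e) {G : Fin n → MvPolynomial (Fin n) ℤ} {c : ℕ} (hc : 1 ≤ c)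
    (hG : ∀ i, mnrm (G i) ≤ c) (hdeg : ∀ i, (G i).totalDegree < e) (j : Fin n)
    {ι : Type*} {l : Filter ι} [l.NeBot] {d : ι → ℝ} {y : ι → Fin n → ℝ} {t₀ : ℝ}
    (hd : Tendsto d l atTop) (ht : Tendsto (fun k => y k j) l (𝓝 t₀))
    (hy : ∀ k i, y k i ^ e = -d k * MvPolynomial.aeval (y k) (G i)) :
    |t₀| ≤ max 1 ((e ^ n).factorial * (1 + c ^ (1 + n * (e - 1))) ^ (e ^ n) : ℕ) := by
  classical
  set k₀ := 1 + n * (e - 1) with hk₀
  have hrep : ∀ α : Fin n → Fin e, Rep e G (fun _ x => MvPolynomial.aeval x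
      (MvPolynomial.X j : MvPolynomial (Fin n) ℤ) * ∏ i, x i ^ (α i : ℕ)) (c ^ k₀) := by
    intro α
    have h0 := rep_poly hc hG hdeg he (MvPolynomial.X j : MvPolynomial (Fin n) ℤ)
      (fun i => (α i : ℕ)) k₀ (by
      have h1 : ∑ i, (α i : ℕ) ≤ n * (e - 1) := by
        have := Finset.sum_le_card_nsmul Finset.univ (fun i => (α i : ℕ)) (e - 1) (by
          intro i _
          have := (α i).2
          omega)
        simpa using this
      rw [MvPolynomial.totalDegree_X]
      omega)
    rw [mnrm_X, one_mul] at h0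
    exact h0
  choose M hM1 hM2 using hrep
  set A : Matrix (Fin n → Fin e) (Fin n → Fin e) ℤ[X] := fun α β => M α β with hA
  have hcard : Fintype.card (Fin n → Fin e) = e ^ n := by simp
  have hNN : NN (nrm : ℤ[X] → ℕ) := nn_int.poly
  have hmonic : A.charpoly.Monic := A.charpoly_monic
  have hn : pn nrm A.charpoly ≤ (e ^ n).factorial * (1 + c ^ k₀) ^ (e ^ n) := by
    rw [Matrix.charpoly]
    have := hNN.poly.det_le A.charmatrix (1 + c ^ k₀) (by
      intro α β
      rw [Matrix.charmatrix_apply, sub_eq_add_neg]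
      refine (pn_add_le hNN _ _).trans ?_
      apply Nat.add_le_add
      · rw [Matrix.diagonal_apply]
        split_ifs
        · rw [← monomial_one_one_eq_X, pn_monomial hNN]
          exact hNN.one
        · rw [pn_zero]; exact Nat.zero_le _
      · rw [hNN.poly.neg, ← monomial_zero_left, pn_monomial hNN]
        exact (Finset.single_le_sum (f := fun β => nrm (M α β)) (fun _ _ => Nat.zero_le _)
          (Finset.mem_univ β)).trans (hM1 α))
    rwa [hcard] at this
  refine (limit_root A.charpoly hmonic.ne_zero hd ht ?_).trans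
    (Nat.cast_le.2 (max_le_max le_rfl hn))
  intro k
  -- the characteristic polynomial vanishes at the coordinate
  have h1 : ((A.charpoly).map (aeval (d k) : ℤ[X] →ₐ[ℤ] ℝ).toRingHom).eval (y k j) = 0 := by
    rw [← Matrix.charpoly_map, Matrix.eval_charpoly, ← Matrix.exists_mulVec_eq_zero_iff]
    refine ⟨fun α => ∏ i, y k i ^ (α i : ℕ), ?_, ?_⟩
    · intro h3
      have := congrFun h3 (fun _ => ⟨0, he⟩)
      simp at this
    · ext α
      rw [Pi.zero_apply, Matrix.sub_mulVec, Pi.sub_apply, Matrix.scalar_apply,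
        Matrix.mulVec_diagonal]
      have h4 := hM2 α (d k) (y k) (hy k)
      simp only [MvPolynomial.aeval_X] at h4
      rw [h4, Matrix.mulVec, dotProduct]
      exact sub_self _
  rw [Polynomial.eval_eq_sum, Polynomial.sum] at h1
  rw [← h1]
  symm
  apply Finset.sum_subset_zero_on_sdiff (Polynomial.support_map_subset _ _)
  · intro i hi
    rw [Finset.mem_sdiff] at hi
    have h5 : ((A.charpoly).map (aeval (d k) : ℤ[X] →ₐ[ℤ] ℝ).toRingHom).coeff i = 0 := by
      simpa using hi.2
    rw [Polynomial.coeff_map] at h5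
    have h6 : aeval (d k) (A.charpoly.coeff i) = 0 := h5
    rw [h6, zero_mul]
  · intro i _
    rw [Polynomial.coeff_map]
    rfl

/-- **Ball theorem.** -/
theorem ball {e : ℕ} (he : Odd e) (g : MvPolynomial (Fin n) ℤ) (hdeg : g.totalDegree ≤ e)
    (hg0 : ∀ x : Fin n → ℝ, 0 ≤ MvPolynomial.aeval x g) (x₀ : Fin n → ℝ)
    (hx₀ : MvPolynomial.aeval x₀ g = 0) :
    ∃ y : Fin n → ℝ, MvPolynomial.aeval y g = 0 ∧ ∀ i, |y i| ≤ max 1 (BB n e (mnrm g) : ℕ) := by
  have he0 : 0 < e := he.pos
  have heven : Even (e + 1) := he.add_one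
  have hcont : Continuous fun x : Fin n → ℝ => MvPolynomial.aeval x g := by
    have : (fun x : Fin n → ℝ => MvPolynomial.aeval x g) = fun x =>
        ∑ m ∈ g.support, ((g.coeff m : ℤ) : ℝ) * ∏ i, x i ^ m i := funext fun x => aeval_eq g x
    rw [this]
    fun_prop
  have hcontP : Continuous fun x : Fin n → ℝ => ∑ i, x i ^ (e + 1) := by fun_prop
  have hterm : ∀ (x : Fin n → ℝ) (i : Fin n), 0 ≤ x i ^ (e + 1) := fun x i => heven.pow_nonneg _
  set T : ℝ := ∑ i, x₀ i ^ (e + 1) + 1 with hT
  have hT1 : 1 ≤ T := by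
    have := Finset.sum_nonneg fun i (_ : i ∈ Finset.univ) => hterm x₀ i
    linarith
  set B : Set (Fin n → ℝ) := {x | ∑ i, x i ^ (e + 1) ≤ T} with hB
  have hBc : IsCompact B := by
    apply IsCompact.of_isClosed_subset (isCompact_univ_pi (fun _ : Fin n =>
      (isCompact_Icc : IsCompact (Set.Icc (-(T : ℝ)) T))))
    · exact isClosed_le hcontP continuous_const
    · intro x hx i _
      have h1 : x i ^ (e + 1) ≤ T := (Finset.single_le_sum (f := fun i => x i ^ (e + 1))
        (fun i _ => hterm x i) (Finset.mem_univ i)).trans hx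
      have h2 : |x i| ≤ T := by
        by_contra hlt
        push Not at hlt
        have h3 : (T : ℝ) ^ (e + 1) < |x i| ^ (e + 1) :=
          pow_lt_pow_left₀ hlt (by positivity) (by omega)
        rw [heven.pow_abs] at h3
        have h4 : (T : ℝ) ≤ T ^ (e + 1) := le_self_pow₀ hT1 (by omega)
        linarith
      exact abs_le.1 h2
  have hxB : x₀ ∈ B := by
    simp only [hB, Set.mem_ofPred_eq, hT]
    linarith
  -- minimisers
  have hmin : ∀ m : ℕ, ∃ y ∈ B, ∀ z, ∑ i, y i ^ (e + 1) + (e + 1) * (m : ℝ) *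
      MvPolynomial.aeval y g ≤ ∑ i, z i ^ (e + 1) + (e + 1) * (m : ℝ) * MvPolynomial.aeval z g := by
    intro m
    obtain ⟨y, hy, hymin⟩ := hBc.exists_isMinOn (f := fun z => ∑ i, z i ^ (e + 1) +
      (e + 1) * (m : ℝ) * MvPolynomial.aeval z g) ⟨x₀, hxB⟩
      (hcontP.add (continuous_const.mul hcont)).continuousOn
    refine ⟨y, hy, fun z => ?_⟩
    by_cases hz : z ∈ B
    · exact hymin hz
    · have h1 := hymin hxB
      simp only [hB, Set.mem_ofPred_eq, not_le] at hz
      have h2 : 0 ≤ (e + 1) * (m : ℝ) * MvPolynomial.aeval z g :=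
        mul_nonneg (by positivity) (hg0 z)
      simp only [Set.mem_ofPred_eq, hx₀, mul_zero, add_zero] at h1
      linarith
  choose y hyB hymin using hmin
  have hcrit : ∀ (m : ℕ) (i : Fin n), y m i ^ e =
      -(m : ℝ) * MvPolynomial.aeval (y m) (MvPolynomial.pderiv i g) := by
    intro m i
    set P : MvPolynomial (Fin n) ℤ := ∑ j, MvPolynomial.X j ^ (e + 1) with hP
    have haP : ∀ z : Fin n → ℝ, MvPolynomial.aeval z P = ∑ j, z j ^ (e + 1) := by
      intro z
      rw [hP]
      simp only [map_sum, map_pow, MvPolynomial.aeval_X]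
    have hdP : MvPolynomial.aeval (y m) (MvPolynomial.pderiv i P) = (e + 1) * y m i ^ e := by
      classical
      rw [hP, map_sum, map_sum, Finset.sum_eq_single i]
      · rw [Derivation.leibniz_pow, MvPolynomial.pderiv_X_self]
        simp
      · intro j _ hj
        rw [Derivation.leibniz_pow, MvPolynomial.pderiv_X_of_ne hj]
        simp
      · intro h; exact absurd (Finset.mem_univ _) h
    have h1 := (hasDerivAt_update P (y m) i (y m i)).add
      ((hasDerivAt_update g (y m) i (y m i)).const_mul (((e : ℝ) + 1) * m))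
    have h2 : IsLocalMin ((fun s => MvPolynomial.aeval (Function.update (y m) i s) P) +
        fun s => ((e : ℝ) + 1) * m * MvPolynomial.aeval (Function.update (y m) i s) g)
        (y m i) := by
      apply Filter.Eventually.of_forall
      intro s
      simp only [Pi.add_apply, haP, Function.update_eq_self]
      exact hymin m _
    have h3 := h2.hasDerivAt_eq_zero h1
    rw [Function.update_eq_self, hdP] at h3
    have h4 : ((e : ℝ) + 1) *
        (y m i ^ e + m * MvPolynomial.aeval (y m) (MvPolynomial.pderiv i g)) = 0 := by linarith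
    have h5 : ((e : ℝ) + 1) ≠ 0 := by positivity
    have h6 := (mul_eq_zero.1 h4).resolve_left h5
    linarith
  obtain ⟨y₀, hy₀, φ, hφ, hlim⟩ := hBc.tendsto_subseq hyB
  have hdlim : Tendsto (fun k => (φ k : ℝ)) atTop atTop :=
    tendsto_natCast_atTop_atTop.comp hφ.tendsto_atTop
  refine ⟨y₀, ?_, ?_⟩
  · -- the limit is a zero
    have h1 : Tendsto (fun k => MvPolynomial.aeval (y (φ k)) g) atTop
        (𝓝 (MvPolynomial.aeval y₀ g)) := (hcont.tendsto y₀).comp hlim
    have h2 : Tendsto (fun k => T / ((e + 1) * (φ k : ℝ))) atTop (𝓝 0) :=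
      Tendsto.div_atTop tendsto_const_nhds (hdlim.const_mul_atTop (by positivity))
    have h3 : ∀ᶠ k in atTop, MvPolynomial.aeval (y (φ k)) g ≤ T / ((e + 1) * (φ k : ℝ)) := by
      filter_upwards [hdlim.eventually_gt_atTop 0] with k hk
      rw [le_div_iff₀ (by positivity)]
      have h4 := hymin (φ k) x₀
      rw [hx₀, mul_zero, add_zero] at h4
      have h5 : 0 ≤ ∑ i, y (φ k) i ^ (e + 1) := Finset.sum_nonneg fun i _ => hterm _ i
      have h6 : ∑ i, x₀ i ^ (e + 1) ≤ T := by linarith
      linarith
    exact le_antisymm (le_of_tendsto_of_tendsto h1 h2 h3) (hg0 y₀)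
  · intro j
    have h1 : Tendsto (fun k => y (φ k) j) atTop (𝓝 (y₀ j)) :=
      ((continuous_apply j).tendsto y₀).comp hlim
    exact crit_limit he0 (G := fun i => MvPolynomial.pderiv i g) (c := e * mnrm g + 1) (by omega)
      (fun i => (mnrm_pderiv_le g i hdeg).trans (by omega))
      (fun i => totalDegree_pderiv_lt g i he0 hdeg) j hdlim h1 (fun k i => hcrit (φ k) i)

end

end Pool.Agent.NPC.ER.Ball
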