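import Pool.Agent.ER.ToSysPoly
import Pool.Agent.ER.Ball

/-!
# Systems of constraints on small real numbers

A system `S` of constraints `xᵢ = 1`, `xᵢ + xⱼ = xₖ`, `xᵢ * xⱼ = xₖ` is transformed in polynomial
time into a system `bsys S` of constraints `xᵢ = 1/8`, `xᵢ + xⱼ = xₖ`, `xᵢ * xⱼ = xₖ` such that

* if `S` has a real solution then `bsys S` has a solution with all `|xᵢ| ≤ 1/8`;
* if `bsys S` has a real solution (small or not) then `S` has a real solution.
-/

namespace Pool.Agent.NPC.ER

open Pool.Agent.H625R2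

/-! ### Systems and polynomials -/

/-- The variables of a system. -/
def svars (S : List Con) : List ℕ := S.flatMap Con.vars

theorem mem_svars {S : List Con} {c : Con} (hc : c ∈ S) {i : ℕ} (hi : i ∈ c.vars) :
    i ∈ svars S := List.mem_flatMap.2 ⟨c, hc, hi⟩

theorem length_svars (S : List Con) : (svars S).length ≤ 3 * S.length := by
  unfold svars
  induction S with
  | nil => simp
  | cons c S ih =>
    have : c.vars.length ≤ 3 := by cases c <;> simp [Con.vars]
    simp only [List.flatMap_cons, List.length_append, List.length_cons]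
    omega

section

variable {n : ℕ}

/-- The polynomial of a constraint, for a numbering of the variables. -/
noncomputable def cpoly (f : ℕ → Fin n) : Con → MvPolynomial (Fin n) ℤ
  | Con.one i => MvPolynomial.X (f i) - MvPolynomial.C 1
  | Con.add i j k => MvPolynomial.X (f i) + MvPolynomial.X (f j) - MvPolynomial.X (f k)
  | Con.mul i j k => MvPolynomial.X (f i) * MvPolynomial.X (f j) - MvPolynomial.X (f k)

theorem cpoly_eval (f : ℕ → Fin n) (c : Con) (y : Fin n → ℝ) :
    MvPolynomial.aeval y (cpoly f c) = 0 ↔ c.Holds (fun i => y (f i)) := by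
  cases c with
  | one i => simp [cpoly, Con.Holds, sub_eq_zero]
  | add i j k => simp [cpoly, Con.Holds, sub_eq_zero]
  | mul i j k => simp [cpoly, Con.Holds, sub_eq_zero]

theorem cpoly_mnrm (f : ℕ → Fin n) (c : Con) : mnrm (cpoly f c) ≤ 3 := by
  cases c with
  | one i =>
    refine (mnrm_sub_le _ _).trans ?_
    rw [mnrm_X, mnrm_C]; norm_num
  | add i j k =>
    refine (mnrm_sub_le _ _).trans ?_
    have := mnrm_add_le (MvPolynomial.X (f i) : MvPolynomial (Fin n) ℤ) (MvPolynomial.X (f j))
    rw [mnrm_X, mnrm_X] at this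
    rw [mnrm_X]; omega
  | mul i j k =>
    refine (mnrm_sub_le _ _).trans ?_
    have := mnrm_mul_le (MvPolynomial.X (f i) : MvPolynomial (Fin n) ℤ) (MvPolynomial.X (f j))
    rw [mnrm_X, mnrm_X] at this
    rw [mnrm_X]; omega

theorem cpoly_deg (f : ℕ → Fin n) (c : Con) : (cpoly f c).totalDegree ≤ 2 := by
  cases c with
  | one i =>
    refine (MvPolynomial.totalDegree_sub _ _).trans ?_
    rw [MvPolynomial.totalDegree_X, MvPolynomial.totalDegree_C]; norm_num
  | add i j k =>
    refine (MvPolynomial.totalDegree_sub _ _).trans (max_le ?_ ?_)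
    · refine (MvPolynomial.totalDegree_add _ _).trans ?_
      rw [MvPolynomial.totalDegree_X, MvPolynomial.totalDegree_X]; norm_num
    · rw [MvPolynomial.totalDegree_X]; norm_num
  | mul i j k =>
    refine (MvPolynomial.totalDegree_sub _ _).trans (max_le ?_ ?_)
    · refine (MvPolynomial.totalDegree_mul _ _).trans ?_
      rw [MvPolynomial.totalDegree_X, MvPolynomial.totalDegree_X]
    · rw [MvPolynomial.totalDegree_X]; norm_num

/-- The sum of the squares of the polynomials of a system. -/
noncomputable def spoly (f : ℕ → Fin n) : List Con → MvPolynomial (Fin n) ℤ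
  | [] => 0
  | c :: S => cpoly f c * cpoly f c + spoly f S

theorem spoly_nonneg (f : ℕ → Fin n) (S : List Con) (y : Fin n → ℝ) :
    0 ≤ MvPolynomial.aeval y (spoly f S) := by
  induction S with
  | nil => simp [spoly]
  | cons c S ih =>
    simp only [spoly, map_add, map_mul]
    have := mul_self_nonneg (MvPolynomial.aeval y (cpoly f c))
    linarith

theorem spoly_eval (f : ℕ → Fin n) (S : List Con) (y : Fin n → ℝ) :
    MvPolynomial.aeval y (spoly f S) = 0 ↔ SysHolds (fun i => y (f i)) S := by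
  induction S with
  | nil => simp [spoly, SysHolds]
  | cons c S ih =>
    rw [sysHolds_cons, ← ih, ← cpoly_eval]
    simp only [spoly, map_add, map_mul]
    have h1 := mul_self_nonneg (MvPolynomial.aeval y (cpoly f c))
    have h2 := spoly_nonneg f S y
    constructor
    · intro h
      exact ⟨mul_self_eq_zero.1 (by linarith), by linarith⟩
    · rintro ⟨h3, h4⟩
      rw [h3, h4]; ring

theorem spoly_mnrm (f : ℕ → Fin n) (S : List Con) : mnrm (spoly f S) ≤ 9 * S.length := by
  induction S with
  | nil => simp [spoly, mnrm_zero]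
  | cons c S ih =>
    refine (mnrm_add_le _ _).trans ?_
    have h1 := mnrm_mul_le (cpoly f c) (cpoly f c)
    have h2 := Nat.mul_le_mul (cpoly_mnrm f c) (cpoly_mnrm f c)
    simp only [List.length_cons]
    omega

theorem spoly_deg (f : ℕ → Fin n) (S : List Con) : (spoly f S).totalDegree ≤ 5 := by
  induction S with
  | nil => simp [spoly]
  | cons c S ih =>
    refine (MvPolynomial.totalDegree_add _ _).trans (max_le ?_ ih)
    refine (MvPolynomial.totalDegree_mul _ _).trans ?_
    have := cpoly_deg f c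
    omega

end

/-! ### The numerical bound -/

theorem bb_le (n m : ℕ) (hn : n ≤ 3 * m) : Ball.BB n 5 (9 * m) ≤ 2 ^ 2 ^ (16 * m + 8) := by
  have h2 : ∀ k : ℕ, k + 1 ≤ 2 ^ k := fun k => Nat.lt_two_pow_self
  have hN : 5 ^ n ≤ 2 ^ (9 * m) := by
    calc 5 ^ n ≤ 8 ^ n := Nat.pow_le_pow_left (by norm_num) n
      _ = 2 ^ (3 * n) := by rw [pow_mul]; norm_num
      _ ≤ 2 ^ (9 * m) := Nat.pow_le_pow_right (by norm_num) (by omega)
  set N := 5 ^ n with hNdef
  have hfact : N.factorial ≤ 2 ^ (9 * m * N) := by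
    calc N.factorial ≤ N ^ N := Nat.factorial_le_pow N
      _ ≤ (2 ^ (9 * m)) ^ N := Nat.pow_le_pow_left hN N
      _ = _ := (pow_mul 2 (9 * m) N).symm
  have hbase : 5 * (9 * m) + 1 ≤ 2 ^ (6 + m) := by
    have := h2 m
    rw [pow_add]
    omega
  have hpow : 1 + (5 * (9 * m) + 1) ^ (1 + n * 4) ≤ 2 ^ (1 + (6 + m) * (1 + 12 * m)) := by
    have h3 : (5 * (9 * m) + 1) ^ (1 + n * 4) ≤ 2 ^ ((6 + m) * (1 + 12 * m)) := by
      calc _ ≤ (5 * (9 * m) + 1) ^ (1 + 12 * m) :=
            Nat.pow_le_pow_right (by omega) (by omega)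
        _ ≤ (2 ^ (6 + m)) ^ (1 + 12 * m) := Nat.pow_le_pow_left hbase _
        _ = _ := (pow_mul _ _ _).symm
    have h4 : 1 ≤ 2 ^ ((6 + m) * (1 + 12 * m)) := Nat.one_le_two_pow
    calc _ ≤ 2 ^ ((6 + m) * (1 + 12 * m)) + 2 ^ ((6 + m) * (1 + 12 * m)) := Nat.add_le_add h4 h3
      _ = _ := by rw [pow_add 2 1]; ring
  have hall : Ball.BB n 5 (9 * m) ≤ 2 ^ (9 * m * N + (1 + (6 + m) * (1 + 12 * m)) * N) := by
    have e1 : 2 ^ (9 * m * N + (1 + (6 + m) * (1 + 12 * m)) * N) =
        2 ^ (9 * m * N) * (2 ^ (1 + (6 + m) * (1 + 12 * m))) ^ N := by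
      rw [← pow_mul, ← pow_add]
    rw [e1]
    exact Nat.mul_le_mul hfact (Nat.pow_le_pow_left hpow _)
  refine hall.trans (Nat.pow_le_pow_right (by norm_num) ?_)
  have h5 : 9 * m + (1 + (6 + m) * (1 + 12 * m)) ≤ 2 ^ (7 * m + 8) := by
    have h6 := h2 m
    have h7 : (m + 1) * (m + 1) ≤ 2 ^ m * 2 ^ m := Nat.mul_le_mul h6 h6
    have h8 : 2 ^ (7 * m + 8) = 2 ^ m * 2 ^ m * (2 ^ (5 * m) * 2 ^ 8) := by
      rw [← pow_add, ← pow_add, ← pow_add]
      congr 1
      ring
    rw [h8]
    have h9 : 1 ≤ 2 ^ (5 * m) := Nat.one_le_two_pow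
    calc _ ≤ (m + 1) * (m + 1) * 256 := by nlinarith
      _ ≤ 2 ^ m * 2 ^ m * (2 ^ (5 * m) * 2 ^ 8) :=
        Nat.mul_le_mul h7 (by omega)
  calc 9 * m * N + (1 + (6 + m) * (1 + 12 * m)) * N
      = (9 * m + (1 + (6 + m) * (1 + 12 * m))) * N := by ring
    _ ≤ 2 ^ (7 * m + 8) * 2 ^ (9 * m) := Nat.mul_le_mul h5 hN
    _ = 2 ^ (16 * m + 8) := by rw [← pow_add]; congr 1; ring

/-- **Ball theorem for systems.** A satisfiable system has a solution of at most doubly
exponential size. -/
theorem Sat.bounded {S : List Con} (h : Sat S) :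
    ∃ v : ℕ → ℝ, SysHolds v S ∧ ∀ i, |v i| ≤ 2 ^ 2 ^ (16 * S.length + 8) := by
  obtain ⟨v, hv⟩ := h
  rcases Nat.eq_zero_or_pos (svars S).length with h0 | h0
  · refine ⟨fun _ => 0, ?_, fun i => by simp⟩
    have hS : S = [] := by
      cases S with
      | nil => rfl
      | cons c S =>
        exfalso
        have h1 : c.vars ≠ [] := by cases c <;> simp [Con.vars]
        obtain ⟨i, hi⟩ := List.exists_mem_of_ne_nil _ h1
        have h2 := mem_svars (S := c :: S) (by simp) hi
        rw [List.length_eq_zero_iff] at h0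
        rw [h0] at h2
        simp at h2
    rw [hS]
    exact sysHolds_nil
  set n := (svars S).length with hn
  let f : ℕ → Fin n := fun i => if h : (svars S).idxOf i < n then ⟨(svars S).idxOf i, h⟩
    else ⟨0, h0⟩
  have hf : ∀ i ∈ svars S, (svars S)[(f i : ℕ)]'(f i).2 = i := by
    intro i hi
    have h1 : (svars S).idxOf i < n := List.idxOf_lt_length_of_mem hi
    have h2 : ((f i : Fin n) : ℕ) = (svars S).idxOf i := by simp only [f, dif_pos h1]
    simp only [h2]
    exact List.getElem_idxOf h1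
  set x₀ : Fin n → ℝ := fun j => v ((svars S)[(j : ℕ)]'j.2) with hx₀
  have hzero : MvPolynomial.aeval x₀ (spoly f S) = 0 := by
    rw [spoly_eval]
    intro c hc
    refine (Con.holds_congr fun i hi => ?_).1 (hv c hc)
    rw [hx₀]
    simp only
    rw [hf i (mem_svars hc hi)]
  obtain ⟨y, hy0, hy⟩ := Ball.ball (e := 5) (by decide) (spoly f S) (spoly_deg f S)
    (spoly_nonneg f S) x₀ hzero
  refine ⟨fun i => y (f i), (spoly_eval f S y).1 hy0, fun i => (hy _).trans ?_⟩
  have h1 : Ball.BB n 5 (mnrm (spoly f S)) ≤ Ball.BB n 5 (9 * S.length) := by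
    unfold Ball.BB
    have := spoly_mnrm f S
    gcongr
  have h2 := h1.trans (bb_le n S.length (length_svars S))
  have h3 : 1 ≤ 2 ^ 2 ^ (16 * S.length + 8) := Nat.one_le_two_pow
  exact_mod_cast max_le h3 h2

/-! ### The bounded system -/

/-- Validity of a constraint, `one i` being read as `xᵢ = c`. -/
def Con.HoldsC (c : ℝ) (v : ℕ → ℝ) : Con → Prop
  | one i => v i = c
  | add i j k => v i + v j = v k
  | mul i j k => v i * v j = v k

/-- The names of the powers of `1/8`. -/
def ev (j : ℕ) : ℕ := 4 * j + 1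

/-- The translation of one constraint. -/
def bcon (K : ℕ) (c : Con) (t : ℕ) : List Con :=
  match c with
  | Con.one i => [Con.add (4 * t + 3) (4 * t + 3) (4 * t + 3),
      Con.add (2 * i) (4 * t + 3) (ev K)]
  | Con.add i j k => [Con.add (2 * i) (2 * j) (2 * k)]
  | Con.mul i j k => [Con.mul (2 * i) (2 * j) (4 * t + 3), Con.mul (ev K) (2 * k) (4 * t + 3)]

/-- The exponent. -/
def bK (S : List Con) : ℕ := 16 * S.length + 8

/-- The bounded system of a system. -/
def bsys (S : List Con) : List Con :=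
  Con.one (ev 0) :: ((List.range (bK S)).map (fun j => Con.mul (ev j) (ev j) (ev (j + 1))) ++
    S.zipIdx.flatMap (fun p => bcon (bK S) p.1 p.2))

/-- The values of the powers. -/
theorem ev_value {κ : ℝ} {S : List Con} {w : ℕ → ℝ} (h : ∀ c ∈ bsys S, c.HoldsC κ w) :
    ∀ j ≤ bK S, w (ev j) = κ ^ 2 ^ j := by
  intro j
  induction j with
  | zero =>
    intro _
    have := h (Con.one (ev 0)) (by simp [bsys])
    simpa [Con.HoldsC] using this
  | succ j ih =>
    intro hj
    have h1 := ih (by omega)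
    have h2 := h (Con.mul (ev j) (ev j) (ev (j + 1))) (by
      unfold bsys
      refine List.mem_cons_of_mem _ (List.mem_append_left _ ?_)
      rw [List.mem_map]
      exact ⟨j, List.mem_range.2 (by omega), rfl⟩)
    simp only [Con.HoldsC] at h2
    rw [← h2, h1, ← pow_add]
    congr 1
    ring

/-- A solution of the bounded system gives a solution of the system. -/
theorem sat_of_bsys_const {κ : ℝ} (hκ : 0 < κ) {S : List Con} {w : ℕ → ℝ}
    (h : ∀ c ∈ bsys S, c.HoldsC κ w) : Sat S := by
  have hev := ev_value h (bK S) le_rfl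
  set ε : ℝ := κ ^ 2 ^ bK S with hε
  have hε0 : ε ≠ 0 := by positivity
  refine ⟨fun i => w (2 * i) / ε, fun c hc => ?_⟩
  obtain ⟨t, ht⟩ : ∃ t, (c, t) ∈ S.zipIdx := by
    obtain ⟨t, ht⟩ := List.mem_iff_getElem?.1 hc
    exact ⟨t, List.mem_zipIdx_iff_getElem?.2 ht⟩
  have hmem : ∀ c' ∈ bcon (bK S) c t, c'.HoldsC κ w := by
    intro c' hc'
    apply h
    unfold bsys
    refine List.mem_cons_of_mem _ (List.mem_append_right _ ?_)
    exact List.mem_flatMap.2 ⟨(c, t), ht, hc'⟩
  cases c with
  | one i =>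
    simp only [bcon, List.forall_mem_cons, Con.HoldsC] at hmem
    obtain ⟨h1, h2, -⟩ := hmem
    have h3 : w (4 * t + 3) = 0 := by linarith
    rw [h3, add_zero, hev] at h2
    simp only [Con.Holds]
    rw [h2, div_self hε0]
  | add i j k =>
    simp only [bcon, List.forall_mem_cons, Con.HoldsC] at hmem
    simp only [Con.Holds]
    rw [← add_div, hmem.1]
  | mul i j k =>
    simp only [bcon, List.forall_mem_cons, Con.HoldsC] at hmem
    obtain ⟨h1, h2, -⟩ := hmem
    rw [← h1, hev] at h2
    simp only [Con.Holds]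
    rw [div_mul_div_comm, ← h2]
    field_simp

/-- A solution of the bounded system gives a solution of the system. -/
theorem sat_of_bsys {S : List Con} {w : ℕ → ℝ} (h : ∀ c ∈ bsys S, c.HoldsC (1 / 8) w) :
    Sat S := sat_of_bsys_const (by norm_num) h

/-- A satisfiable system gives a bounded system with a small solution, for every constant
`0 < κ ≤ 1/8`. -/
theorem bsys_of_sat_const {κ : ℝ} (hκ : 0 < κ) (hκ8 : κ ≤ 1 / 8) {S : List Con} (h : Sat S) :
    ∃ w : ℕ → ℝ, (∀ i, |w i| ≤ 1 / 8) ∧ ∀ c ∈ bsys S, c.HoldsC κ w := by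
  obtain ⟨v, hv, hb⟩ := h.bounded
  set K := bK S with hK
  set ε : ℝ := κ ^ 2 ^ K with hε
  have hε0 : 0 < ε := by positivity
  have hsmall : ∀ i, |ε * v i| ≤ 1 / 8 := by
    intro i
    rw [abs_mul, abs_of_pos hε0]
    have h1 : ε * (2 : ℝ) ^ 2 ^ K ≤ (1 / 4) ^ 2 ^ K := by
      rw [hε, ← mul_pow]
      exact pow_le_pow_left₀ (by positivity) (by linarith) _
    have h2 : ((1 : ℝ) / 4) ^ 2 ^ K ≤ (1 / 4) ^ 2 := by
      apply pow_le_pow_of_le_one (by norm_num) (by norm_num)
      have : K = 16 * S.length + 8 := rfl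
      calc 2 = 2 ^ 1 := rfl
        _ ≤ 2 ^ K := Nat.pow_le_pow_right (by norm_num) (by omega)
    calc ε * |v i| ≤ ε * 2 ^ 2 ^ K := mul_le_mul_of_nonneg_left (hb i) hε0.le
      _ ≤ (1 / 4) ^ 2 ^ K := h1
      _ ≤ (1 / 4) ^ 2 := h2
      _ ≤ 1 / 8 := by norm_num
  let tmp : ℕ → ℝ := fun t => match S[t]? with
    | some (Con.mul i j _) => (ε * v i) * (ε * v j)
    | _ => 0
  let w : ℕ → ℝ := fun i => if i % 2 = 0 then ε * v (i / 2) else
    if i % 4 = 1 then κ ^ 2 ^ (i / 4) else tmp (i / 4)
  have hw0 : ∀ i, w (2 * i) = ε * v i := fun i => by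
    simp only [w]
    rw [if_pos (by omega)]
    congr 2
    omega
  have hw1 : ∀ j, w (ev j) = κ ^ 2 ^ j := fun j => by
    simp only [w, ev]
    rw [if_neg (by omega), if_pos (by omega)]
    congr 2
    omega
  have hw2 : ∀ t, w (4 * t + 3) = tmp t := fun t => by
    simp only [w]
    rw [if_neg (by omega), if_neg (by omega)]
    congr 1
    omega
  refine ⟨w, ?_, ?_⟩
  · intro i
    have htmp : ∀ t, |tmp t| ≤ 1 / 8 := by
      intro t
      simp only [tmp]
      split
      · rename_i i j k _
        rw [abs_mul]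
        have h1 := hsmall i
        have h2 := hsmall j
        nlinarith [abs_nonneg (ε * v i), abs_nonneg (ε * v j)]
      · simp
    by_cases h0 : i % 2 = 0
    · have : i = 2 * (i / 2) := by omega
      rw [this, hw0]
      exact hsmall _
    · by_cases h1 : i % 4 = 1
      · have : i = ev (i / 4) := by unfold ev; omega
        rw [this, hw1, abs_of_pos (by positivity)]
        calc κ ^ 2 ^ (i / 4) ≤ κ ^ 1 :=
              pow_le_pow_of_le_one hκ.le (by linarith) Nat.one_le_two_pow
          _ ≤ 1 / 8 := by rw [pow_one]; exact hκ8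
      · have : i = 4 * (i / 4) + 3 := by omega
        rw [this, hw2]
        exact htmp _
  · intro c hc
    unfold bsys at hc
    rw [List.mem_cons, List.mem_append, List.mem_map, List.mem_flatMap] at hc
    rcases hc with rfl | ⟨j, _, rfl⟩ | ⟨⟨c', t⟩, hmem, hc⟩
    · simp [Con.HoldsC, hw1]
    · simp only [Con.HoldsC, hw1, ← pow_add]
      congr 1
      ring
    · rw [List.mem_zipIdx_iff_getElem?] at hmem
      simp only at hmem hc
      have hc' : c'.Holds v := hv c' (List.mem_of_getElem? hmem)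
      cases c' with
      | one i =>
        have ht : tmp t = 0 := by simp only [tmp, hmem]
        simp only [Con.Holds] at hc'
        simp only [bcon, List.mem_cons, List.not_mem_nil, or_false] at hc
        rcases hc with rfl | rfl
        · simp [Con.HoldsC, hw2, ht]
        · simp only [Con.HoldsC, hw2, ht, hw0, hc', add_zero, mul_one]
          rw [← hK, hw1]
      | add i j k =>
        simp only [Con.Holds] at hc'
        simp only [bcon, List.mem_cons, List.not_mem_nil, or_false] at hc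
        subst hc
        simp only [Con.HoldsC, hw0, ← hc', mul_add]
      | mul i j k =>
        have ht : tmp t = (ε * v i) * (ε * v j) := by simp only [tmp, hmem]
        simp only [Con.Holds] at hc'
        simp only [bcon, List.mem_cons, List.not_mem_nil, or_false] at hc
        rcases hc with rfl | rfl
        · simp only [Con.HoldsC, hw2, ht, hw0]
        · simp only [Con.HoldsC, hw2, ht, hw0, ← hc']
          rw [← hK, hw1, ← hε]
          ring

/-- A satisfiable system gives a bounded system with a small solution. -/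
theorem bsys_of_sat {S : List Con} (h : Sat S) :
    ∃ w : ℕ → ℝ, (∀ i, |w i| ≤ 1 / 8) ∧ ∀ c ∈ bsys S, c.HoldsC (1 / 8) w :=
  bsys_of_sat_const (by norm_num) le_rfl h

/-! ### Polynomial time -/

theorem bcon_eq (K : ℕ) (c : Con) (t : ℕ) : bcon K c t =
    if c.code.1 = 0 then [Con.add (4 * t + 3) (4 * t + 3) (4 * t + 3),
      Con.add (2 * c.code.2.1) (4 * t + 3) (ev K)]
    else if c.code.1 = 1 then [Con.add (2 * c.code.2.1) (2 * c.code.2.2.1) (2 * c.code.2.2.2)]
    else [Con.mul (2 * c.code.2.1) (2 * c.code.2.2.1) (4 * t + 3),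
      Con.mul (ev K) (2 * c.code.2.2.2) (4 * t + 3)] := by
  cases c <;> rfl

section

variable {α : Type} [TEnc α]

theorem poly_ev {j : α → ℕ} (hj : Poly j) : Poly (fun a => ev (j a)) :=
  Poly.add (Poly.mul (Poly.const 4) hj) (Poly.const 1)

theorem poly_bcon {K t : α → ℕ} {c : α → Con} (hK : Poly K) (hc : Poly c) (ht : Poly t) :
    Poly (fun a => bcon (K a) (c a) (t a)) := by
  have h0 : Poly (fun a => (c a).code) := poly_con_code hc
  have h1 : Poly (fun a => (c a).code.1) := Poly.fst h0
  have hi : Poly (fun a => 2 * (c a).code.2.1) :=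
    Poly.mul (Poly.const 2) (Poly.fst (Poly.snd h0))
  have hj : Poly (fun a => 2 * (c a).code.2.2.1) :=
    Poly.mul (Poly.const 2) (Poly.fst (Poly.snd (Poly.snd h0)))
  have hk : Poly (fun a => 2 * (c a).code.2.2.2) :=
    Poly.mul (Poly.const 2) (Poly.snd (Poly.snd (Poly.snd h0)))
  have h3 : Poly (fun a => 4 * t a + 3) :=
    Poly.add (Poly.mul (Poly.const 4) ht) (Poly.const 3)
  have he := poly_ev hK
  have key := Poly.ite (Poly.decide_eq h1 (Poly.const 0))
    (Poly.cons (poly_con_add h3 h3 h3) (Poly.cons (poly_con_add hi h3 he) (Poly.const [])))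
    (Poly.ite (Poly.decide_eq h1 (Poly.const 1))
      (Poly.cons (poly_con_add hi hj hk) (Poly.const []))
      (Poly.cons (poly_con_mul hi hj h3) (Poly.cons (poly_con_mul he hk h3) (Poly.const []))))
  exact key.congr fun a => (bcon_eq _ _ _).symm

theorem upoly_bK {S : α → List Con} (hS : Poly S) : UPoly (fun a => bK (S a)) :=
  UPoly.add (UPoly.mul (UPoly.const 16) (UPoly.length hS)) (UPoly.const 8)

/-- The bounded system is computable in polynomial time. -/
theorem poly_bsys {S : α → List Con} (hS : Poly S) : Poly (fun a => bsys (S a)) := by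
  have hK := upoly_bK hS
  refine Poly.cons (poly_con_one (poly_ev (Poly.const 0))) (Poly.append ?_ ?_)
  · refine Poly.map (F := fun _ j => Con.mul (ev j) (ev j) (ev (j + 1))) hK.range ?_
    exact poly_con_mul (poly_ev (Poly.snd Poly.id)) (poly_ev (Poly.snd Poly.id))
      (poly_ev (Poly.succ (Poly.snd Poly.id)))
  · refine Poly.flatMap (F := fun a p => bcon (bK (S a)) p.1 p.2) (Poly.zipIdx hS) ?_
    exact poly_bcon (hK.toPoly.comp (Poly.fst Poly.id)) (Poly.fst (Poly.snd Poly.id))
      (Poly.snd (Poly.snd Poly.id))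

end

end Pool.Agent.NPC.ER
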