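import Pool.Agent.H670R2.ERMem
import Pool.Agent.ER.ToSysPoly

/-!
# Building formulas in polynomial time: constants and sums
-/

namespace Pool.Agent.NPC.ER

open Pool.Agent.NPC.H670R2

variable {α : Type} [TEnc α]

/-! ### Constants -/

/-- The symbol of a binary digit. -/
def btok (b : Bool) : Tok := if b then Tok.one else Tok.zero

/-- The term of a binary digit. -/
def bTm (b : Bool) : Tm := if b then Tm.one else Tm.zero

/-- The term of a number given by its binary digits (Horner). -/
def bitsTm (l : List Bool) : Tm :=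
  l.foldr (fun b t => Tm.add (Tm.mul t (Tm.add Tm.one Tm.one)) (bTm b)) Tm.zero

/-- The term of a natural number. -/
def natTm (n : ℕ) : Tm := bitsTm n.bits

theorem eval_bitsTm (x : ℕ → ℝ) (l : List Bool) : (bitsTm l).eval x = valB l := by
  induction l with
  | nil => simp [bitsTm, Tm.eval]
  | cons b l ih =>
    have h : bitsTm (b :: l) = Tm.add (Tm.mul (bitsTm l) (Tm.add Tm.one Tm.one)) (bTm b) := rfl
    rw [h]
    simp only [Tm.eval, ih, valB_cons]
    cases b <;> simp [bTm, Tm.eval] <;> ring

@[simp] theorem eval_natTm (x : ℕ → ℝ) (n : ℕ) : (natTm n).eval x = n := by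
  rw [natTm, eval_bitsTm, valB_bits]

theorem toks_bitsTm (l : List Bool) : (bitsTm l).toks = Tok.zero ::
    l.reverse.flatMap (fun b => [Tok.one, Tok.one, Tok.add, Tok.mul, btok b, Tok.add]) := by
  induction l with
  | nil => rfl
  | cons b l ih =>
    have h : bitsTm (b :: l) = Tm.add (Tm.mul (bitsTm l) (Tm.add Tm.one Tm.one)) (bTm b) := rfl
    rw [h]
    simp only [Tm.toks, ih, List.reverse_cons, List.flatMap_append, List.flatMap_cons,
      List.flatMap_nil, List.append_nil]
    cases b <;> simp [bTm, btok, Tm.toks]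

theorem poly_bitsTm {l : α → List Bool} (hl : Poly l) : Poly (fun a => bitsTm (l a)) := by
  refine tm_of_toks (Poly.congr ?_ fun a => (toks_bitsTm (l a)).symm)
  refine Poly.cons (Poly.const _) (Poly.flatMap (F := fun _ b => [Tok.one, Tok.one, Tok.add,
    Tok.mul, btok b, Tok.add]) (Poly.reverse hl) ?_)
  have hb : Poly (fun p : α × Bool => btok p.2) :=
    Poly.ite (p := fun p : α × Bool => p.2 = true) (Poly.decide_bool (Poly.snd Poly.id))
      (Poly.const _) (Poly.const _)
  exact Poly.cons (Poly.const _) (Poly.cons (Poly.const _) (Poly.cons (Poly.const _)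
    (Poly.cons (Poly.const _) (Poly.cons hb (Poly.const _)))))

theorem poly_natTm {n : α → ℕ} (hn : Poly n) : Poly (fun a => natTm (n a)) :=
  poly_bitsTm hn.natBits

/-- The term of an integer. -/
def intTm (z : ℤ) : Tm := if z < 0 then Tm.neg (natTm z.natAbs) else natTm z.natAbs

@[simp] theorem eval_intTm (x : ℕ → ℝ) (z : ℤ) : (intTm z).eval x = z := by
  unfold intTm
  split_ifs with h
  · rw [Tm.eval, eval_natTm, Nat.cast_natAbs]
    push_cast
    rw [abs_of_neg (by exact_mod_cast h)]
    ring
  · rw [eval_natTm, Nat.cast_natAbs]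
    push_cast
    rw [abs_of_nonneg (by exact_mod_cast not_lt.1 h)]

theorem poly_isNeg {z : α → ℤ} (hz : Poly z) : Poly (fun a => decide (z a < 0)) := by
  have h : Poly (fun a => ((decide (z a < 0), (z a).natAbs) : Bool × ℕ)) := hz
  exact Poly.fst h

theorem poly_natAbs {z : α → ℤ} (hz : Poly z) : Poly (fun a => (z a).natAbs) := by
  have h : Poly (fun a => ((decide (z a < 0), (z a).natAbs) : Bool × ℕ)) := hz
  exact Poly.snd h

theorem poly_intTm {z : α → ℤ} (hz : Poly z) : Poly (fun a => intTm (z a)) :=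
  Poly.ite (poly_isNeg hz) (poly_tneg (poly_natTm (poly_natAbs hz))) (poly_natTm (poly_natAbs hz))

theorem poly_ratNum {q : α → ℚ} (hq : Poly q) : Poly (fun a => (q a).num) := by
  have h : Poly (fun a => (((q a).num, (q a).den) : ℤ × ℕ)) := hq
  exact Poly.fst h

theorem poly_ratDen {q : α → ℚ} (hq : Poly q) : Poly (fun a => (q a).den) := by
  have h : Poly (fun a => (((q a).num, (q a).den) : ℤ × ℕ)) := hq
  exact Poly.snd h

/-- The formula `t = q` for a rational number `q`. -/
def eqRat (t : Tm) (q : ℚ) : Fm := Fm.eq (Tm.mul (natTm q.den) t) (intTm q.num)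

theorem holds_eqRat (x : ℕ → ℝ) (t : Tm) (q : ℚ) : (eqRat t q).Holds x ↔ t.eval x = q := by
  unfold eqRat
  simp only [Fm.Holds, Tm.eval, eval_natTm, eval_intTm]
  have h : (q.den : ℝ) ≠ 0 := by exact_mod_cast q.den_nz
  have h2 : (q : ℝ) = q.num / q.den := by exact_mod_cast (Rat.num_div_den q).symm
  rw [h2]
  field_simp

theorem poly_eqRat {t : α → Tm} {q : α → ℚ} (ht : Poly t) (hq : Poly q) :
    Poly (fun a => eqRat (t a) (q a)) :=
  poly_eq (poly_tmul (poly_natTm (poly_ratDen hq)) ht) (poly_intTm (poly_ratNum hq))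

/-- Sums of terms. -/
def sumTm (l : List Tm) : Tm := l.foldr Tm.add Tm.zero

@[simp] theorem eval_sumTm (x : ℕ → ℝ) (l : List Tm) :
    (sumTm l).eval x = (l.map (Tm.eval x)).sum := by
  induction l with
  | nil => simp [sumTm, Tm.eval]
  | cons t l ih =>
    have h : sumTm (t :: l) = Tm.add t (sumTm l) := rfl
    rw [h, Tm.eval, ih]
    simp

theorem toks_sumTm (l : List Tm) : (sumTm l).toks = l.flatMap Tm.toks ++ [Tok.zero] ++
    List.replicate l.length Tok.add := by
  induction l with
  | nil => rfl
  | cons t l ih =>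
    have h : sumTm (t :: l) = Tm.add t (sumTm l) := rfl
    rw [h, Tm.toks, ih]
    simp [List.replicate_succ']

theorem poly_sumTm {l : α → List Tm} (hl : Poly l) : Poly (fun a => sumTm (l a)) := by
  refine tm_of_toks (Poly.congr (f := fun a => (l a).flatMap Tm.toks ++ [Tok.zero] ++
    List.replicate (l a).length Tok.add) ?_ fun a => (toks_sumTm _).symm)
  refine Poly.append (Poly.append (Poly.flatMap (F := fun _ φ => Tm.toks φ) hl
    (tm_toks (Poly.snd Poly.id))) (Poly.const _)) (poly_replicate hl _)

end Pool.Agent.NPC.ER
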