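import Pool.Agent.ER.ToSysPoly
import Pool.Agent.ER.Hard
import Pool.Agent.NPC.Dec

/-!
# Membership in `∃ℝ` of decision problems about encodable data

* `InER.of_poly` : a polynomial-time (typed) translation into existential sentences shows
  membership in `∃ℝ`;
* `InER.of_reduces` : `∃ℝ` is closed under polynomial-time many-one reductions;
* decodability of symbols, formulas and constraints.
-/

namespace Pool.Agent.NPC.ER

open TDec (dec dec_toT toT_dec poly_dec)

/-! ### Membership -/

/-- A false sentence. -/
def Fm.ff : Fm := Fm.lt Tm.zero Tm.zero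

theorem not_ETR_ff : ¬ ETR Fm.ff := by
  rintro ⟨x, h⟩
  exact lt_irrefl _ h

/-- A polynomial-time translation of the instances of a decision problem into existential
sentences shows membership in `∃ℝ` (strings that are not codes of instances are mapped to a false
sentence). -/
theorem InER.of_poly {α : Type} [TEnc α] [TDec α] {P : α → Prop} {φ : α → Fm} (h : Poly φ)
    (hP : ∀ a, P a ↔ ETR (φ a)) : InER (lang P) := by
  refine ⟨fun w => match unbits α w with | none => Fm.ff | some a => φ a, ?_, fun w => ?_⟩
  · refine polyTime_bits (g := fun w => match unbits α w with | none => Fm.ff | some a => φ a) ?_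
    exact Poly.optCases (g := fun _ => Fm.ff) (h := fun _ a => φ a) poly_unbits (Poly.const _)
      (h.comp (Poly.snd Poly.id))
  · rw [mem_lang_iff]
    cases hx : unbits α w with
    | none => simp only [hx]; simp [not_ETR_ff]
    | some a => simp only [hx]; simp [hP a]

/-- `∃ℝ` is closed under polynomial-time many-one reductions. -/
theorem InER.of_reduces {L L' : Set (List Bool)} (h : InER L') (h' : Reduces L L') : InER L := by
  obtain ⟨f, hf, h1⟩ := h
  obtain ⟨g, hg, h2⟩ := h'
  exact ⟨fun w => f (g w), H642R2.TMSim.polyTime_comp hf hg, fun w => (h2 w).trans (h1 _)⟩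

/-- Typed version: closure under polynomial-time maps between decodable data. -/
theorem InER.of_poly_reduction {α β : Type} [TEnc α] [TEnc β] [TDec α] {P : α → Prop}
    {Q : β → Prop} (hQ : InER (lang Q)) {f : α → β} (hf : Poly f) (h : ∀ a, P a ↔ Q (f a)) :
    InER (lang P) :=
  hQ.of_reduces (reduces_lang hf h)

/-! ### Decoding symbols -/

/-- the first of the symbols of the list with a given code -/
def findTok (p : ℕ × ℕ) : List Tok → Option Tok
  | [] => none
  | t :: l => if t.code = p then some t else findTok p l

/-- the inverse of `Tok.code` -/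
def Tok.ofCode (p : ℕ × ℕ) : Option Tok :=
  if p.1 = 0 then some (Tok.var p.2)
  else findTok p [Tok.zero, Tok.one, Tok.add, Tok.neg, Tok.mul, Tok.eq, Tok.lt, Tok.le, Tok.not,
    Tok.and, Tok.or]

theorem Tok.ofCode_code (t : Tok) : Tok.ofCode t.code = some t := by
  cases t <;> rfl

theorem code_of_findTok {p : ℕ × ℕ} {t : Tok} : ∀ {l : List Tok}, findTok p l = some t →
    t.code = p
  | [], h => by simp [findTok] at h
  | u :: l, h => by
    rw [findTok] at h
    by_cases hu : u.code = p
    · rw [if_pos hu] at h
      cases h
      exact hu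
    · rw [if_neg hu] at h
      exact code_of_findTok h

theorem Tok.code_of_ofCode {p : ℕ × ℕ} {t : Tok} (h : Tok.ofCode p = some t) : t.code = p := by
  unfold Tok.ofCode at h
  by_cases h0 : p.1 = 0
  · rw [if_pos h0] at h
    cases h
    exact Prod.ext h0.symm rfl
  · rw [if_neg h0] at h
    exact code_of_findTok h

theorem poly_tok_of_code' {α : Type} [TEnc α] {f : α → Tok} (hf : Poly (fun a => (f a).code)) :
    Poly f := Poly.of_toT (hf.toT'.congr fun _ => rfl)

theorem poly_tok_var' {α : Type} [TEnc α] {i : α → ℕ} (hi : Poly i) :
    Poly (fun a => Tok.var (i a)) := poly_tok_of_code' ((Poly.const 0).pair hi)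

theorem poly_findTok : ∀ l : List Tok, Poly (fun p => findTok p l)
  | [] => Poly.const _
  | u :: l => Poly.ite (Poly.decide_eq (Poly.const _) Poly.id) (Poly.const _) (poly_findTok l)

theorem Tok.poly_ofCode : Poly Tok.ofCode :=
  Poly.ite (Poly.decide_eq (Poly.fst Poly.id) (Poly.const _))
    (Poly.some (poly_tok_var' (Poly.snd Poly.id))) (poly_findTok _)

instance : TDec Tok := TDec.of Tok.code Tok.ofCode (fun _ => rfl) Tok.ofCode_code
  (fun _ _ h => Tok.code_of_ofCode h) Tok.poly_ofCode

/-! ### Decoding constraints -/

/-- the inverse of `Con.code` -/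
def Con.ofCode (p : ℕ × ℕ × ℕ × ℕ) : Option Con :=
  if p.1 = 0 then (if p.2.2.1 = 0 ∧ p.2.2.2 = 0 then some (Con.one p.2.1) else none)
  else if p.1 = 1 then some (Con.add p.2.1 p.2.2.1 p.2.2.2)
  else if p.1 = 2 then some (Con.mul p.2.1 p.2.2.1 p.2.2.2)
  else none

theorem Con.ofCode_code (c : Con) : Con.ofCode c.code = some c := by
  cases c <;> rfl

theorem Con.code_of_ofCode {p : ℕ × ℕ × ℕ × ℕ} {c : Con} (h : Con.ofCode p = some c) :
    c.code = p := by
  obtain ⟨a, b, d, e⟩ := p
  unfold Con.ofCode at h
  simp only at h
  split_ifs at h <;> (cases h; simp_all [Con.code])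

theorem Con.poly_ofCode : Poly Con.ofCode := by
  unfold Con.ofCode
  have e : ∀ n : ℕ, Poly (fun p : ℕ × ℕ × ℕ × ℕ => decide (p.1 = n)) := fun n =>
    Poly.decide_eq (Poly.fst Poly.id) (Poly.const _)
  have h1 : Poly (fun p : ℕ × ℕ × ℕ × ℕ => p.2.1) := Poly.fst (Poly.snd Poly.id)
  have h2 : Poly (fun p : ℕ × ℕ × ℕ × ℕ => p.2.2.1) := Poly.fst (Poly.snd (Poly.snd Poly.id))
  have h3 : Poly (fun p : ℕ × ℕ × ℕ × ℕ => p.2.2.2) := Poly.snd (Poly.snd (Poly.snd Poly.id))
  refine Poly.ite (e 0) (Poly.ite (Poly.decide_and (Poly.decide_eq h2 (Poly.const _))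
    (Poly.decide_eq h3 (Poly.const _))) (Poly.some (poly_con_one h1)) (Poly.const _)) ?_
  refine Poly.ite (e 1) (Poly.some (poly_con_add h1 h2 h3)) ?_
  exact Poly.ite (e 2) (Poly.some (poly_con_mul h1 h2 h3)) (Poly.const _)

instance : TDec Con := TDec.of Con.code Con.ofCode (fun _ => rfl) Con.ofCode_code
  (fun _ _ h => Con.code_of_ofCode h) Con.poly_ofCode

/-! ### Decoding formulas -/

/-- The kinds of the entries of the stack of the parser: `false` for a term, `true` for a
formula. -/
def kstep (st : Option (List Bool)) (t : Tok) : Option (List Bool) :=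
  st.bind fun l =>
    if t.code.1 ≤ 2 then some (false :: l) else
    match l with
    | [] => none
    | a :: l1 =>
      if t.code.1 = 4 then (if a = false then some (false :: l1) else none) else
      if t.code.1 = 9 then (if a = true then some (true :: l1) else none) else
      match l1 with
      | [] => none
      | b :: l2 =>
        if t.code.1 ≤ 5 then (if a = false ∧ b = false then some (false :: l2) else none) else
        if t.code.1 ≤ 8 then (if a = false ∧ b = false then some (true :: l2) else none) else
        (if a = true ∧ b = true then some (true :: l2) else none)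

/-- the kind of an entry -/
def kind : Tm ⊕ Fm → Bool := Sum.elim (fun _ => false) (fun _ => true)

/-- the tokens of an entry -/
def etoks : Tm ⊕ Fm → List Tok := Sum.elim Tm.toks Fm.toks

/-- the tokens of a stack -/
def stoks (st : List (Tm ⊕ Fm)) : List Tok := (st.reverse.map etoks).flatten

theorem stoks_cons (a : Tm ⊕ Fm) (st : List (Tm ⊕ Fm)) : stoks (a :: st) = stoks st ++ etoks a := by
  simp [stoks]

theorem kstep_map (st : List (Tm ⊕ Fm)) (t : Tok) (l : List Bool)
    (h : kstep (some (st.map kind)) t = some l) :
    (pstep st t).map kind = l ∧ stoks (pstep st t) = stoks st ++ [t] := by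
  cases t with
  | var i => simp [kstep, Tok.code] at h; subst h; simp [pstep, kind, stoks_cons, etoks, Tm.toks]
  | zero => simp [kstep, Tok.code] at h; subst h; simp [pstep, kind, stoks_cons, etoks, Tm.toks]
  | one => simp [kstep, Tok.code] at h; subst h; simp [pstep, kind, stoks_cons, etoks, Tm.toks]
  | neg =>
    match st with
    | [] => simp [kstep, Tok.code] at h
    | Sum.inr _ :: _ => simp [kstep, Tok.code, kind] at h
    | Sum.inl a :: st =>
      simp [kstep, Tok.code, kind] at h
      subst h; simp [pstep, kind, stoks_cons, etoks, Tm.toks]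
  | not =>
    match st with
    | [] => simp [kstep, Tok.code] at h
    | Sum.inl _ :: _ => simp [kstep, Tok.code, kind] at h
    | Sum.inr a :: st =>
      simp [kstep, Tok.code, kind] at h
      subst h; simp [pstep, kind, stoks_cons, etoks, Fm.toks]
  | add =>
    match st with
    | [] => simp [kstep, Tok.code] at h
    | [_] => simp [kstep, Tok.code] at h
    | Sum.inl a :: Sum.inr b :: st => simp [kstep, Tok.code, kind] at h
    | Sum.inr a :: _ :: st => simp [kstep, Tok.code, kind] at h
    | Sum.inl a :: Sum.inl b :: st =>
      simp [kstep, Tok.code, kind] at h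
      subst h; simp [pstep, kind, stoks_cons, etoks, Tm.toks]
  | mul =>
    match st with
    | [] => simp [kstep, Tok.code] at h
    | [_] => simp [kstep, Tok.code] at h
    | Sum.inl a :: Sum.inr b :: st => simp [kstep, Tok.code, kind] at h
    | Sum.inr a :: _ :: st => simp [kstep, Tok.code, kind] at h
    | Sum.inl a :: Sum.inl b :: st =>
      simp [kstep, Tok.code, kind] at h
      subst h; simp [pstep, kind, stoks_cons, etoks, Tm.toks]
  | eq =>
    match st with
    | [] => simp [kstep, Tok.code] at h
    | [_] => simp [kstep, Tok.code] at h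
    | Sum.inl a :: Sum.inr b :: st => simp [kstep, Tok.code, kind] at h
    | Sum.inr a :: _ :: st => simp [kstep, Tok.code, kind] at h
    | Sum.inl a :: Sum.inl b :: st =>
      simp [kstep, Tok.code, kind] at h
      subst h; simp [pstep, kind, stoks_cons, etoks, Fm.toks]
  | lt =>
    match st with
    | [] => simp [kstep, Tok.code] at h
    | [_] => simp [kstep, Tok.code] at h
    | Sum.inl a :: Sum.inr b :: st => simp [kstep, Tok.code, kind] at h
    | Sum.inr a :: _ :: st => simp [kstep, Tok.code, kind] at h
    | Sum.inl a :: Sum.inl b :: st =>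
      simp [kstep, Tok.code, kind] at h
      subst h; simp [pstep, kind, stoks_cons, etoks, Fm.toks]
  | le =>
    match st with
    | [] => simp [kstep, Tok.code] at h
    | [_] => simp [kstep, Tok.code] at h
    | Sum.inl a :: Sum.inr b :: st => simp [kstep, Tok.code, kind] at h
    | Sum.inr a :: _ :: st => simp [kstep, Tok.code, kind] at h
    | Sum.inl a :: Sum.inl b :: st =>
      simp [kstep, Tok.code, kind] at h
      subst h; simp [pstep, kind, stoks_cons, etoks, Fm.toks]
  | and =>
    match st with
    | [] => simp [kstep, Tok.code] at h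
    | [_] => simp [kstep, Tok.code] at h
    | Sum.inr a :: Sum.inl b :: st => simp [kstep, Tok.code, kind] at h
    | Sum.inl a :: _ :: st => simp [kstep, Tok.code, kind] at h
    | Sum.inr a :: Sum.inr b :: st =>
      simp [kstep, Tok.code, kind] at h
      subst h; simp [pstep, kind, stoks_cons, etoks, Fm.toks]
  | or =>
    match st with
    | [] => simp [kstep, Tok.code] at h
    | [_] => simp [kstep, Tok.code] at h
    | Sum.inr a :: Sum.inl b :: st => simp [kstep, Tok.code, kind] at h
    | Sum.inl a :: _ :: st => simp [kstep, Tok.code, kind] at h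
    | Sum.inr a :: Sum.inr b :: st =>
      simp [kstep, Tok.code, kind] at h
      subst h; simp [pstep, kind, stoks_cons, etoks, Fm.toks]

theorem kstep_none (l : List Tok) : l.foldl kstep none = none := by
  induction l with
  | nil => rfl
  | cons t l ih => simpa [kstep] using ih

theorem foldl_kstep (w : List Tok) : ∀ (st : List (Tm ⊕ Fm)) (l : List Bool),
    w.foldl kstep (some (st.map kind)) = some l →
    (w.foldl pstep st).map kind = l ∧ stoks (w.foldl pstep st) = stoks st ++ w := by
  induction w with
  | nil => intro st l h; simp at h; simp [h]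
  | cons t w ih =>
    intro st l h
    rw [List.foldl_cons] at h
    cases hk : kstep (some (st.map kind)) t with
    | none => rw [hk, kstep_none] at h; exact absurd h (by simp)
    | some l1 =>
      obtain ⟨h1, h2⟩ := kstep_map st t l1 hk
      rw [hk, ← h1] at h
      obtain ⟨h3, h4⟩ := ih _ _ h
      refine ⟨h3, ?_⟩
      rw [List.foldl_cons, h4, h2]
      simp

theorem Tm.foldl_kstep (t : Tm) : ∀ l, t.toks.foldl kstep (some l) = some (false :: l) := by
  induction t with
  | var i => intro st; rfl
  | zero => intro st; rfl
  | one => intro st; rfl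
  | add s t ihs iht => intro st; simp [Tm.toks, ihs, iht, kstep, Tok.code]
  | neg t ih => intro st; simp [Tm.toks, ih, kstep, Tok.code]
  | mul s t ihs iht => intro st; simp [Tm.toks, ihs, iht, kstep, Tok.code]

theorem Fm.foldl_kstep (φ : Fm) : ∀ l, φ.toks.foldl kstep (some l) = some (true :: l) := by
  induction φ with
  | eq s t => intro st; simp [Fm.toks, Tm.foldl_kstep, kstep, Tok.code]
  | lt s t => intro st; simp [Fm.toks, Tm.foldl_kstep, kstep, Tok.code]
  | le s t => intro st; simp [Fm.toks, Tm.foldl_kstep, kstep, Tok.code]
  | not φ ih => intro st; simp [Fm.toks, ih, kstep, Tok.code]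
  | and φ ψ ih1 ih2 => intro st; simp [Fm.toks, ih1, ih2, kstep, Tok.code]
  | or φ ψ ih1 ih2 => intro st; simp [Fm.toks, ih1, ih2, kstep, Tok.code]

/-- The formula with given tokens. -/
def ofToks (w : List Tok) : Option Fm :=
  if w.foldl kstep (some []) = some [true] then
    (match w.foldl Pool.Agent.NPC.ER.pstep [] with
    | [Sum.inr φ] => some φ
    | _ => none)
  else none

theorem ofToks_toks (φ : Fm) : ofToks φ.toks = some φ := by
  simp [ofToks, Fm.foldl_kstep, Fm.parse]

theorem toks_of_ofToks {w : List Tok} {φ : Fm} (h : ofToks w = some φ) : φ.toks = w := by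
  unfold ofToks at h
  by_cases hw : w.foldl kstep (some []) = some [true]
  · rw [if_pos hw] at h
    obtain ⟨h1, h2⟩ := Pool.Agent.NPC.ER.foldl_kstep w [] _ hw
    revert h h1 h2
    generalize w.foldl Pool.Agent.NPC.ER.pstep [] = st
    intro h h1 h2
    match st with
    | [] => simp at h1
    | [Sum.inl _] => simp at h
    | [Sum.inr ψ] =>
      simp at h; subst h
      simpa [stoks, etoks] using h2
    | _ :: _ :: _ => simp at h1
  · rw [if_neg hw] at h
    exact absurd h (by simp)

theorem ofToks_isSome (w : List Tok) :
    (ofToks w).map Fm.toks = if w.foldl kstep (some []) = some [true] then some w else none := by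
  by_cases hw : w.foldl kstep (some []) = some [true]
  · rw [if_pos hw]
    obtain ⟨h1, h2⟩ := Pool.Agent.NPC.ER.foldl_kstep w [] _ hw
    have h3 : ofToks w = (match w.foldl Pool.Agent.NPC.ER.pstep [] with
      | [Sum.inr φ] => some φ
      | _ => none) := by unfold ofToks; rw [if_pos hw]
    rw [h3]
    revert h1 h2
    generalize w.foldl Pool.Agent.NPC.ER.pstep [] = st
    intro h1 h2
    match st with
    | [] => simp at h1
    | [Sum.inl _] => simp [kind] at h1
    | [Sum.inr ψ] => simpa [stoks, etoks] using h2
    | _ :: _ :: _ => simp at h1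
  · rw [if_neg hw]
    unfold ofToks
    rw [if_neg hw]
    rfl

theorem poly_kstep : Poly (fun p : Option (List Bool) × Tok => kstep p.1 p.2) := by
  have hc : ∀ {γ : Type} [TEnc γ] {f : γ → Tok} (_ : Poly f), Poly (fun a => (f a).code.1) :=
    fun hf => Poly.fst (Poly.of_toT (hf.toT'.congr fun _ => rfl))
  have c0 : ∀ {γ : Type} [TEnc γ] {f : γ → ℕ} (n : ℕ) (_ : Poly f),
      Poly (fun a => decide (f a = n)) := fun n hf => Poly.decide_eq hf (Poly.const _)
  have c1 : ∀ {γ : Type} [TEnc γ] {f : γ → ℕ} (n : ℕ) (_ : Poly f),
      Poly (fun a => decide (f a ≤ n)) := fun n hf => Poly.decide_le hf (Poly.const _)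
  have cb : ∀ {γ : Type} [TEnc γ] {f : γ → Bool} (b : Bool) (_ : Poly f),
      Poly (fun a => decide (f a = b)) := fun n hf => Poly.decide_eq hf (Poly.const _)
  unfold kstep
  refine Poly.optBind (f := fun (p : Option (List Bool) × Tok) (l : List Bool) =>
    if p.2.code.1 ≤ 2 then some (false :: l) else
    match l with
    | [] => none
    | a :: l1 =>
      if p.2.code.1 = 4 then (if a = false then some (false :: l1) else none) else
      if p.2.code.1 = 9 then (if a = true then some (true :: l1) else none) else
      match l1 with
      | [] => none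
      | b :: l2 =>
        if p.2.code.1 ≤ 5 then (if a = false ∧ b = false then some (false :: l2) else none) else
        if p.2.code.1 ≤ 8 then (if a = false ∧ b = false then some (true :: l2) else none) else
        (if a = true ∧ b = true then some (true :: l2) else none)) (Poly.fst Poly.id) ?_
  have t1 : Poly (fun q : (Option (List Bool) × Tok) × List Bool => q.1.2.code.1) :=
    hc (Poly.snd (Poly.fst Poly.id))
  refine Poly.ite (c1 2 t1) (Poly.some (Poly.cons (Poly.const _) (Poly.snd Poly.id))) ?_
  refine Poly.congr (Poly.listCases (l := fun q : (Option (List Bool) × Tok) × List Bool => q.2)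
    (g := fun _ => (none : Option (List Bool)))
    (h := fun (p : (Option (List Bool) × Tok) × List Bool) (a : Bool) (l1 : List Bool) =>
      if p.1.2.code.1 = 4 then (if a = false then some (false :: l1) else none) else
      if p.1.2.code.1 = 9 then (if a = true then some (true :: l1) else none) else
      match l1 with
      | [] => none
      | b :: l2 =>
        if p.1.2.code.1 ≤ 5 then (if a = false ∧ b = false then some (false :: l2) else none) else
        if p.1.2.code.1 ≤ 8 then (if a = false ∧ b = false then some (true :: l2) else none) else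
        (if a = true ∧ b = true then some (true :: l2) else none)) (Poly.snd Poly.id)
    (Poly.const _) ?_) (fun q => by
      obtain ⟨p, l⟩ := q
      rcases l with _ | ⟨a, _ | ⟨b, l⟩⟩ <;> rfl)
  have t2 : Poly (fun q : ((Option (List Bool) × Tok) × List Bool) × Bool × List Bool =>
      q.1.1.2.code.1) := hc (Poly.snd (Poly.fst (Poly.fst Poly.id)))
  have a2 : Poly (fun q : ((Option (List Bool) × Tok) × List Bool) × Bool × List Bool =>
      q.2.1) := Poly.fst (Poly.snd Poly.id)
  have l2 : Poly (fun q : ((Option (List Bool) × Tok) × List Bool) × Bool × List Bool =>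
      q.2.2) := Poly.snd (Poly.snd Poly.id)
  refine Poly.ite (c0 4 t2) (Poly.ite (cb false a2) (Poly.some (Poly.cons (Poly.const _) l2))
    (Poly.const _)) ?_
  refine Poly.ite (c0 9 t2) (Poly.ite (cb true a2) (Poly.some (Poly.cons (Poly.const _) l2))
    (Poly.const _)) ?_
  refine Poly.congr (Poly.listCases
    (l := fun q : ((Option (List Bool) × Tok) × List Bool) × Bool × List Bool => q.2.2) (g := fun _ => (none : Option (List Bool)))
    (h := fun (q : ((Option (List Bool) × Tok) × List Bool) × Bool × List Bool) (b : Bool)
        (l2 : List Bool) =>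
        if q.1.1.2.code.1 ≤ 5 then (if q.2.1 = false ∧ b = false then some (false :: l2) else none)
        else
        if q.1.1.2.code.1 ≤ 8 then (if q.2.1 = false ∧ b = false then some (true :: l2) else none)
        else
        (if q.2.1 = true ∧ b = true then some (true :: l2) else none)) l2
    (Poly.const _) ?_) (fun q => by
      obtain ⟨p, a, l⟩ := q
      rcases l with _ | ⟨b, l⟩ <;> rfl)
  have t3 := hc (f := fun q : (((Option (List Bool) × Tok) × List Bool) × Bool × List Bool) ×
    Bool × List Bool => q.1.1.1.2) (Poly.snd (Poly.fst (Poly.fst (Poly.fst Poly.id))))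
  have a3 : Poly (fun q : (((Option (List Bool) × Tok) × List Bool) × Bool × List Bool) ×
    Bool × List Bool => q.1.2.1) := Poly.fst (Poly.snd (Poly.fst Poly.id))
  have b3 : Poly (fun q : (((Option (List Bool) × Tok) × List Bool) × Bool × List Bool) ×
    Bool × List Bool => q.2.1) := Poly.fst (Poly.snd Poly.id)
  have l3 : Poly (fun q : (((Option (List Bool) × Tok) × List Bool) × Bool × List Bool) ×
    Bool × List Bool => q.2.2) := Poly.snd (Poly.snd Poly.id)
  exact Poly.ite (c1 5 t3) (Poly.ite (Poly.decide_and (cb false a3) (cb false b3))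
      (Poly.some (Poly.cons (Poly.const _) l3)) (Poly.const _))
    (Poly.ite (c1 8 t3) (Poly.ite (Poly.decide_and (cb false a3) (cb false b3))
      (Poly.some (Poly.cons (Poly.const _) l3)) (Poly.const _))
    (Poly.ite (Poly.decide_and (cb true a3) (cb true b3))
      (Poly.some (Poly.cons (Poly.const _) l3)) (Poly.const _)))

/-- the number of entries of the stack -/
def klen (st : Option (List Bool)) : ℕ := (st.getD []).length

theorem klen_kstep (st : Option (List Bool)) (t : Tok) : klen (kstep st t) ≤ klen st + 1 := by
  cases st with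
  | none => simp [kstep, klen]
  | some l =>
    unfold kstep
    simp only [Option.bind_some]
    by_cases h : t.code.1 ≤ 2
    · rw [if_pos h]; simp [klen]
    · rw [if_neg h]
      match l with
      | [] => simp [klen]
      | [a] => dsimp only; split_ifs <;> simp [klen]
      | a :: b :: l => dsimp only; split_ifs <;> simp [klen] <;> omega

theorem klen_foldl (w : List Tok) : ∀ st, klen (w.foldl kstep st) ≤ klen st + w.length := by
  induction w with
  | nil => intro st; simp
  | cons t w ih =>
    intro st
    have h1 := ih (kstep st t)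
    have h2 := klen_kstep st t
    simp only [List.foldl_cons, List.length_cons]
    omega

theorem sz_klen (st : Option (List Bool)) : sz st ≤ 4 * klen st + 3 := by
  cases st with
  | none => simp [klen]
  | some l =>
    have := sz_listBool_le l
    simp only [sz_some, klen, Option.getD_some]
    omega

theorem poly_foldl_kstep : Poly (fun w : List Tok => w.foldl kstep (some [])) := by
  refine Poly.foldl (F := fun _ => kstep) Poly.id (Poly.const _)
    (poly_kstep.comp (Poly.snd Poly.id)) (4 * Polynomial.X + 3) ?_
  intro w k hk
  have h1 := klen_foldl (w.take k) (some [])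
  have h2 := sz_klen ((w.take k).foldl kstep (some []))
  have h3 : (w.take k).length ≤ sz w := by
    rw [List.length_take]
    exact (min_le_right _ _).trans (length_lt_sz w).le
  have h4 : klen (some []) = 0 := rfl
  simp only [Polynomial.eval_add, Polynomial.eval_mul, Polynomial.eval_X, Polynomial.eval_ofNat]
  omega

theorem poly_ofToks : Poly ofToks := by
  have h1 : Poly (fun w : List Tok =>
      if w.foldl kstep (some []) = some [true] then some w else none) :=
    Poly.ite (Poly.decide_eq poly_foldl_kstep (Poly.const _)) (Poly.some Poly.id) (Poly.const _)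
  refine Poly.of_toT (h1.toT'.congr fun w => ?_)
  rw [← ofToks_isSome]
  cases ofToks w <;> rfl

instance : TDec Fm := TDec.of Fm.toks ofToks (fun _ => rfl) ofToks_toks
  (fun _ _ h => toks_of_ofToks h) poly_ofToks

/-- The existential theory of the reals is `∃ℝ`-complete. -/
theorem erComplete_ETR : ERComplete (lang ETR) := by
  refine ⟨InER.of_poly (φ := fun φ => φ) Poly.id fun _ => Iff.rfl, ?_⟩
  rintro L ⟨f, hf, h⟩
  exact ⟨fun w => bits (f w), hf, fun w => by rw [h, bits_mem_lang]⟩

end Pool.Agent.NPC.ER
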