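import Pool.Agent.ER.LinkGraph
import Pool.Agent.ER.Hard

/-!
# Euclidean dimension of graphs
-/

namespace Pool.Agent.NPC.ER

open Pool.Agent.NPC Module
open scoped RealInnerProductSpace

/-- The graph `G` is a subgraph of the unit distance graph `E_d` of `ℝ^d`: there is an injective
map from the vertices of `G` to `ℝ^d` such that adjacent vertices are mapped to points at distance
one. -/
def IsSubgraphE {V : Type} (G : SimpleGraph V) (d : ℕ) : Prop :=
  ∃ p : V → EuclideanSpace ℝ (Fin d), Function.Injective p ∧ ∀ u v, G.Adj u v → dist (p u) (p v) = 1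

/-- The Euclidean dimension of `G`: the least `d ≥ 1` such that `G` is a subgraph of `E_d` (for a
finite graph there is such a `d`, see `exists_isSubgraphE`). -/
noncomputable def eucDim {V : Type} (G : SimpleGraph V) : ℕ := sInf {d | 1 ≤ d ∧ IsSubgraphE G d}

/-- The decision problem `EDIM_d`: the set of the codes of the finite graphs of Euclidean
dimension at most `d`. -/
def EDIM (d : ℕ) : Set (List Bool) := lang fun g : GCode => g.WF ∧ eucDim g.graph ≤ d

/-- Every finite graph is a subgraph of some `E_d`. -/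
theorem exists_isSubgraphE {V : Type} [Finite V] (G : SimpleGraph V) :
    ∃ d, 1 ≤ d ∧ IsSubgraphE G d := by
  obtain ⟨n, ⟨e⟩⟩ := Finite.exists_equiv_fin V
  let b := EuclideanSpace.basisFun (Fin (n + 1)) ℝ
  have hb : Orthonormal ℝ b := b.orthonormal
  have hb' := orthonormal_iff_ite.1 hb
  have hne : ∀ u v, u ≠ v → dist ((√2)⁻¹ • b (e u).castSucc) ((√2)⁻¹ • b (e v).castSucc) = 1 := by
    intro u v huv
    have h1 : (e u).castSucc ≠ (e v).castSucc := by
      simpa using huv
    have h2 : ‖b (e u).castSucc - b (e v).castSucc‖ ^ 2 = 2 := by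
      rw [norm_sub_sq_real, hb.1, hb.1, hb', if_neg h1]
      norm_num
    rw [dist_eq_norm, ← smul_sub]
    have h3 : ‖(√2 : ℝ)⁻¹ • (b (e u).castSucc - b (e v).castSucc)‖ ^ 2 = 1 := by
      rw [norm_smul, mul_pow, h2, Real.norm_eq_abs, sq_abs, inv_pow, Real.sq_sqrt (by norm_num)]
      norm_num
    exact Link.norm_eq_one_of_sq h3
  refine ⟨n + 1, by omega, fun v => (√2)⁻¹ • b (e v).castSucc, ?_, fun u v huv => hne u v huv.ne⟩
  intro u v huv
  by_contra h
  have := hne u v h
  simp only at huv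
  rw [huv, dist_self] at this
  norm_num at this

/-- An isometric embedding. -/
theorem exists_isometry {k d : ℕ} (h : k ≤ d) :
    ∃ f : EuclideanSpace ℝ (Fin k) → EuclideanSpace ℝ (Fin d), Isometry f := by
  let b := EuclideanSpace.basisFun (Fin k) ℝ
  let c := EuclideanSpace.basisFun (Fin d) ℝ
  let f : EuclideanSpace ℝ (Fin k) →ₗ[ℝ] EuclideanSpace ℝ (Fin d) :=
    b.toBasis.constr ℝ (fun i => c (Fin.castLE h i))
  have hf : f ∘ b.toBasis = fun i => c (Fin.castLE h i) := by
    funext i
    simp only [f, Function.comp_apply, Basis.constr_basis]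
  have h1 : Orthonormal ℝ (f ∘ b.toBasis) := by
    rw [hf]
    exact c.orthonormal.comp _ (Fin.castLE_injective h)
  have h2 : Orthonormal ℝ b.toBasis := by
    rw [OrthonormalBasis.coe_toBasis]
    exact b.orthonormal
  exact ⟨f.isometryOfOrthonormal h2 h1, (f.isometryOfOrthonormal h2 h1).isometry⟩

theorem IsSubgraphE.mono {V : Type} {G : SimpleGraph V} {k d : ℕ} (h : IsSubgraphE G k)
    (hk : k ≤ d) : IsSubgraphE G d := by
  obtain ⟨p, hp1, hp2⟩ := h
  obtain ⟨f, hf⟩ := exists_isometry hk
  exact ⟨fun v => f (p v), hf.injective.comp hp1, fun u v huv => by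
    rw [hf.dist_eq]
    exact hp2 u v huv⟩

theorem eucDim_le_iff {V : Type} [Finite V] (G : SimpleGraph V) {d : ℕ} (hd : 1 ≤ d) :
    eucDim G ≤ d ↔ IsSubgraphE G d := by
  constructor
  · intro h
    have h1 := Nat.sInf_mem (s := {d | 1 ≤ d ∧ IsSubgraphE G d}) (exists_isSubgraphE G)
    exact h1.2.mono h
  · intro h
    exact Nat.sInf_le ⟨hd, h⟩

theorem eucDim_mem (d : ℕ) (hd : 1 ≤ d) : InER (EDIM d) := by
  have hF : Poly (fun g : GCode => if g.WF then (edgesF d g).and (injF d g) else H670R2.ff) :=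
    (Poly.ite (poly_wf Poly.id) (H670R2.poly_and (poly_edgesF Poly.id d) (poly_injF Poly.id d))
      (Poly.const H670R2.ff)).congr fun g => by
      by_cases h : g.WF <;> simp [h]
  refine H670R2.InER.of_poly hF fun g => ?_
  by_cases hg : g.WF
  · rw [if_pos hg]
    have hfin : Finite g.V := List.finite_toSet g.1
    constructor
    · rintro ⟨-, h⟩
      obtain ⟨p, hp1, hp2⟩ := (eucDim_le_iff _ hd).1 h
      obtain ⟨x, hx⟩ := exists_ofX p
      refine ⟨x, (edgesF_holds hg x).2 fun u v huv => ?_, (injF_holds x).2 fun u v huv => ?_⟩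
      · rw [hx, hx]
        exact hp2 u v huv
      · simp only [hx] at huv
        exact hp1 huv
    · rintro ⟨x, hx1, hx2⟩
      refine ⟨hg, (eucDim_le_iff _ hd).2 ⟨fun v => ofX d x v.1, (injF_holds x).1 hx2,
        (edgesF_holds hg x).1 hx1⟩⟩
  · rw [if_neg hg]
    exact ⟨fun h => absurd h.1 hg, fun h => absurd h H670R2.not_etr_ff⟩

theorem eucDim_hard (d : ℕ) (hd : 3 ≤ d) : ERHard (EDIM d) := by
  refine ERHard.of_sys (f := fun S => Link.codeOf (Link.esys d S))
    (Link.poly_codeOf (Link.poly_esys Poly.id d)) fun S => ?_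
  have hfin : ∀ g : GCode, Finite g.V := fun g => List.finite_toSet g.1
  constructor
  · intro h
    obtain ⟨hw, p, hp1, hp2⟩ := Link.realizable_of_sat hd h
    have := hfin (Link.codeOf (Link.esys d S))
    exact ⟨hw, (eucDim_le_iff _ (by omega)).2 ⟨p, hp1, hp2⟩⟩
  · rintro ⟨hw, h⟩
    have := hfin (Link.codeOf (Link.esys d S))
    obtain ⟨p, -, hp⟩ := (eucDim_le_iff _ (by omega)).1 h
    exact Link.sat_of_realizable hd hw hp

end Pool.Agent.NPC.ER
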