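import Pool.Agent.ER.Bounded

/-!
# A gap theorem for systems of constraints

If a system of constraints `8 xᵢ = 1`, `xᵢ + xⱼ = xₖ`, `xᵢ * xⱼ = xₖ` is satisfied up to a doubly
exponentially small error by a point of the cube `[-1, 1]ⁿ`, then it is satisfiable.
-/

namespace Pool.Agent.NPC.ER

open Pool.Agent.H625R2

/-- The error of a constraint, `one i` being read as `8 xᵢ = 1`. -/
def Con.err (v : ℕ → ℝ) : Con → ℝ
  | one i => 8 * v i - 1
  | add i j k => v i + v j - v k
  | mul i j k => v i * v j - v k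

theorem Con.err_eq_zero {v : ℕ → ℝ} {c : Con} : c.err v = 0 ↔ c.HoldsC (1 / 8) v := by
  cases c with
  | one i =>
    simp only [Con.err, Con.HoldsC]
    constructor
    · intro h; linarith
    · intro h; linarith
  | add i j k => simp only [Con.err, Con.HoldsC, sub_eq_zero]
  | mul i j k => simp only [Con.err, Con.HoldsC, sub_eq_zero]

section

variable {n : ℕ}

/-- The polynomial of a constraint. -/
noncomputable def epoly (f : ℕ → Fin n) : Con → MvPolynomial (Fin n) ℤ
  | Con.one i => MvPolynomial.C 8 * MvPolynomial.X (f i) - MvPolynomial.C 1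
  | Con.add i j k => MvPolynomial.X (f i) + MvPolynomial.X (f j) - MvPolynomial.X (f k)
  | Con.mul i j k => MvPolynomial.X (f i) * MvPolynomial.X (f j) - MvPolynomial.X (f k)

theorem epoly_eval (f : ℕ → Fin n) (c : Con) (y : Fin n → ℝ) :
    MvPolynomial.aeval y (epoly f c) = c.err (fun i => y (f i)) := by
  cases c with
  | one i =>
    simp only [epoly, Con.err, map_sub, map_mul, MvPolynomial.aeval_X]
    simp
  | add i j k => simp [epoly, Con.err]
  | mul i j k => simp [epoly, Con.err]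

theorem epoly_mnrm (f : ℕ → Fin n) (c : Con) : mnrm (epoly f c) ≤ 9 := by
  cases c with
  | one i =>
    refine (mnrm_sub_le _ _).trans ?_
    have := mnrm_mul_le (MvPolynomial.C 8 : MvPolynomial (Fin n) ℤ) (MvPolynomial.X (f i))
    rw [mnrm_X, mnrm_C] at this
    rw [mnrm_C]; norm_num at this ⊢; omega
  | add i j k =>
    refine (mnrm_sub_le _ _).trans ?_
    have := mnrm_add_le (MvPolynomial.X (f i) : MvPolynomial (Fin n) ℤ) (MvPolynomial.X (f j))
    rw [mnrm_X, mnrm_X] at this
    rw [mnrm_X]; omega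
  | mul i j k =>
    refine (mnrm_sub_le _ _).trans ?_
    have := mnrm_mul_le (MvPolynomial.X (f i) : MvPolynomial (Fin n) ℤ) (MvPolynomial.X (f j))
    rw [mnrm_X, mnrm_X] at this
    rw [mnrm_X]; omega

theorem epoly_deg (f : ℕ → Fin n) (c : Con) : (epoly f c).totalDegree ≤ 2 := by
  cases c with
  | one i =>
    refine (MvPolynomial.totalDegree_sub _ _).trans (max_le ?_ ?_)
    · refine (MvPolynomial.totalDegree_mul _ _).trans ?_
      rw [MvPolynomial.totalDegree_X, MvPolynomial.totalDegree_C]; norm_num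
    · rw [MvPolynomial.totalDegree_C]; norm_num
  | add i j k =>
    refine (MvPolynomial.totalDegree_sub _ _).trans (max_le ?_ ?_)
    · refine (MvPolynomial.totalDegree_add _ _).trans ?_
      rw [MvPolynomial.totalDegree_X, MvPolynomial.totalDegree_X]; norm_num
    · rw [MvPolynomial.totalDegree_X]; norm_num
  | mul i j k =>
    refine (MvPolynomial.totalDegree_sub _ _).trans (max_le ?_ ?_)
    · refine (MvPolynomial.totalDegree_mul _ _).trans ?_
      rw [MvPolynomial.totalDegree_X, MvPolynomial.totalDegree_X]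
    · rw [MvPolynomial.totalDegree_X]; norm_num

/-- The sum of the squares of the polynomials of a system. -/
noncomputable def sepoly (f : ℕ → Fin n) : List Con → MvPolynomial (Fin n) ℤ
  | [] => 0
  | c :: S => epoly f c * epoly f c + sepoly f S

theorem sepoly_nonneg (f : ℕ → Fin n) (S : List Con) (y : Fin n → ℝ) :
    0 ≤ MvPolynomial.aeval y (sepoly f S) := by
  induction S with
  | nil => simp [sepoly]
  | cons c S ih =>
    simp only [sepoly, map_add, map_mul]
    have := mul_self_nonneg (MvPolynomial.aeval y (epoly f c))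
    linarith

theorem sepoly_eval (f : ℕ → Fin n) (S : List Con) (y : Fin n → ℝ) :
    MvPolynomial.aeval y (sepoly f S) = 0 ↔ ∀ c ∈ S, c.HoldsC (1 / 8) (fun i => y (f i)) := by
  induction S with
  | nil => simp [sepoly]
  | cons c S ih =>
    rw [List.forall_mem_cons, ← ih, ← Con.err_eq_zero, ← epoly_eval]
    simp only [sepoly, map_add, map_mul]
    have h1 := mul_self_nonneg (MvPolynomial.aeval y (epoly f c))
    have h2 := sepoly_nonneg f S y
    constructor
    · intro h
      exact ⟨mul_self_eq_zero.1 (by linarith), by linarith⟩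
    · rintro ⟨h3, h4⟩
      rw [h3, h4]; ring

theorem sepoly_le (f : ℕ → Fin n) (S : List Con) (y : Fin n → ℝ) {ε : ℝ} (hε : 0 ≤ ε)
    (h : ∀ c ∈ S, |c.err (fun i => y (f i))| ≤ ε) :
    MvPolynomial.aeval y (sepoly f S) ≤ S.length * (ε * ε) := by
  induction S with
  | nil => simp [sepoly]
  | cons c S ih =>
    simp only [sepoly, map_add, map_mul]
    have h1 := ih fun c hc => h c (List.mem_cons_of_mem _ hc)
    have h2 := h c List.mem_cons_self
    rw [epoly_eval]
    have h3 : c.err (fun i => y (f i)) * c.err (fun i => y (f i)) ≤ ε * ε := by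
      rw [← abs_mul_abs_self]
      exact mul_le_mul h2 h2 (abs_nonneg _) hε
    rw [List.length_cons]
    push_cast
    linarith

theorem sepoly_mnrm (f : ℕ → Fin n) (S : List Con) : mnrm (sepoly f S) ≤ 81 * S.length := by
  induction S with
  | nil => simp [sepoly, mnrm_zero]
  | cons c S ih =>
    refine (mnrm_add_le _ _).trans ?_
    have h1 := mnrm_mul_le (epoly f c) (epoly f c)
    have h2 := Nat.mul_le_mul (epoly_mnrm f c) (epoly_mnrm f c)
    simp only [List.length_cons]
    omega

theorem sepoly_deg (f : ℕ → Fin n) (S : List Con) : (sepoly f S).totalDegree ≤ 5 := by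
  induction S with
  | nil => simp [sepoly]
  | cons c S ih =>
    refine (MvPolynomial.totalDegree_add _ _).trans (max_le ?_ ih)
    refine (MvPolynomial.totalDegree_mul _ _).trans ?_
    have := epoly_deg f c
    omega

end

/-- The exponent of the gap. -/
def gapK (m : ℕ) : ℕ := 11 * m + 7

theorem hb_le (n m γ : ℕ) (hn : n ≤ 3 * m) (hγ : γ ≤ 81 * m) :
    Hb n 5 (n + 1) γ ≤ 2 ^ 2 ^ gapK m := by
  have h2 : ∀ k : ℕ, k + 1 ≤ 2 ^ k := fun k => Nat.lt_two_pow_self
  have hN : 5 ^ n ≤ 2 ^ (9 * m) := by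
    calc 5 ^ n ≤ 8 ^ n := Nat.pow_le_pow_left (by norm_num) n
      _ = 2 ^ (3 * n) := by rw [pow_mul]; norm_num
      _ ≤ 2 ^ (9 * m) := Nat.pow_le_pow_right (by norm_num) (by omega)
  unfold Hb
  set N := 5 ^ n with hNdef
  have hfact : N.factorial ≤ 2 ^ (9 * m * N) := by
    calc N.factorial ≤ N ^ N := Nat.factorial_le_pow N
      _ ≤ (2 ^ (9 * m)) ^ N := Nat.pow_le_pow_left hN N
      _ = _ := (pow_mul 2 (9 * m) N).symm
  have hm := h2 m
  have hbase : 5 * γ + 1 ≤ 2 ^ (9 + m) := by
    rw [pow_add]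
    omega
  have hcoef : (5 + 1) * γ + n * (5 * γ) ≤ 2 ^ (11 + 2 * m) := by
    have h3 : (m + 1) * (m + 1) ≤ 2 ^ m * 2 ^ m := Nat.mul_le_mul hm hm
    have h4 : 2 ^ (11 + 2 * m) = 2048 * (2 ^ m * 2 ^ m) := by
      rw [pow_add, two_mul, pow_add]; norm_num
    rw [h4]
    have h5 : n * (5 * γ) ≤ 3 * m * (5 * (81 * m)) :=
      Nat.mul_le_mul hn (Nat.mul_le_mul_left _ hγ)
    have h6 : (5 + 1) * γ ≤ 6 * (81 * m) := Nat.mul_le_mul_left _ hγ
    calc (5 + 1) * γ + n * (5 * γ) ≤ 6 * (81 * m) + 3 * m * (5 * (81 * m)) :=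
          Nat.add_le_add h6 h5
      _ ≤ 2048 * ((m + 1) * (m + 1)) := by nlinarith
      _ ≤ _ := Nat.mul_le_mul_left _ h3
  have hpow : n + 1 + ((5 + 1) * γ + n * (5 * γ)) * (5 * γ + 1) ^ (5 + n * (5 - 1)) ≤
      2 ^ (1 + ((11 + 2 * m) + (9 + m) * (5 + 12 * m))) := by
    have h3 : ((5 + 1) * γ + n * (5 * γ)) * (5 * γ + 1) ^ (5 + n * (5 - 1)) ≤
        2 ^ ((11 + 2 * m) + (9 + m) * (5 + 12 * m)) := by
      rw [pow_add 2 (11 + 2 * m)]
      apply Nat.mul_le_mul hcoef
      calc (5 * γ + 1) ^ (5 + n * (5 - 1)) ≤ (2 ^ (9 + m)) ^ (5 + n * (5 - 1)) :=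
            Nat.pow_le_pow_left hbase _
        _ ≤ (2 ^ (9 + m)) ^ (5 + 12 * m) := Nat.pow_le_pow_right (by positivity) (by omega)
        _ = _ := (pow_mul _ _ _).symm
    have h4 : n + 1 ≤ 2 ^ ((11 + 2 * m) + (9 + m) * (5 + 12 * m)) := by
      refine le_trans ?_ (h2 _)
      nlinarith
    calc _ ≤ 2 ^ ((11 + 2 * m) + (9 + m) * (5 + 12 * m)) +
          2 ^ ((11 + 2 * m) + (9 + m) * (5 + 12 * m)) := Nat.add_le_add h4 h3
      _ = _ := by rw [pow_add 2 1]; ring
  calc _ ≤ 2 ^ (9 * m * N) * (2 ^ (1 + ((11 + 2 * m) + (9 + m) * (5 + 12 * m)))) ^ N :=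
        Nat.mul_le_mul hfact (Nat.pow_le_pow_left hpow _)
    _ = 2 ^ ((9 * m + (1 + ((11 + 2 * m) + (9 + m) * (5 + 12 * m)))) * N) := by
        rw [← pow_mul, ← pow_add]; congr 1; ring
    _ ≤ 2 ^ 2 ^ gapK m := by
        apply Nat.pow_le_pow_right (by norm_num)
        have h5 : 9 * m + (1 + ((11 + 2 * m) + (9 + m) * (5 + 12 * m))) ≤ 2 ^ (7 + 2 * m) := by
          have h3 : (m + 1) * (m + 1) ≤ 2 ^ m * 2 ^ m := Nat.mul_le_mul hm hm
          have h4 : 2 ^ (7 + 2 * m) = 128 * (2 ^ m * 2 ^ m) := by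
            rw [pow_add, two_mul, pow_add]; norm_num
          rw [h4]
          refine le_trans ?_ (Nat.mul_le_mul_left _ h3)
          nlinarith
        calc _ ≤ 2 ^ (7 + 2 * m) * 2 ^ (9 * m) := Nat.mul_le_mul h5 hN
          _ = 2 ^ gapK m := by rw [← pow_add]; congr 1; unfold gapK; ring

/-- **Gap theorem for systems.** A system that is satisfied up to a doubly exponentially small
error by a point of the unit cube is satisfiable. -/
theorem holds_of_approx {S : List Con} {w : ℕ → ℝ} (hw : ∀ i ∈ svars S, |w i| ≤ 1)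
    (h : ∀ c ∈ S, |c.err w| * 2 ^ 2 ^ gapK S.length ≤ 1) :
    ∃ w', ∀ c ∈ S, c.HoldsC (1 / 8) w' := by
  by_contra hno
  push Not at hno
  rcases Nat.eq_zero_or_pos (svars S).length with h0 | h0
  · have hS : S = [] := by
      cases S with
      | nil => rfl
      | cons c S =>
        exfalso
        have h1 : c.vars ≠ [] := by cases c <;> simp [Con.vars]
        obtain ⟨i, hi⟩ := List.exists_mem_of_ne_nil _ h1
        have h2 := mem_svars (S := c :: S) (by simp) hi
        rw [List.length_eq_zero_iff] at h0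
        rw [h0] at h2
        simp at h2
    obtain ⟨c, hc, -⟩ := hno w
    rw [hS] at hc
    simp at hc
  set n := (svars S).length with hn
  let f : ℕ → Fin n := fun i => if h : (svars S).idxOf i < n then ⟨(svars S).idxOf i, h⟩
    else ⟨0, h0⟩
  have hf : ∀ i ∈ svars S, (svars S)[(f i : ℕ)]'(f i).2 = i := by
    intro i hi
    have h1 : (svars S).idxOf i < n := List.idxOf_lt_length_of_mem hi
    have h2 : ((f i : Fin n) : ℕ) = (svars S).idxOf i := by simp only [f, dif_pos h1]
    simp only [h2]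
    exact List.getElem_idxOf h1
  set x₀ : Fin n → ℝ := fun j => w ((svars S)[(j : ℕ)]'j.2) with hx₀
  have hpos : ∀ x : Fin n → ℝ, 0 < MvPolynomial.aeval x (sepoly f S) := by
    intro x
    refine lt_of_le_of_ne (sepoly_nonneg f S x) fun h0 => ?_
    obtain ⟨c, hc, hc'⟩ := hno fun i => x (f i)
    exact hc' ((sepoly_eval f S x).1 h0.symm c hc)
  have hgap := gap (e := 5) (by decide) (sepoly f S) (sepoly_deg f S) (sepoly_nonneg f S)
    (n + 1) (by omega) (fun x _ => hpos x) x₀
  have hHb := hb_le n S.length _ (length_svars S) (sepoly_mnrm f S)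
  have hx : ∑ i, x₀ i ^ (5 + 1) ≤ n := by
    have : ∀ i ∈ (Finset.univ : Finset (Fin n)), x₀ i ^ (5 + 1) ≤ 1 := by
      intro i _
      have h1 : |x₀ i| ≤ 1 := hw _ (List.getElem_mem _)
      have h2 : x₀ i ^ 6 = |x₀ i| ^ 6 := by
        rw [← abs_pow, abs_of_nonneg (by positivity)]
      rw [h2]
      exact pow_le_one₀ (abs_nonneg _) h1
    simpa using Finset.sum_le_card_nsmul _ _ _ this
  set B : ℝ := 2 ^ 2 ^ gapK S.length with hB
  have hB1 : 0 < B := by positivity
  have herr : ∀ c ∈ S, |c.err (fun i => x₀ (f i))| ≤ 1 / B := by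
    intro c hc
    have h1 : c.err (fun i => x₀ (f i)) = c.err w := by
      have hx : ∀ i ∈ c.vars, x₀ (f i) = w i := by
        intro i hi
        rw [hx₀]
        simp only
        rw [hf i (mem_svars hc hi)]
      cases c with
      | one i => simp only [Con.err]; rw [hx i (by simp [Con.vars])]
      | add i j k =>
        simp only [Con.err]
        rw [hx i (by simp [Con.vars]), hx j (by simp [Con.vars]), hx k (by simp [Con.vars])]
      | mul i j k =>
        simp only [Con.err]
        rw [hx i (by simp [Con.vars]), hx j (by simp [Con.vars]), hx k (by simp [Con.vars])]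
    rw [h1, le_div_iff₀ hB1]
    exact h c hc
  have hsum := sepoly_le f S x₀ (by positivity) herr
  have hHb' : (Hb n 5 (n + 1) (mnrm (sepoly f S)) : ℝ) ≤ B := by
    have : ((2 ^ 2 ^ gapK S.length : ℕ) : ℝ) = B := by rw [hB]; push_cast; rfl
    rw [← this]
    exact_mod_cast hHb
  have hHb0 : (0 : ℝ) ≤ (Hb n 5 (n + 1) (mnrm (sepoly f S)) : ℝ) := Nat.cast_nonneg _
  have hg0 := sepoly_nonneg f S x₀
  have h6 : (6 * S.length : ℝ) < B := by
    have h7 : 6 * S.length < 2 ^ 2 ^ gapK S.length := by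
      calc 6 * S.length < 2 ^ (6 * S.length) := Nat.lt_two_pow_self
        _ ≤ 2 ^ 2 ^ gapK S.length := by
          apply Nat.pow_le_pow_right (by norm_num)
          have : gapK S.length < 2 ^ gapK S.length := Nat.lt_two_pow_self
          unfold gapK at this ⊢
          omega
    rw [hB]
    exact_mod_cast h7
  have h8 : (1 : ℝ) ≤ 6 * Hb n 5 (n + 1) (mnrm (sepoly f S)) * MvPolynomial.aeval x₀ (sepoly f S) := by
    have h9 : ((n + 1 : ℕ) : ℝ) = n + 1 := by push_cast; ring
    rw [h9] at hgap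
    have h10 : ((5 : ℕ) + 1 : ℝ) = 6 := by norm_num
    rw [h10] at hgap
    linarith
  have h11 : 6 * (Hb n 5 (n + 1) (mnrm (sepoly f S)) : ℝ) * MvPolynomial.aeval x₀ (sepoly f S) ≤
      6 * B * (S.length * (1 / B * (1 / B))) := by
    apply mul_le_mul _ hsum hg0 (by positivity)
    linarith
  have h12 : 6 * B * (S.length * (1 / B * (1 / B))) = 6 * S.length / B := by
    field_simp
  rw [h12] at h11
  have h13 : 6 * S.length / B < 1 := by
    rw [div_lt_one hB1]
    exact h6
  linarith

end Pool.Agent.NPC.ER
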