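import Mathlib

/-!
# Geometry of regular simplices and unit distances
-/

namespace Pool.Agent.NPC.ER.Geo

open Module Finset
open scoped RealInnerProductSpace

variable {E : Type*} [NormedAddCommGroup E] [InnerProductSpace ℝ E]

/-! ### The three chords lemma -/

/-- If `‖a‖ = ‖a + δ‖ = ‖a + ℓ • δ‖` with `ℓ ≠ 0, 1` then `δ = 0`. -/
theorem three_chords {a δ : E} {l : ℝ} (hl0 : l ≠ 0) (hl1 : l ≠ 1) (h1 : ‖a + δ‖ = ‖a‖)
    (h2 : ‖a + l • δ‖ = ‖a‖) : δ = 0 := by
  have e1 : ‖a + δ‖ ^ 2 = ‖a‖ ^ 2 := by rw [h1]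
  have e2 : ‖a + l • δ‖ ^ 2 = ‖a‖ ^ 2 := by rw [h2]
  rw [norm_add_sq_real] at e1 e2
  rw [inner_smul_right, norm_smul, mul_pow, Real.norm_eq_abs, sq_abs] at e2
  have e3 : l * ((l - 1) * ‖δ‖ ^ 2) = 0 := by linear_combination e2 - l * e1
  have e4 : ‖δ‖ ^ 2 = 0 := by
    rcases mul_eq_zero.1 e3 with h | h
    · exact absurd h hl0
    · rcases mul_eq_zero.1 h with h | h
      · exact absurd (by linarith : l = 1) hl1
      · exact h
  exact norm_eq_zero.1 (pow_eq_zero_iff (by norm_num) |>.1 e4)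

/-! ### The axis of a regular simplex -/

theorem exists_unit_orthogonal_of_finrank_lt {K : Submodule ℝ E} [FiniteDimensional ℝ E]
    (h : finrank ℝ K < finrank ℝ E) : ∃ n : E, ‖n‖ = 1 ∧ ∀ x ∈ K, ⟪x, n⟫ = 0 := by
  have h1 : 0 < finrank ℝ Kᗮ := by
    have := K.finrank_add_finrank_orthogonal
    omega
  obtain ⟨x, hx⟩ := (Module.finrank_pos_iff_exists_ne_zero).1 h1
  have hx0 : (x : E) ≠ 0 := fun h => hx (Subtype.ext h)
  refine ⟨‖(x : E)‖⁻¹ • (x : E), ?_, ?_⟩
  · rw [norm_smul, norm_inv, norm_norm, inv_mul_cancel₀ (norm_ne_zero_iff.2 hx0)]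
  · intro y hy
    rw [inner_smul_right, (Submodule.mem_orthogonal K x).1 x.2 y hy, mul_zero]

theorem axis [FiniteDimensional ℝ E] {d : ℕ} (hd : finrank ℝ E = d) (hd0 : 0 < d) {s : ℝ}
    (hs : 0 < s) {a : Fin d → E} (ha : ∀ i j, i ≠ j → dist (a i) (a j) = s) :
    ∃ c n : E, ‖n‖ = 1 ∧ ∀ (x : E) (ρ : ℝ), (∀ i, dist x (a i) = ρ) →
      ∃ t : ℝ, x = c + t • n ∧ t ^ 2 = ρ ^ 2 - s ^ 2 * (d - 1) / (2 * d) := by
  have hdR : (0 : ℝ) < d := by exact_mod_cast hd0
  have hdR' : (d : ℝ) ≠ 0 := hdR.ne'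
  set c : E := (d : ℝ)⁻¹ • ∑ i, a i with hc
  set b : Fin d → E := fun i => a i - c with hb
  have hbsum : ∑ i, b i = 0 := by
    simp only [hb, sum_sub_distrib, sum_const, card_univ, Fintype.card_fin, hc]
    rw [← Nat.cast_smul_eq_nsmul ℝ, smul_smul, mul_inv_cancel₀ hdR', one_smul, sub_self]
  have hbd : ∀ i j, i ≠ j → ‖b i - b j‖ ^ 2 = s ^ 2 := by
    intro i j hij
    simp only [hb, sub_sub_sub_cancel_right]
    rw [← dist_eq_norm, ha i j hij]
  have hin : ∀ i, ∑ j, ⟪b i, b j⟫ = 0 := by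
    intro i
    rw [← inner_sum, hbsum, inner_zero_right]
  have h1 : ∀ i, (d : ℝ) * ‖b i‖ ^ 2 + ∑ j, ‖b j‖ ^ 2 = (d - 1) * s ^ 2 := by
    intro i
    have e1 : ∑ j, ‖b i - b j‖ ^ 2 = (d - 1) * s ^ 2 := by
      rw [← Finset.add_sum_erase _ _ (mem_univ i), sub_self, norm_zero,
        Finset.sum_congr rfl (g := fun _ => s ^ 2) (fun j hj => hbd i j (ne_of_mem_erase hj).symm),
        sum_const, card_erase_of_mem (mem_univ i), card_univ, Fintype.card_fin, nsmul_eq_mul,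
        Nat.cast_sub (by omega)]
      simp
    have e2 : ∑ j, ‖b i - b j‖ ^ 2 = (d : ℝ) * ‖b i‖ ^ 2 + ∑ j, ‖b j‖ ^ 2 := by
      have : ∀ j, ‖b i - b j‖ ^ 2 = ‖b i‖ ^ 2 - 2 * ⟪b i, b j⟫ + ‖b j‖ ^ 2 :=
        fun j => norm_sub_sq_real _ _
      simp only [this, sum_add_distrib, sum_sub_distrib, ← mul_sum, hin, sum_const, card_univ,
        Fintype.card_fin, nsmul_eq_mul]
      ring
    rw [← e2, e1]
  have h2 : ∑ j, ‖b j‖ ^ 2 = (d - 1) * s ^ 2 / 2 := by
    have e1 : ∑ i : Fin d, ((d : ℝ) * ‖b i‖ ^ 2 + ∑ j, ‖b j‖ ^ 2) = ∑ i : Fin d, ((d - 1) * s ^ 2) :=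
      Finset.sum_congr rfl fun i _ => h1 i
    simp only [sum_add_distrib, ← mul_sum, sum_const, card_univ, Fintype.card_fin,
      nsmul_eq_mul] at e1
    have e2 : (d : ℝ) * (∑ j, ‖b j‖ ^ 2 - (d - 1) * s ^ 2 / 2) = 0 := by linarith
    rcases mul_eq_zero.1 e2 with h | h
    · exact absurd h hdR'
    · linarith
  have hr : ∀ i, ‖b i‖ ^ 2 = s ^ 2 * (d - 1) / (2 * d) := by
    intro i
    have := h1 i
    rw [h2] at this
    field_simp
    linarith
  have hij : ∀ i j, i ≠ j → ⟪b i, b j⟫ = - s ^ 2 / (2 * d) := by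
    intro i j h
    have := norm_sub_sq_real (b i) (b j)
    rw [hbd i j h, hr, hr] at this
    field_simp at this ⊢
    linarith
  -- the unit normal vector
  set K : Submodule ℝ E := Submodule.span ℝ (Set.range b) with hK
  have hKlt : finrank ℝ K < finrank ℝ E := by
    have h3 : ¬ LinearIndependent ℝ b := by
      rw [Fintype.not_linearIndependent_iff]
      exact ⟨fun _ => 1, by simpa using hbsum, ⟨0, hd0⟩, one_ne_zero⟩
    have h4 : finrank ℝ K ≤ d := by
      have := finrank_range_le_card (R := ℝ) b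
      rw [Fintype.card_fin] at this
      exact this
    have h5 : finrank ℝ K ≠ d := by
      intro h
      apply h3
      rw [linearIndependent_iff_card_eq_finrank_span, Fintype.card_fin]
      exact h.symm
    omega
  obtain ⟨n, hn1, hn2⟩ := exists_unit_orthogonal_of_finrank_lt hKlt
  have hbn : ∀ i, ⟪b i, n⟫ = 0 := fun i => hn2 _ (Submodule.subset_span ⟨i, rfl⟩)
  have hnb : ∀ i, ⟪n, b i⟫ = 0 := fun i => by rw [real_inner_comm]; exact hbn i
  set f : Fin d → E := fun i => (√2 / s) • b i + (√d)⁻¹ • n with hf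
  have hsd : (√(d : ℝ))⁻¹ * (√(d : ℝ))⁻¹ = 1 / d := by
    rw [← mul_inv, Real.mul_self_sqrt hdR.le, one_div]
  have hs2 : √2 / s * (√2 / s) = 2 / s ^ 2 := by
    rw [div_mul_div_comm, Real.mul_self_sqrt (by norm_num), sq]
  have hff : ∀ i j, ⟪f i, f j⟫ = 2 / s ^ 2 * ⟪b i, b j⟫ + 1 / d := by
    intro i j
    simp only [hf, inner_add_left, inner_add_right, inner_smul_left, inner_smul_right, hbn, hnb,
      RCLike.conj_to_real]
    have hnn : ⟪n, n⟫ = 1 := by rw [real_inner_self_eq_norm_sq, hn1]; norm_num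
    rw [hnn, ← hs2, ← hsd]
    ring
  have hfo : Orthonormal ℝ f := by
    rw [orthonormal_iff_ite]
    intro i j
    rw [hff]
    by_cases h : i = j
    · subst h
      rw [if_pos rfl, real_inner_self_eq_norm_sq, hr]
      field_simp
      ring
    · rw [if_neg h, hij i j h]
      field_simp
      ring
  have hne : Nonempty (Fin d) := ⟨⟨0, hd0⟩⟩
  have hspan : Submodule.span ℝ (Set.range f) = ⊤ :=
    hfo.linearIndependent.span_eq_top_of_card_eq_finrank (by rw [Fintype.card_fin, hd])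
  refine ⟨c, n, hn1, fun x ρ hx => ?_⟩
  set w : E := x - c with hw
  have hxw : ∀ i, ‖w - b i‖ ^ 2 = ρ ^ 2 := by
    intro i
    simp only [hw, hb, sub_sub_sub_cancel_right]
    rw [← dist_eq_norm, hx i]
  have hwb : ∀ i, 2 * ⟪w, b i⟫ = ‖w‖ ^ 2 + s ^ 2 * (d - 1) / (2 * d) - ρ ^ 2 := by
    intro i
    have := norm_sub_sq_real w (b i)
    rw [hxw i, hr] at this
    linarith
  have hsum : ∑ i, ⟪w, b i⟫ = 0 := by rw [← inner_sum, hbsum, inner_zero_right]
  have hzero : ‖w‖ ^ 2 + s ^ 2 * (d - 1) / (2 * d) - ρ ^ 2 = 0 := by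
    have e1 : ∑ i : Fin d, (2 * ⟪w, b i⟫) =
        ∑ i : Fin d, (‖w‖ ^ 2 + s ^ 2 * (d - 1) / (2 * d) - ρ ^ 2) :=
      Finset.sum_congr rfl fun i _ => hwb i
    rw [← mul_sum, hsum, mul_zero, sum_const, card_univ, Fintype.card_fin, nsmul_eq_mul] at e1
    rcases mul_eq_zero.1 e1.symm with h | h
    · exact absurd h hdR'
    · exact h
  have hwb0 : ∀ i, ⟪w, b i⟫ = 0 := fun i => by
    have := hwb i
    linarith
  -- `w` is a multiple of `n`
  set t : ℝ := ⟪w, n⟫ with ht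
  have hu : w - t • n = 0 := by
    have e1 : ∀ i, ⟪w - t • n, f i⟫ = 0 := by
      intro i
      simp only [hf, inner_add_right, inner_smul_right, inner_sub_left, inner_smul_left, hwb0, hnb,
        RCLike.conj_to_real, real_inner_self_eq_norm_sq, hn1, ← ht]
      ring
    have e2 : ∀ y ∈ Submodule.span ℝ (Set.range f), ⟪w - t • n, y⟫ = 0 := by
      intro y hy
      induction hy using Submodule.span_induction with
      | mem y hy => obtain ⟨i, rfl⟩ := hy; exact e1 i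
      | zero => exact inner_zero_right _
      | add y z _ _ h1 h2 => rw [inner_add_right, h1, h2, add_zero]
      | smul r y _ h1 => rw [inner_smul_right, h1, mul_zero]
    have e3 := e2 (w - t • n) (by rw [hspan]; trivial)
    exact inner_self_eq_zero.1 e3
  have hwt : w = t • n := sub_eq_zero.1 hu
  refine ⟨t, ?_, ?_⟩
  · rw [← hwt, hw]
    abel
  · have e1 : ‖w‖ ^ 2 = t ^ 2 := by
      rw [hwt, norm_smul, hn1, mul_one, Real.norm_eq_abs, sq_abs]
    linarith

/-- Two points equidistant from the vertices of a regular simplex with `d` vertices in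
dimension `d`. -/
theorem simplex_pair [FiniteDimensional ℝ E] {d : ℕ} (hd : finrank ℝ E = d) (hd0 : 0 < d) {s ρ : ℝ}
    (hs : 0 < s) {a : Fin d → E} (ha : ∀ i j, i ≠ j → dist (a i) (a j) = s) {p q : E}
    (hp : ∀ i, dist p (a i) = ρ) (hq : ∀ i, dist q (a i) = ρ) :
    p = q ∨ dist p q ^ 2 = 4 * (ρ ^ 2 - s ^ 2 * (d - 1) / (2 * d)) := by
  obtain ⟨c, n, hn, h⟩ := axis hd hd0 hs ha
  obtain ⟨t, rfl, ht⟩ := h p ρ hp
  obtain ⟨t', rfl, ht'⟩ := h q ρ hq
  rcases sq_eq_sq_iff_eq_or_eq_neg.1 (ht.trans ht'.symm) with h1 | h1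
  · left
    rw [h1]
  · right
    rw [dist_add_left, dist_eq_norm, ← sub_smul, norm_smul, hn, mul_one, Real.norm_eq_abs, sq_abs,
      ← ht', h1]
    ring

/-- The number `ℓ = 2 + 2/d`. -/
noncomputable def el (d : ℕ) : ℝ := 2 + 2 / d

/-- The number `D = √(2 + 2/d)`. -/
noncomputable def eD (d : ℕ) : ℝ := √(el d)

theorem el_gt (d : ℕ) (hd : 0 < d) : 2 < el d := by
  unfold el
  have : (0 : ℝ) < 2 / d := by positivity
  linarith

theorem el_le (d : ℕ) (hd : 3 ≤ d) : el d ≤ 8 / 3 := by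
  unfold el
  have h : (3 : ℝ) ≤ d := by exact_mod_cast hd
  have : (2 : ℝ) / d ≤ 2 / 3 := by gcongr
  linarith

theorem eD_sq (d : ℕ) (hd : 0 < d) : eD d ^ 2 = el d := by
  unfold eD
  rw [Real.sq_sqrt]
  have := el_gt d hd
  linarith

theorem eD_pos (d : ℕ) (hd : 0 < d) : 0 < eD d := by
  unfold eD
  have := el_gt d hd
  exact Real.sqrt_pos.2 (by linarith)

theorem eD_gt (d : ℕ) (hd : 0 < d) : 1 < eD d := by
  have h1 := eD_sq d hd
  have h2 := eD_pos d hd
  have h3 := el_gt d hd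
  nlinarith

theorem bip_sound [FiniteDimensional ℝ E] {d : ℕ} (hd : finrank ℝ E = d) (hd0 : 0 < d) {s : ℝ}
    (hs : 0 < s) {a : Fin d → E} (ha : ∀ i j, i ≠ j → dist (a i) (a j) = s) {p q : E}
    (hp : ∀ i, dist p (a i) = s) (hq : ∀ i, dist q (a i) = s) :
    p = q ∨ dist p q = s * eD d := by
  rcases simplex_pair hd hd0 hs ha hp hq with h | h
  · exact Or.inl h
  · right
    have hdR : (0 : ℝ) < d := by exact_mod_cast hd0
    have h1 := eD_sq d hd0
    have h2 := eD_pos d hd0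
    have h3 : dist p q ^ 2 = (s * eD d) ^ 2 := by
      rw [h, mul_pow, h1, el]
      field_simp
      ring
    exact (sq_eq_sq₀ dist_nonneg (by positivity)).1 h3

/-- A rod: three collinear points at distances `1` and `ℓ`. -/
theorem rod_sound [FiniteDimensional ℝ E] {d : ℕ} (hd : finrank ℝ E = d) (hd0 : 0 < d)
    {a : Fin d → E} (ha : ∀ i j, i ≠ j → dist (a i) (a j) = eD d) {p m q : E}
    (hp : ∀ i, dist p (a i) = eD d) (hq : ∀ i, dist q (a i) = eD d) (hm : ∀ i, dist m (a i) = 1)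
    (hpm : dist p m = 1) (hpq : p ≠ q) : q - p = el d • (m - p) := by
  obtain ⟨c, n, hn, h⟩ := axis hd hd0 (eD_pos d hd0) ha
  obtain ⟨t, rfl, ht⟩ := h p _ hp
  obtain ⟨t', rfl, ht'⟩ := h q _ hq
  obtain ⟨u, rfl, hu⟩ := h m _ hm
  have hdR : (0 : ℝ) < d := by exact_mod_cast hd0
  have h1 : t' = -t := by
    rcases sq_eq_sq_iff_eq_or_eq_neg.1 (ht'.trans ht.symm) with h1 | h1
    · exact absurd (by rw [h1]) hpq
    · exact h1
  rw [eD_sq d hd0] at ht hu
  rw [dist_add_left, dist_eq_norm, ← sub_smul, norm_smul, hn, mul_one, Real.norm_eq_abs] at hpm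
  have e1 : t ^ 2 = (1 + 1 / d) ^ 2 := by
    rw [ht, el]
    field_simp
    ring
  have e2 : u ^ 2 = (1 / d) ^ 2 := by
    rw [hu, el]
    field_simp
    ring
  have e3 : (t - u) ^ 2 = 1 := by rw [← sq_abs, hpm]; norm_num
  have hd1 : (0 : ℝ) < 1 / d := by positivity
  have key : t = (1 + d) * u := by
    rcases sq_eq_sq_iff_eq_or_eq_neg.1 e1 with h2 | h2 <;>
    rcases sq_eq_sq_iff_eq_or_eq_neg.1 e2 with h3 | h3
    · rw [h2, h3]
      field_simp
      ring
    · exfalso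
      rw [h2, h3] at e3
      nlinarith
    · exfalso
      rw [h2, h3] at e3
      nlinarith
    · rw [h2, h3]
      field_simp
      ring
  rw [h1, add_sub_add_left_eq_sub, add_sub_add_left_eq_sub, ← sub_smul, ← sub_smul, smul_smul,
    key, el]
  congr 1
  field_simp
  ring

end Pool.Agent.NPC.ER.Geo
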