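import Pool.Agent.ER.Geo

/-!
# Existence of generic configurations
-/

namespace Pool.Agent.NPC.ER.Geo

open Module Finset
open scoped RealInnerProductSpace

variable {E : Type*} [NormedAddCommGroup E] [InnerProductSpace ℝ E]

theorem exists_unit_orthogonal_two [FiniteDimensional ℝ E] (hd : 3 ≤ finrank ℝ E) (x y : E) :
    ∃ n : E, ‖n‖ = 1 ∧ ⟪x, n⟫ = 0 ∧ ⟪y, n⟫ = 0 := by
  classical
  have h1 : finrank ℝ (Submodule.span ℝ (({x, y} : Finset E) : Set E)) ≤ 2 :=
    (finrank_span_finset_le_card _).trans Finset.card_le_two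
  obtain ⟨n, hn, h⟩ := exists_unit_orthogonal_of_finrank_lt
    (K := Submodule.span ℝ (({x, y} : Finset E) : Set E)) (by omega)
  refine ⟨n, hn, h x (Submodule.subset_span ?_), h y (Submodule.subset_span ?_)⟩ <;> simp

/-- The intersection of a sphere and a hyperplane is infinite. -/
theorem infinite_slice [FiniteDimensional ℝ E] (hd : 3 ≤ finrank ℝ E) {V : E} {ρ β : ℝ}
    (hV : V ≠ 0) (h : β ^ 2 < ρ ^ 2 * ‖V‖ ^ 2) :
    {u : E | ‖u‖ ^ 2 = ρ ^ 2 ∧ ⟪V, u⟫ = β}.Infinite := by
  obtain ⟨w1, hw1, hVw1, -⟩ := exists_unit_orthogonal_two hd V V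
  obtain ⟨w2, hw2, hVw2, hw12⟩ := exists_unit_orthogonal_two hd V w1
  have hV0 : 0 < ‖V‖ := norm_pos_iff.2 hV
  have hpos : 0 < ρ ^ 2 - β ^ 2 / ‖V‖ ^ 2 := by
    rw [sub_pos, div_lt_iff₀ (by positivity)]
    exact h
  set k : ℝ := √(ρ ^ 2 - β ^ 2 / ‖V‖ ^ 2) with hk
  have hk0 : 0 < k := Real.sqrt_pos.2 hpos
  have hk2 : k ^ 2 = ρ ^ 2 - β ^ 2 / ‖V‖ ^ 2 := Real.sq_sqrt hpos.le
  let F : ℝ → E := fun t => (β / ‖V‖ ^ 2) • V + (k * t) • w1 + (k * √(1 - t ^ 2)) • w2
  have hinf : (Set.Icc (0 : ℝ) 1).Infinite := Set.Icc_infinite (by norm_num)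
  have hF1 : ∀ t, ⟪F t, w1⟫ = k * t := by
    intro t
    simp only [F, inner_add_left, inner_smul_left, hVw1, RCLike.conj_to_real,
      real_inner_self_eq_norm_sq, hw1]
    rw [real_inner_comm, hw12]
    ring
  refine Set.infinite_of_injOn_mapsTo (f := F) (s := Set.Icc (0 : ℝ) 1) ?_ ?_ hinf
  · intro t _ t' _ he
    have h1 := hF1 t
    rw [show F t = F t' from he, hF1 t'] at h1
    exact (mul_left_cancel₀ hk0.ne' h1).symm
  · intro t ht
    have ht2 : 0 ≤ 1 - t ^ 2 := by nlinarith [ht.1, ht.2]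
    have hw21 : ⟪w2, w1⟫ = 0 := by rw [real_inner_comm]; exact hw12
    have hw1V : ⟪w1, V⟫ = 0 := by rw [real_inner_comm]; exact hVw1
    have hw2V : ⟪w2, V⟫ = 0 := by rw [real_inner_comm]; exact hVw2
    constructor
    · rw [← real_inner_self_eq_norm_sq]
      simp only [F, inner_add_left, inner_add_right, inner_smul_left, inner_smul_right, hVw1,
        hVw2, hw12, hw21, hw1V, hw2V, RCLike.conj_to_real, real_inner_self_eq_norm_sq, hw1, hw2]
      have e1 := Real.mul_self_sqrt ht2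
      have e2 : β / ‖V‖ ^ 2 * (β / ‖V‖ ^ 2 * ‖V‖ ^ 2) = β ^ 2 / ‖V‖ ^ 2 := by
        field_simp
      linear_combination e2 + k ^ 2 * e1 + hk2
    · simp only [F, inner_add_right, inner_smul_right, hVw1, hVw2, real_inner_self_eq_norm_sq]
      field_simp
      ring

/-- Generic choice of a point of an infinite set. -/
theorem affine_avoid {S : Set E} (hS : S.Infinite) {A : Set E} (hA : A.Finite)
    (L : List (ℝ × E)) (hL : ∀ x ∈ L, x.1 ≠ 0) (hnd : L.Nodup) :
    ∃ u ∈ S, (L.map (fun x => x.1 • u + x.2)).Nodup ∧ ∀ x ∈ L, x.1 • u + x.2 ∉ A := by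
  have key : ∀ L : List (ℝ × E), (∀ x ∈ L, x.1 ≠ 0) → L.Nodup →
      {u : E | ¬ ((L.map (fun x => x.1 • u + x.2)).Nodup ∧ ∀ x ∈ L, x.1 • u + x.2 ∉ A)}.Finite := by
    intro L
    induction L with
    | nil => intro _ _; simp
    | cons x L ih =>
      intro hL hnd
      rw [List.nodup_cons] at hnd
      have h1 := ih (fun y hy => hL y (List.mem_cons_of_mem _ hy)) hnd.2
      have hx := hL x (by simp)
      have h2 : {u : E | x.1 • u + x.2 ∈ A}.Finite := by
        refine hA.preimage (f := fun u : E => x.1 • u + x.2) (Set.injOn_of_injective ?_)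
        intro u u' h
        exact smul_right_injective E hx (add_right_cancel h)
      have h3 : (⋃ y ∈ {y | y ∈ L}, {u : E | x.1 • u + x.2 = y.1 • u + y.2}).Finite := by
        refine (List.finite_toSet L).biUnion fun y hy => ?_
        have hxy : x ≠ y := fun h => hnd.1 (h ▸ hy)
        refine Set.Subsingleton.finite ?_
        intro u hu u' hu'
        change x.1 • u + x.2 = y.1 • u + y.2 at hu
        change x.1 • u' + x.2 = y.1 • u' + y.2 at hu'
        by_cases h : x.1 = y.1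
        · exfalso
          rw [h] at hu
          exact hxy (Prod.ext h (add_left_cancel hu))
        · have e1 : (x.1 - y.1) • u = (x.1 - y.1) • u' := by
            have e2 : (x.1 - y.1) • u = y.2 - x.2 := by
              rw [sub_smul]
              linear_combination (norm := module) hu
            have e3 : (x.1 - y.1) • u' = y.2 - x.2 := by
              rw [sub_smul]
              linear_combination (norm := module) hu'
            rw [e2, e3]
          exact smul_right_injective E (sub_ne_zero.2 h) e1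
      refine ((h1.union h2).union h3).subset ?_
      intro u hu
      by_contra hcon
      simp only [Set.mem_union, not_or] at hcon
      obtain ⟨⟨c1, c2⟩, c3⟩ := hcon
      apply hu
      have c1' : ((L.map (fun x => x.1 • u + x.2)).Nodup ∧ ∀ x ∈ L, x.1 • u + x.2 ∉ A) :=
        not_not.1 c1
      refine ⟨?_, ?_⟩
      · rw [List.map_cons, List.nodup_cons]
        refine ⟨?_, c1'.1⟩
        intro hm
        rw [List.mem_map] at hm
        obtain ⟨y, hy, he⟩ := hm
        apply c3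
        rw [Set.mem_iUnion₂]
        exact ⟨y, hy, he.symm⟩
      · intro y hy
        rcases List.mem_cons.1 hy with rfl | hy
        · exact c2
        · exact c1'.2 y hy
  obtain ⟨u, hu, hu'⟩ := (hS.sdiff (key L hL hnd)).nonempty
  exact ⟨u, hu, not_not.1 hu'⟩

/-- An orthonormal basis with given sum of vectors. -/
theorem exists_onb_sum [FiniteDimensional ℝ E] {d : ℕ} (hd : finrank ℝ E = d) (hd0 : 0 < d)
    {n : E} (hn : ‖n‖ = 1) : ∃ f : Fin d → E, Orthonormal ℝ f ∧ ∑ i, f i = √(d : ℝ) • n := by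
  have hdR : (0 : ℝ) < d := by exact_mod_cast hd0
  have hsd : 0 < √(d : ℝ) := Real.sqrt_pos.2 hdR
  let g : OrthonormalBasis (Fin d) ℝ E := (stdOrthonormalBasis ℝ E).reindex (finCongr hd)
  have hg := g.orthonormal
  set m : E := (√(d : ℝ))⁻¹ • ∑ i, g i with hm
  have h1 : ⟪∑ i, g i, ∑ i, g i⟫ = (d : ℝ) := by
    rw [sum_inner]
    have : ∀ i, ⟪g i, ∑ j, g j⟫ = (1 : ℝ) := by
      intro i
      rw [inner_sum]
      simp [orthonormal_iff_ite.1 hg]
    simp [this]
  have h2 : ‖m‖ = 1 := by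
    have h3 : ‖m‖ ^ 2 = 1 := by
      rw [← real_inner_self_eq_norm_sq, hm, inner_smul_left, inner_smul_right, h1,
        RCLike.conj_to_real]
      have := Real.mul_self_sqrt hdR.le
      field_simp
      rw [Real.sq_sqrt hdR.le]
    exact (pow_eq_one_iff_of_nonneg (norm_nonneg _) (by norm_num)).1 h3
  let R := (ℝ ∙ (m - n))ᗮ.reflection
  have hR : R m = n := Submodule.reflection_sub (by rw [h2, hn])
  refine ⟨fun i => R (g i), hg.comp_linearIsometryEquiv R, ?_⟩
  rw [← map_sum]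
  have h4 : ∑ i, g i = √(d : ℝ) • m := by
    rw [hm, smul_smul, mul_inv_cancel₀ hsd.ne', one_smul]
  rw [h4, map_smul, hR]

theorem finrank_line_le (x : E) : finrank ℝ (ℝ ∙ x) ≤ 1 := by
  have h := finrank_span_finset_le_card (R := ℝ) ({x} : Finset E)
  rw [Finset.coe_singleton, Finset.card_singleton] at h
  exact h

/-- A reflection fixing `n` and moving finitely many given nonzero vectors orthogonal to `n` away
from a finite set. -/
theorem exists_reflection_avoid [FiniteDimensional ℝ E] (hd : 3 ≤ finrank ℝ E) {n : E}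
    {ι : Type*} [Finite ι] {b : ι → E} (hb : ∀ i, b i ≠ 0)
    (hbn : ∀ i, ⟪n, b i⟫ = 0) {A : Set E} (hA : A.Finite) :
    ∃ U : E ≃ₗᵢ[ℝ] E, U n = n ∧ ∀ i, U (b i) ∉ A := by
  classical
  let W : Submodule ℝ E := (ℝ ∙ n)ᗮ
  have hbW : ∀ i, b i ∈ W := fun i => Submodule.mem_orthogonal_singleton_iff_inner_right.2 (hbn i)
  have hW : 2 ≤ finrank ℝ W := by
    have h1 := (ℝ ∙ n).finrank_add_finrank_orthogonal
    have h2 : finrank ℝ (ℝ ∙ n) ≤ 1 := finrank_line_le n
    have h3 : finrank ℝ W = finrank ℝ (ℝ ∙ n)ᗮ := rfl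
    omega
  have hAfin : Finite A := hA
  -- the bad subspaces
  let P : ι × A → Subspace ℝ W := fun x =>
    if (x.2 : E) = b x.1 then (ℝ ∙ b x.1)ᗮ.comap W.subtype
    else (ℝ ∙ (b x.1 - x.2)).comap W.subtype
  have hP : ∀ x, P x ≠ ⊤ := by
    rintro ⟨i, y⟩ h
    simp only [P] at h
    split_ifs at h with hy
    · have h1 : (⟨b i, hbW i⟩ : W) ∈ (ℝ ∙ b i)ᗮ.comap W.subtype := by rw [h]; trivial
      rw [Submodule.mem_comap, Submodule.mem_orthogonal_singleton_iff_inner_right] at h1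
      exact hb i (inner_self_eq_zero.1 h1)
    · have h1 : W ≤ ℝ ∙ (b i - (y : E)) := by
        intro z hz
        have : (⟨z, hz⟩ : W) ∈ (ℝ ∙ (b i - (y : E))).comap W.subtype := by rw [h]; trivial
        exact this
      have h2 := Submodule.finrank_mono h1
      have h3 : finrank ℝ (ℝ ∙ (b i - (y : E))) ≤ 1 := finrank_line_le _
      omega
  have hex : ∃ m : W, ∀ x, m ∉ P x := by
    by_contra hcon
    push Not at hcon
    have hcov : ⋃ x, (P x : Set W) = Set.univ := by
      rw [Set.eq_univ_iff_forall]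
      intro m
      rw [Set.mem_iUnion]
      exact hcon m
    obtain ⟨x, hx⟩ := Subspace.exists_eq_top_of_iUnion_eq_univ hcov
    exact hP x hx
  obtain ⟨m, hm⟩ := hex
  have hmn : ⟪(m : E), n⟫ = 0 := by
    rw [real_inner_comm]
    exact Submodule.mem_orthogonal_singleton_iff_inner_right.1 m.2
  refine ⟨(ℝ ∙ (m : E))ᗮ.reflection, ?_, ?_⟩
  · exact Submodule.reflection_mem_subspace_eq_self
      (Submodule.mem_orthogonal_singleton_iff_inner_right.2 hmn)
  · intro i hi
    set y : E := (ℝ ∙ (m : E))ᗮ.reflection (b i) with hy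
    have h1 := hm ⟨i, ⟨y, hi⟩⟩
    simp only [P] at h1
    have h2 : y = b i - (2 * (⟪(m : E), b i⟫ / ‖(m : E)‖ ^ 2)) • (m : E) := by
      rw [hy, Submodule.reflection_orthogonal_apply, Submodule.reflection_singleton_apply]
      simp only [RCLike.ofReal_real_eq_id, id]
      rw [neg_sub, two_smul, two_mul, add_smul]
    split_ifs at h1 with hyb
    · apply h1
      rw [Submodule.mem_comap, Submodule.mem_orthogonal_singleton_iff_inner_right]
      change ⟪b i, (m : E)⟫ = 0
      rw [real_inner_comm]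
      by_contra hne
      rw [hyb] at h2
      have h3 : (2 * (⟪(m : E), b i⟫ / ‖(m : E)‖ ^ 2)) • (m : E) = 0 := by
        have := sub_eq_self.1 h2.symm
        exact this
      rcases smul_eq_zero.1 h3 with h4 | h4
      · have h5 : ‖(m : E)‖ ^ 2 ≠ 0 := by
          intro h6
          have : (m : E) = 0 := norm_eq_zero.1 (pow_eq_zero_iff (by norm_num) |>.1 h6)
          rw [this, inner_zero_left] at hne
          exact hne rfl
        have h7 : ⟪(m : E), b i⟫ / ‖(m : E)‖ ^ 2 = 0 := by linarith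
        rcases div_eq_zero_iff.1 h7 with h8 | h8
        · exact hne h8
        · exact h5 h8
      · rw [h4, inner_zero_left] at hne
        exact hne rfl
    · apply h1
      rw [Submodule.mem_comap]
      change (m : E) ∈ ℝ ∙ (b i - y)
      have h3 : b i - y = (2 * (⟪(m : E), b i⟫ / ‖(m : E)‖ ^ 2)) • (m : E) := by
        rw [h2]
        abel
      have h4 : 2 * (⟪(m : E), b i⟫ / ‖(m : E)‖ ^ 2) ≠ 0 := by
        intro h5
        rw [h5, zero_smul] at h3
        exact hyb (sub_eq_zero.1 h3).symm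
      rw [Submodule.mem_span_singleton]
      exact ⟨(2 * (⟪(m : E), b i⟫ / ‖(m : E)‖ ^ 2))⁻¹, by
        rw [h3, smul_smul, inv_mul_cancel₀ h4, one_smul]⟩

/-- **Existence of generic simplices.** -/
theorem simplex_exists [FiniteDimensional ℝ E] {d : ℕ} (hd : finrank ℝ E = d) (hd3 : 3 ≤ d)
    {s : ℝ} (hs : 0 < s) {p q : E} (hpq : dist p q = s * eD d) {A : Set E} (hA : A.Finite) :
    ∃ a : Fin d → E, (∀ i j, i ≠ j → dist (a i) (a j) = s) ∧ (∀ i, dist p (a i) = s) ∧
      (∀ i, dist q (a i) = s) ∧ ∀ i, a i ∉ A := by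
  have hd0 : 0 < d := by omega
  have hdR : (0 : ℝ) < d := by exact_mod_cast hd0
  have hd1R : (1 : ℝ) < d := by exact_mod_cast (by omega : 1 < d)
  have hsd : 0 < √(d : ℝ) := Real.sqrt_pos.2 hdR
  have hD := eD_pos d hd0
  have hD2 := eD_sq d hd0
  have hpos : 0 < ‖q - p‖ := by
    rw [← dist_eq_norm, dist_comm, hpq]
    positivity
  set n : E := ‖q - p‖⁻¹ • (q - p) with hn
  have hn1 : ‖n‖ = 1 := by
    rw [hn, norm_smul, norm_inv, norm_norm, inv_mul_cancel₀ hpos.ne']
  have hnq : q - p = ‖q - p‖ • n := by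
    rw [hn, smul_smul, mul_inv_cancel₀ hpos.ne', one_smul]
  obtain ⟨f, hf, hfs⟩ := exists_onb_sum hd hd0 hn1
  have hff := orthonormal_iff_ite.1 hf
  have hfn : ∀ i, ⟪f i, n⟫ = (√(d : ℝ))⁻¹ := by
    intro i
    have h1 : ⟪f i, ∑ j, f j⟫ = (1 : ℝ) := by
      rw [inner_sum]
      simp [hff]
    rw [hfs, inner_smul_right] at h1
    field_simp
    linarith
  have hnn : ⟪n, n⟫ = (1 : ℝ) := by rw [real_inner_self_eq_norm_sq, hn1]; norm_num
  set b : Fin d → E := fun i => (s / √2) • (f i - (√(d : ℝ))⁻¹ • n) with hb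
  have hbn : ∀ i, ⟪n, b i⟫ = 0 := by
    intro i
    simp only [hb, inner_smul_right, inner_sub_right, hnn]
    rw [real_inner_comm, hfn]
    ring
  have hsdd : (√(d : ℝ))⁻¹ * (√(d : ℝ))⁻¹ = 1 / d := by
    rw [← mul_inv, Real.mul_self_sqrt hdR.le, one_div]
  have hs2 : s / √2 * (s / √2) = s ^ 2 / 2 := by
    rw [div_mul_div_comm, Real.mul_self_sqrt (by norm_num), sq]
  have hbb : ∀ i, ‖b i‖ ^ 2 = s ^ 2 / 2 * (1 - 1 / d) := by
    intro i
    have h1 : ⟪f i, f i⟫ = (1 : ℝ) := by rw [hff, if_pos rfl]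
    have h2 : ⟪n, f i⟫ = (√(d : ℝ))⁻¹ := by rw [real_inner_comm]; exact hfn i
    rw [← real_inner_self_eq_norm_sq]
    simp only [hb, inner_smul_left, inner_smul_right, inner_sub_left, inner_sub_right, hnn, h1,
      h2, hfn, RCLike.conj_to_real]
    rw [← hs2, ← hsdd]
    ring
  have hb0 : ∀ i, b i ≠ 0 := by
    intro i h
    have := hbb i
    rw [h, norm_zero] at this
    have h1 : 0 < s ^ 2 / 2 * (1 - 1 / (d : ℝ)) := by
      have : 1 / (d : ℝ) < 1 := by rw [div_lt_one hdR]; exact hd1R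
      have : 0 < 1 - 1 / (d : ℝ) := by linarith
      positivity
    nlinarith
  have hbd : ∀ i j, i ≠ j → ‖b i - b j‖ = s := by
    intro i j hij
    have h1 : b i - b j = (s / √2) • (f i - f j) := by
      simp only [hb]
      module
    have h2 : ‖f i - f j‖ ^ 2 = 2 := by
      rw [norm_sub_sq_real, hf.1, hf.1, hff, if_neg hij]
      norm_num
    have h3 : ‖b i - b j‖ ^ 2 = s ^ 2 := by
      rw [h1, norm_smul, mul_pow, h2, Real.norm_eq_abs, sq_abs, div_pow,
        Real.sq_sqrt (by norm_num)]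
      ring
    exact (sq_eq_sq₀ (norm_nonneg _) hs.le).1 h3
  set c : E := (1 / 2 : ℝ) • (p + q) with hc
  obtain ⟨U, hUn, hU⟩ := exists_reflection_avoid (n := n) (by omega) hb0 hbn
    (A := (fun y => y - c) '' A) (hA.image _)
  have hUb : ∀ i, ⟪n, U (b i)⟫ = 0 := by
    intro i
    have := U.inner_map_map n (b i)
    rw [hUn] at this
    rw [this, hbn]
  have hL : ‖q - p‖ ^ 2 = s ^ 2 * el d := by
    rw [← dist_eq_norm, dist_comm, hpq, mul_pow, hD2]
  have hdist : ∀ (σ : ℝ) (i : Fin d), σ ^ 2 = 1 / 4 →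
      ‖(σ * ‖q - p‖) • n - U (b i)‖ = s := by
    intro σ i hσ
    have h1 : ‖(σ * ‖q - p‖) • n - U (b i)‖ ^ 2 = s ^ 2 := by
      rw [norm_sub_sq_real, inner_smul_left, hUb, norm_smul, hn1, LinearIsometryEquiv.norm_map,
        hbb, mul_one, Real.norm_eq_abs, sq_abs, mul_pow, hL, hσ, el]
      field_simp
      ring
    exact (sq_eq_sq₀ (norm_nonneg _) hs.le).1 h1
  refine ⟨fun i => c + U (b i), ?_, ?_, ?_, ?_⟩
  · intro i j hij
    rw [dist_add_left, dist_eq_norm, ← map_sub, LinearIsometryEquiv.norm_map, hbd i j hij]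
  · intro i
    rw [dist_eq_norm]
    have : p - (c + U (b i)) = ((-1 / 2) * ‖q - p‖) • n - U (b i) := by
      have h1 : ((-1 / 2 : ℝ) * ‖q - p‖) • n = (-1 / 2 : ℝ) • (q - p) := by
        rw [mul_smul, ← hnq]
      rw [h1, hc]
      module
    rw [this]
    exact hdist _ i (by norm_num)
  · intro i
    rw [dist_eq_norm]
    have : q - (c + U (b i)) = ((1 / 2) * ‖q - p‖) • n - U (b i) := by
      have h1 : ((1 / 2 : ℝ) * ‖q - p‖) • n = (1 / 2 : ℝ) • (q - p) := by
        rw [mul_smul, ← hnq]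
      rw [h1, hc]
      module
    rw [this]
    exact hdist _ i (by norm_num)
  · intro i hi
    exact hU i ⟨_, hi, by simp⟩

end Pool.Agent.NPC.ER.Geo
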