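import Pool.Agent.ER.Geo2
import Pool.Agent.ER.Macro

/-!
# The gadgets for unit distance graphs: the table and the two semantics
-/

namespace Pool.Agent.NPC.ER.Link

open Pool.Agent.NPC Pool.Agent.NPC.ER Geo Module
open scoped RealInnerProductSpace

/-- Argument. -/
abbrev aa (k : ℕ) : LV := (0, k)

/-- Auxiliary point. -/
abbrev xx (k : ℕ) : LV := (1, k)

/-- Global point. -/
abbrev zz (k : ℕ) : LV := (2, k)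

/-- Bipyramid: the points `a 0, …, a (d-1)` pairwise related, and all related to `p` and `q`. -/
def bip (s : ℕ) (p q : LV) (a : ℕ → LV) (d : ℕ) : Body :=
  ((List.range d).flatMap fun i => (List.range i).map fun j => (s, [a j, a i])) ++
    (List.range d).flatMap fun i => [(s, [p, a i]), (s, [q, a i])]

/-- Unit distance. -/
def bUD : Body := [(0, [aa 0, aa 1])]

/-- Distance `D`, from unit distances, and distance `D²`, from distances `D`. -/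
def bDist (s d : ℕ) : Body :=
  bip s (aa 0) (aa 1) xx d ++ (bip s (aa 0) (xx (2 * d)) (fun i => xx (d + i)) d ++
    [(0, [aa 1, xx (2 * d)])])

/-- Rods `(p, m, q)`: `|m - p| = 1` and `q - p = ℓ (m - p)`. -/
def bROD (d : ℕ) : Body :=
  bip 1 (aa 0) (aa 2) xx d ++ ((List.range d).map (fun i => (0, [aa 1, xx i])) ++
    [(0, [aa 0, aa 1]), (2, [aa 0, aa 2])])

/-- Parallelograms `(p, q, r, s)`: `s - r = q - p`. -/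
def bCP : Body :=
  [(3, [aa 0, xx 0, xx 2]), (3, [xx 6, xx 7, xx 9]), (3, [aa 2, xx 1, xx 3]),
    (3, [xx 0, aa 1, xx 4]), (3, [xx 7, xx 8, xx 10]), (3, [xx 1, aa 3, xx 5]),
    (0, [aa 0, xx 6]), (0, [xx 0, xx 7]), (0, [xx 2, xx 9]),
    (0, [xx 6, aa 2]), (0, [xx 7, xx 1]), (0, [xx 9, xx 3]),
    (0, [aa 1, xx 8]), (0, [xx 4, xx 10]),
    (0, [xx 8, aa 3]), (0, [xx 10, xx 5])]

/-- Perpendicularity `(p, q, n', o, n)`: `q - p ⟂ n - o`, when `n' = 2 o - n`. -/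
def bPERP : Body :=
  [(4, [aa 0, aa 1, xx 0, xx 1]), (4, [aa 3, aa 4, xx 0, xx 2]), (4, [aa 3, aa 2, xx 0, xx 3]),
    (4, [xx 0, xx 4, xx 5, xx 1]), (1, [xx 4, xx 2]), (1, [xx 4, xx 3]), (1, [xx 5, xx 2]),
    (1, [xx 5, xx 3])]

/-- Lines `(n', o, n)`: `|n - o| = 1` and `n' = 2 o - n`. -/
def bLINE : Body :=
  [(4, [aa 0, aa 1, xx 0, xx 1]), (4, [aa 1, aa 2, xx 1, xx 2]), (3, [xx 0, xx 1, xx 3]),
    (3, [xx 1, xx 2, xx 4]), (0, [xx 3, xx 4])]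

/-- The constant: `q - p = (ℓ - 1) ε`. -/
def bCONST : Body :=
  [(4, [zz 0, zz 1, xx 0, xx 1]), (3, [xx 0, xx 1, xx 2]), (4, [xx 1, xx 2, aa 0, aa 1])]

/-- Addition: `V₁ + V₂ = V₃ + ε`. -/
def bADD : Body :=
  [(4, [zz 0, zz 1, xx 0, xx 2]), (4, [aa 0, aa 1, xx 1, xx 3]), (4, [aa 2, aa 3, xx 4, xx 6]),
    (4, [aa 4, aa 5, xx 5, xx 7]), (4, [xx 0, xx 1, xx 4, xx 5]), (4, [xx 2, xx 3, xx 6, xx 7])]

/-- Orthonormal frames: the global points are `o`, `e 0, …, e (d-1)`, `e' 0, …, e' (d-1)`,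
`φ'`, `φ`. -/
def bFRAME (d : ℕ) : Body :=
  (List.range d).map (fun k => (6, [zz (1 + d + k), zz 0, zz (1 + k)])) ++
  (((List.range d).flatMap fun k => (List.range k).map fun i =>
    (5, [zz 0, zz (1 + i), zz (1 + d + k), zz 0, zz (1 + k)])) ++
  ((List.range (d - 2)).map (fun k =>
    (5, [zz 0, zz (2 + 2 * d), zz (1 + d + (2 + k)), zz 0, zz (1 + (2 + k))])) ++
  [(6, [zz (1 + 2 * d), zz 0, zz (2 + 2 * d)]),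
    (5, [zz 2, zz 1, zz (1 + 2 * d), zz 0, zz (2 + 2 * d)])]))

/-- Variables with two points. -/
def bVAR2 (d : ℕ) : Body :=
  (9, []) :: (List.range (d - 1)).map (fun k =>
    (5, [aa 0, aa 1, zz (1 + d + (1 + k)), zz 0, zz (1 + (1 + k))]))

/-- Variables with three points. -/
def bVAR3 (d : ℕ) : Body :=
  (10, [aa 0, aa 1]) :: (5, [aa 0, aa 2, zz (1 + d), zz 0, zz 1]) ::
    (5, [aa 2, aa 1, zz (1 + 2 * d), zz 0, zz (2 + 2 * d)]) ::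
    (List.range (d - 2)).map (fun k =>
      (5, [aa 0, aa 2, zz (1 + d + (2 + k)), zz 0, zz (1 + (2 + k))]))

/-- The constraint `y = ℓ - 1`. -/
def bYCST : Body := [(9, []), (7, [aa 0, aa 1])]

/-- The constraint `y₁ + y₂ = y₃ + 1`. -/
def bYADD : Body :=
  [(10, [aa 0, aa 1]), (10, [aa 2, aa 3]), (10, [aa 4, aa 5]),
    (8, [aa 0, aa 1, aa 2, aa 3, aa 4, aa 5])]

/-- The constraint `y₁ y₂ = y₃`. -/
def bYPROD (d : ℕ) : Body :=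
  (10, [aa 0, aa 1]) :: (11, [aa 2, aa 3, aa 4]) :: (10, [aa 5, aa 6]) ::
    (6, [xx 0, xx 1, xx 2]) ::
    (4, [aa 0, aa 1, xx 3, xx 4]) :: (4, [zz 0, zz 2, xx 4, xx 5]) ::
    (5, [xx 3, xx 5, xx 0, xx 1, xx 2]) ::
    (4, [aa 5, aa 6, xx 6, xx 7]) :: (4, [aa 2, aa 4, xx 7, xx 8]) ::
    (5, [xx 6, xx 8, xx 0, xx 1, xx 2]) ::
    (List.range (d - 2)).map (fun k =>
      (5, [xx 1, xx 2, zz (1 + d + (2 + k)), zz 0, zz (1 + (2 + k))]))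

/-- The table. -/
def tbl (d : ℕ) : List Body :=
  [bUD, bDist 0 d, bDist 1 d, bROD d, bCP, bPERP, bLINE, bCONST, bADD, bFRAME d, bVAR2 d, bVAR3 d,
    bYCST, bYADD, bYPROD d]

theorem tbl_symbols (d : ℕ) : ∀ s, ∀ c ∈ (tbl d).getD s [], c.1 ≤ s - 1 := by
  intro s
  match s with
  | 0 => simp [tbl, bUD]
  | 1 => simp [tbl, bDist, bip]; aesop
  | 2 => simp [tbl, bDist, bip]; aesop
  | 3 => simp [tbl, bROD, bip]; aesop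
  | 4 => simp [tbl, bCP]
  | 5 => simp [tbl, bPERP]
  | 6 => simp [tbl, bLINE]
  | 7 => simp [tbl, bCONST]
  | 8 => simp [tbl, bADD]
  | 9 => simp [tbl, bFRAME]; aesop
  | 10 => simp [tbl, bVAR2]
  | 11 => simp [tbl, bVAR3]
  | 12 => simp [tbl, bYCST]
  | 13 => simp [tbl, bYADD]
  | 14 => simp [tbl, bYPROD]
  | (n + 15) => simp [tbl]

section BH

variable {E : Type}

theorem bholds_append {sem : ℕ → (ℕ → E) → (ℕ → E) → Prop} {z a x : ℕ → E} {b b' : Body} :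
    BHolds sem z a x (b ++ b') ↔ BHolds sem z a x b ∧ BHolds sem z a x b' := by
  unfold BHolds
  exact List.forall_mem_append

theorem bholds_cons {sem : ℕ → (ℕ → E) → (ℕ → E) → Prop} {z a x : ℕ → E} {c : ℕ × List LV}
    {b : Body} : BHolds sem z a x (c :: b) ↔
      sem c.1 z (fun k => lval z a x (c.2.getD k (2, 0))) ∧ BHolds sem z a x b := by
  unfold BHolds
  exact List.forall_mem_cons

theorem bholds_nil {sem : ℕ → (ℕ → E) → (ℕ → E) → Prop} {z a x : ℕ → E} :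
    BHolds sem z a x [] := by
  unfold BHolds
  simp

theorem bholds_map_range {sem : ℕ → (ℕ → E) → (ℕ → E) → Prop} {z a x : ℕ → E} {n : ℕ}
    {f : ℕ → ℕ × List LV} : BHolds sem z a x ((List.range n).map f) ↔
      ∀ k < n, sem (f k).1 z (fun j => lval z a x ((f k).2.getD j (2, 0))) := by
  unfold BHolds
  simp only [List.forall_mem_map, List.mem_range]

theorem bholds_flatMap_range {sem : ℕ → (ℕ → E) → (ℕ → E) → Prop} {z a x : ℕ → E} {n : ℕ}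
    {f : ℕ → Body} : BHolds sem z a x ((List.range n).flatMap f) ↔
      ∀ k < n, BHolds sem z a x (f k) := by
  unfold BHolds
  simp only [List.mem_flatMap, List.mem_range]
  constructor
  · intro h k hk c hc
    exact h c ⟨k, hk, hc⟩
  · rintro h c ⟨k, hk, hc⟩
    exact h k hk c hc

@[simp] theorem lval_aa (z a x : ℕ → E) (k : ℕ) : lval z a x (aa k) = a k := rfl
@[simp] theorem lval_xx (z a x : ℕ → E) (k : ℕ) : lval z a x (xx k) = x k := rfl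
@[simp] theorem lval_zz (z a x : ℕ → E) (k : ℕ) : lval z a x (zz k) = z k := rfl

theorem bholds_bip [Dist E] {sem : ℕ → (ℕ → E) → (ℕ → E) → Prop} {δ : ℝ} {s : ℕ}
    (hcomm : ∀ x y : E, dist x y = dist y x)
    (hsem : ∀ z a, sem s z a ↔ dist (a 0) (a 1) = δ) {z a x : ℕ → E} {p q : LV} {b : ℕ → LV}
    {d : ℕ} : BHolds sem z a x (bip s p q b d) ↔
      (∀ i j : Fin d, i ≠ j → dist (lval z a x (b i)) (lval z a x (b j)) = δ) ∧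
      (∀ i : Fin d, dist (lval z a x p) (lval z a x (b i)) = δ) ∧
      (∀ i : Fin d, dist (lval z a x q) (lval z a x (b i)) = δ) := by
  unfold bip
  rw [bholds_append, bholds_flatMap_range, bholds_flatMap_range]
  simp only [bholds_map_range, bholds_cons, hsem, List.getD_cons_zero, List.getD_cons_succ,
    bholds_nil, and_true]
  constructor
  · rintro ⟨h1, h2⟩
    refine ⟨?_, fun i => (h2 i i.2).1, fun i => (h2 i i.2).2⟩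
    intro i j hij
    rcases lt_or_gt_of_ne hij with h | h
    · exact h1 j j.2 i h
    · rw [hcomm]
      exact h1 i i.2 j h
  · rintro ⟨h1, h2, h3⟩
    refine ⟨fun i hi j hj => h1 ⟨j, by omega⟩ ⟨i, hi⟩ (by simp only [ne_eq, Fin.mk.injEq]; omega),
      fun i hi => ⟨h2 ⟨i, hi⟩, h3 ⟨i, hi⟩⟩⟩

end BH

section Sem

variable {E : Type} [NormedAddCommGroup E] [InnerProductSpace ℝ E]

/-- The frame condition on the global points. -/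
structure FR (d : ℕ) (z : ℕ → E) : Prop where
  on : Orthonormal ℝ (fun k : Fin d => z (1 + k) - z 0)
  neg : ∀ k < d, z (1 + k) - z 0 = z 0 - z (1 + d + k)
  dn : ‖z (2 + 2 * d) - z 0‖ = 1
  dneg : z (2 + 2 * d) - z 0 = z 0 - z (1 + 2 * d)
  diag : ∃ α : ℝ, z (2 + 2 * d) - z 0 = α • ((z 1 - z 0) + (z 2 - z 0))

/-- The weak semantics. -/
def semS (d : ℕ) : ℕ → (ℕ → E) → (ℕ → E) → Prop
  | 0, _, a => dist (a 0) (a 1) = 1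
  | 1, _, a => dist (a 0) (a 1) = eD d
  | 2, _, a => dist (a 0) (a 1) = el d
  | 3, _, a => dist (a 0) (a 1) = 1 ∧ a 2 - a 0 = el d • (a 1 - a 0)
  | 4, _, a => a 3 - a 2 = a 1 - a 0
  | 5, _, a => a 4 - a 3 = a 3 - a 2 → ⟪a 1 - a 0, a 4 - a 3⟫ = 0
  | 6, _, a => ‖a 2 - a 1‖ = 1 ∧ a 2 - a 1 = a 1 - a 0
  | 7, z, a => a 1 - a 0 = (el d - 1) • (z 1 - z 0)
  | 8, z, a => (a 1 - a 0) + (a 3 - a 2) = (a 5 - a 4) + (z 1 - z 0)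
  | 9, z, _ => FR d z
  | 10, z, a => FR d z ∧ ∃ y : ℝ, a 1 - a 0 = y • (z 1 - z 0)
  | 11, z, a => FR d z ∧ ∃ y : ℝ, a 1 - a 0 = y • (z 1 - z 0) ∧ a 2 - a 0 = y • (z 2 - z 0)
  | 12, z, a => FR d z ∧ a 1 - a 0 = (el d - 1) • (z 1 - z 0)
  | 13, z, a => FR d z ∧ ∃ y₁ y₂ y₃ : ℝ, a 1 - a 0 = y₁ • (z 1 - z 0) ∧
      a 3 - a 2 = y₂ • (z 1 - z 0) ∧ a 5 - a 4 = y₃ • (z 1 - z 0) ∧ y₁ + y₂ = y₃ + 1
  | 14, z, a => FR d z ∧ ∃ y₁ y₂ y₃ : ℝ, a 1 - a 0 = y₁ • (z 1 - z 0) ∧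
      a 3 - a 2 = y₂ • (z 1 - z 0) ∧ a 6 - a 5 = y₃ • (z 1 - z 0) ∧ y₁ * y₂ = y₃
  | _, _, _ => True

/-- The strong semantics. -/
def semC (d : ℕ) : ℕ → (ℕ → E) → (ℕ → E) → Prop
  | 0, _, a => dist (a 0) (a 1) = 1
  | 1, _, a => dist (a 0) (a 1) = eD d
  | 2, _, a => dist (a 0) (a 1) = el d
  | 3, _, a => dist (a 0) (a 1) = 1 ∧ a 2 - a 0 = el d • (a 1 - a 0)
  | 4, _, a => a 3 - a 2 = a 1 - a 0 ∧ a 1 ≠ a 0 ∧ ‖a 1 - a 0‖ < 2 ∧ a 2 ≠ a 0 ∧ ‖a 2 - a 0‖ < 2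
  | 5, _, a => a 4 - a 3 = a 3 - a 2 ∧ ‖a 4 - a 3‖ = 1 ∧ a 1 ≠ a 0 ∧ ‖a 1 - a 0‖ < 2 ∧
      ⟪a 1 - a 0, a 4 - a 3⟫ = 0 ∧ ‖a 0 - a 3‖ < 2
  | 6, _, a => ‖a 2 - a 1‖ = 1 ∧ a 2 - a 1 = a 1 - a 0
  | 7, z, a => ‖z 1 - z 0‖ = 1 ∧ a 1 - a 0 = (el d - 1) • (z 1 - z 0) ∧ ‖a 0 - z 1‖ < 3 / 2
  | 8, z, a => (a 1 - a 0) + (a 3 - a 2) = (a 5 - a 4) + (z 1 - z 0) ∧ ‖z 1 - z 0‖ = 1 ∧
      (a 1 ≠ a 0 ∧ ‖a 1 - a 0‖ < 2 ∧ ‖a 0 - z 0‖ ≤ 1 / 4 ∧ ‖(a 1 - a 0) - (z 1 - z 0)‖ ≤ 1) ∧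
      (a 3 ≠ a 2 ∧ ‖a 3 - a 2‖ < 2 ∧ ‖a 2 - z 0‖ ≤ 1 / 4 ∧ ‖(a 3 - a 2) - (z 1 - z 0)‖ ≤ 1) ∧
      (a 5 ≠ a 4 ∧ ‖a 5 - a 4‖ < 2 ∧ ‖a 4 - z 0‖ ≤ 1 / 4)
  | 9, z, _ => FR d z
  | 10, z, a => FR d z ∧ ∃ y : ℝ, (1 / 4 ≤ y ∧ y ≤ 7 / 4) ∧ a 1 - a 0 = y • (z 1 - z 0) ∧
      ‖a 0 - z 0‖ ≤ 1 / 4
  | 11, z, a => FR d z ∧ ∃ y : ℝ, (1 / 4 ≤ y ∧ y ≤ 5 / 4) ∧ a 1 - a 0 = y • (z 1 - z 0) ∧
      a 2 - a 0 = y • (z 2 - z 0) ∧ ‖a 0 - z 0‖ ≤ 1 / 4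
  | 12, z, a => FR d z ∧ a 1 - a 0 = (el d - 1) • (z 1 - z 0) ∧ ‖a 0 - z 0‖ ≤ 1 / 4
  | 13, z, a => FR d z ∧ ∃ y₁ y₂ y₃ : ℝ, (1 / 4 ≤ y₁ ∧ y₁ ≤ 7 / 4) ∧ (1 / 4 ≤ y₂ ∧ y₂ ≤ 7 / 4) ∧
      (1 / 4 ≤ y₃ ∧ y₃ ≤ 7 / 4) ∧ a 1 - a 0 = y₁ • (z 1 - z 0) ∧
      a 3 - a 2 = y₂ • (z 1 - z 0) ∧ a 5 - a 4 = y₃ • (z 1 - z 0) ∧ y₁ + y₂ = y₃ + 1 ∧
      ‖a 0 - z 0‖ ≤ 1 / 4 ∧ ‖a 2 - z 0‖ ≤ 1 / 4 ∧ ‖a 4 - z 0‖ ≤ 1 / 4
  | 14, z, a => FR d z ∧ ∃ y₁ y₂ y₃ : ℝ, (1 / 4 ≤ y₁ ∧ y₁ ≤ 9 / 8) ∧ (1 / 4 ≤ y₂ ∧ y₂ ≤ 9 / 8) ∧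
      (1 / 4 ≤ y₃ ∧ y₃ ≤ 3 / 2) ∧ a 1 - a 0 = y₁ • (z 1 - z 0) ∧
      a 3 - a 2 = y₂ • (z 1 - z 0) ∧ a 4 - a 2 = y₂ • (z 2 - z 0) ∧
      a 6 - a 5 = y₃ • (z 1 - z 0) ∧ y₁ * y₂ = y₃ ∧
      ‖a 0 - z 0‖ ≤ 1 / 4 ∧ ‖a 2 - z 0‖ ≤ 1 / 4 ∧ ‖a 5 - z 0‖ ≤ 1 / 4
  | _, _, _ => False

end Sem

end Pool.Agent.NPC.ER.Link
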