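import Pool.Agent.ER.Link

/-!
# Soundness of the gadgets
-/

namespace Pool.Agent.NPC.ER.Link

open Pool.Agent.NPC Pool.Agent.NPC.ER Geo Module
open scoped RealInnerProductSpace

variable {E : Type} [NormedAddCommGroup E] [InnerProductSpace ℝ E] [FiniteDimensional ℝ E]

section

variable {d : ℕ} {z a x : ℕ → E}

theorem sound_bDist (hd : finrank ℝ E = d) (hd3 : 3 ≤ d) {s : ℕ} {δ : ℝ}
    (hsem : ∀ (z a : ℕ → E), semS d s z a ↔ dist (a 0) (a 1) = δ) (hδ : 0 < δ)
    (hne : δ * eD d ≠ 1) (h : BHolds (semS d) z a x (bDist s d)) :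
    dist (a 0) (a 1) = δ * eD d := by
  unfold bDist at h
  rw [bholds_append, bholds_append, bholds_bip dist_comm hsem, bholds_bip dist_comm hsem,
    bholds_cons] at h
  obtain ⟨⟨h1, h2, h3⟩, ⟨h4, h5, h6⟩, h7, -⟩ := h
  simp only [semS, List.getD_cons_zero, List.getD_cons_succ, lval_aa, lval_xx] at h1 h2 h3 h4 h5 h6 h7
  rcases bip_sound hd (by omega) hδ h1 h2 h3 with h8 | h8
  · exfalso
    rcases bip_sound hd (by omega) hδ h4 h5 h6 with h9 | h9
    · rw [← h8, h9, dist_self] at h7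
      norm_num at h7
    · rw [← h8, h9] at h7
      exact hne h7
  · exact h8

theorem sound_bROD (hd : finrank ℝ E = d) (hd3 : 3 ≤ d)
    (h : BHolds (semS d) z a x (bROD d)) :
    dist (a 0) (a 1) = 1 ∧ a 2 - a 0 = el d • (a 1 - a 0) := by
  unfold bROD at h
  rw [bholds_append, bholds_append, bholds_bip (δ := eD d) dist_comm (fun _ _ => Iff.rfl),
    bholds_map_range, bholds_cons, bholds_cons] at h
  obtain ⟨⟨h1, h2, h3⟩, h4, h5, h6, -⟩ := h
  simp only [semS, List.getD_cons_zero, List.getD_cons_succ, lval_aa, lval_xx] at h1 h2 h3 h4 h5 h6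
  refine ⟨h5, rod_sound hd (by omega) h1 h2 h3 (fun i => h4 i i.2) h5 ?_⟩
  intro he
  have := el_gt d (by omega)
  rw [he, dist_self] at h6
  linarith

omit [FiniteDimensional ℝ E] in
/-- Two rods with corresponding points at unit distance are parallel. -/
theorem rod_translate (hd3 : 3 ≤ d) {p m q p' m' q' : E} (h1 : q - p = el d • (m - p))
    (h2 : q' - p' = el d • (m' - p')) (hp : dist p p' = 1) (hm : dist m m' = 1)
    (hq : dist q q' = 1) : m' - p' = m - p := by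
  have hel := el_gt d (by omega)
  rw [dist_comm, dist_eq_norm] at hp hm hq
  have e : (m' - p') - (m - p) = 0 := by
    refine three_chords (a := p' - p) (l := el d) (by linarith) (by linarith) ?_ ?_
    · rw [hp, ← hm]
      congr 1
      abel
    · rw [hp, ← hq]
      congr 1
      rw [smul_sub, ← h1, ← h2]
      abel
  exact sub_eq_zero.1 e

omit [FiniteDimensional ℝ E] in
theorem sound_bCP (hd3 : 3 ≤ d) (h : BHolds (semS d) z a x bCP) :
    a 3 - a 2 = a 1 - a 0 := by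
  unfold bCP at h
  simp only [bholds_cons] at h
  simp only [semS, List.getD_cons_zero, List.getD_cons_succ, lval_aa, lval_xx] at h
  obtain ⟨⟨-, r1⟩, ⟨-, r2⟩, ⟨-, r3⟩, ⟨-, s1⟩, ⟨-, s2⟩, ⟨-, s3⟩, u1, u2, u3, u4, u5, u6, u7, u8, u9,
    u10, -⟩ := h
  have e1 := rod_translate hd3 r1 r2 u1 u2 u3
  have e2 := rod_translate hd3 r2 r3 u4 u5 u6
  have e3 := rod_translate hd3 s1 s2 u2 u7 u8
  have e4 := rod_translate hd3 s2 s3 u5 u9 u10
  linear_combination (norm := module) e1 + e2 + e3 + e4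

theorem inner_eq_zero_of_norm_eq {F : Type*} [NormedAddCommGroup F] [InnerProductSpace ℝ F]
    {u n : F} (h : ‖u - n‖ = ‖u + n‖) : ⟪u, n⟫ = 0 := by
  have e1 : ‖u - n‖ ^ 2 = ‖u + n‖ ^ 2 := by rw [h]
  rw [norm_sub_sq_real, norm_add_sq_real] at e1
  linarith

omit [FiniteDimensional ℝ E] in
theorem sound_bPERP (h : BHolds (semS d) z a x bPERP) :
    a 4 - a 3 = a 3 - a 2 → ⟪a 1 - a 0, a 4 - a 3⟫ = 0 := by
  intro hn
  unfold bPERP at h
  simp only [bholds_cons] at h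
  simp only [semS, List.getD_cons_zero, List.getD_cons_succ, lval_aa, lval_xx] at h
  obtain ⟨c1, c2, c3, c4, d1, d2, d3, d4, -⟩ := h
  rw [dist_eq_norm] at d1 d2 d3 d4
  have e1 : ⟪x 4 - x 0, a 4 - a 3⟫ = 0 := by
    apply inner_eq_zero_of_norm_eq
    have f1 : x 4 - x 0 - (a 4 - a 3) = x 4 - x 2 := by
      linear_combination (norm := module) c2
    have f2 : x 4 - x 0 + (a 4 - a 3) = x 4 - x 3 := by
      linear_combination (norm := module) c3 + hn
    rw [f1, f2, d1, d2]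
  have e2 : ⟪x 5 - x 0, a 4 - a 3⟫ = 0 := by
    apply inner_eq_zero_of_norm_eq
    have f1 : x 5 - x 0 - (a 4 - a 3) = x 5 - x 2 := by
      linear_combination (norm := module) c2
    have f2 : x 5 - x 0 + (a 4 - a 3) = x 5 - x 3 := by
      linear_combination (norm := module) c3 + hn
    rw [f1, f2, d3, d4]
  have e3 : a 1 - a 0 = (x 4 - x 0) + (x 5 - x 0) := by
    linear_combination (norm := module) c4 - c1
  rw [e3, inner_add_left, e1, e2, add_zero]

omit [FiniteDimensional ℝ E] in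
theorem sound_bLINE (hd3 : 3 ≤ d) (h : BHolds (semS d) z a x bLINE) :
    ‖a 2 - a 1‖ = 1 ∧ a 2 - a 1 = a 1 - a 0 := by
  unfold bLINE at h
  simp only [bholds_cons] at h
  simp only [semS, List.getD_cons_zero, List.getD_cons_succ, lval_aa, lval_xx] at h
  obtain ⟨c1, c2, ⟨d1, c3⟩, ⟨d2, c4⟩, d3, -⟩ := h
  have hel := el_gt d (by omega)
  rw [dist_comm, dist_eq_norm] at d1 d2 d3
  have n1 : ‖a 1 - a 0‖ = 1 := by rw [← c1]; exact d1
  have n2 : ‖a 2 - a 1‖ = 1 := by rw [← c2]; exact d2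
  have e : (a 2 - a 1) - (a 1 - a 0) = 0 := by
    refine three_chords (a := a 1 - a 0) (l := el d) (by linarith) (by linarith) ?_ ?_
    · rw [n1, ← n2]
      congr 1
      abel
    · rw [n1, ← d3]
      congr 1
      rw [smul_sub, ← c2, ← c1, ← c3, ← c4]
      abel
  exact ⟨n2, sub_eq_zero.1 e⟩

omit [FiniteDimensional ℝ E] in
theorem sound_bCONST (h : BHolds (semS d) z a x bCONST) :
    a 1 - a 0 = (el d - 1) • (z 1 - z 0) := by
  unfold bCONST at h
  simp only [bholds_cons] at h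
  simp only [semS, List.getD_cons_zero, List.getD_cons_succ, lval_aa, lval_xx, lval_zz] at h
  obtain ⟨c1, ⟨-, c2⟩, c3, -⟩ := h
  rw [c3, sub_smul, one_smul, ← c1, ← c2]
  abel

omit [FiniteDimensional ℝ E] in
theorem sound_bADD (h : BHolds (semS d) z a x bADD) :
    (a 1 - a 0) + (a 3 - a 2) = (a 5 - a 4) + (z 1 - z 0) := by
  unfold bADD at h
  simp only [bholds_cons] at h
  simp only [semS, List.getD_cons_zero, List.getD_cons_succ, lval_aa, lval_xx, lval_zz] at h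
  obtain ⟨c1, c2, c3, c4, c5, c6, -⟩ := h
  linear_combination (norm := module) c4 + c1 - c2 - c3 + c5 - c6

omit [FiniteDimensional ℝ E] in
theorem onb_ext (hd : finrank ℝ E = d) (hd0 : 0 < d) {e : Fin d → E} (he : Orthonormal ℝ e)
    {u : E} (h : ∀ k, ⟪u, e k⟫ = 0) : u = 0 := by
  have hne : Nonempty (Fin d) := ⟨⟨0, hd0⟩⟩
  have hspan : Submodule.span ℝ (Set.range e) = ⊤ :=
    he.linearIndependent.span_eq_top_of_card_eq_finrank (by rw [Fintype.card_fin, hd])
  have e2 : ∀ y ∈ Submodule.span ℝ (Set.range e), ⟪u, y⟫ = 0 := by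
    intro y hy
    induction hy using Submodule.span_induction with
    | mem y hy => obtain ⟨i, rfl⟩ := hy; exact h i
    | zero => exact inner_zero_right _
    | add y z _ _ h1 h2 => rw [inner_add_right, h1, h2, add_zero]
    | smul r y _ h1 => rw [inner_smul_right, h1, mul_zero]
  exact inner_self_eq_zero.1 (e2 u (by rw [hspan]; trivial))

omit [FiniteDimensional ℝ E] in
theorem FR.inner_self (h : FR d z) {k : ℕ} (hk : k < d) :
    ⟪z (1 + k) - z 0, z (1 + k) - z 0⟫ = 1 := by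
  rw [real_inner_self_eq_norm_sq]
  have := h.on.1 ⟨k, hk⟩
  simp only at this
  rw [this]
  norm_num

omit [FiniteDimensional ℝ E] in
theorem FR.inner_ne (h : FR d z) {i k : ℕ} (hi : i < d) (hk : k < d) (hik : i ≠ k) :
    ⟪z (1 + i) - z 0, z (1 + k) - z 0⟫ = 0 :=
  h.on.2 (i := ⟨i, hi⟩) (j := ⟨k, hk⟩) (by simpa using hik)

/-- A vector orthogonal to all basis vectors but two. -/
theorem plane_of_orth (hd : finrank ℝ E = d) (hd3 : 3 ≤ d)
    (he : Orthonormal ℝ (fun k : Fin d => z (1 + k) - z 0)) {v : E}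
    (hv : ∀ k, k < d - 2 → ⟪v, z (1 + (2 + k)) - z 0⟫ = 0) :
    v = ⟪v, z 1 - z 0⟫ • (z 1 - z 0) + ⟪v, z 2 - z 0⟫ • (z 2 - z 0) := by
  have i11 : ⟪z 1 - z 0, z 1 - z 0⟫ = (1 : ℝ) := by
    have := he.1 ⟨0, by omega⟩
    simp only [Nat.add_zero] at this
    rw [real_inner_self_eq_norm_sq, this]; norm_num
  have i22 : ⟪z 2 - z 0, z 2 - z 0⟫ = (1 : ℝ) := by
    have := he.1 ⟨1, by omega⟩
    simp only at this
    rw [real_inner_self_eq_norm_sq, this]; norm_num
  have i12 : ⟪z 1 - z 0, z 2 - z 0⟫ = (0 : ℝ) :=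
    he.2 (i := ⟨0, by omega⟩) (j := ⟨1, by omega⟩) (by simp)
  have i21 : ⟪z 2 - z 0, z 1 - z 0⟫ = (0 : ℝ) := by rw [real_inner_comm]; exact i12
  have key : v - (⟪v, z 1 - z 0⟫ • (z 1 - z 0) + ⟪v, z 2 - z 0⟫ • (z 2 - z 0)) = 0 := by
    refine onb_ext hd (by omega) he fun k => ?_
    obtain ⟨k, hk⟩ := k
    match k with
    | 0 =>
      change ⟪_, z 1 - z 0⟫ = 0
      rw [inner_sub_left, inner_add_left, inner_smul_left, inner_smul_left, i11, i21]
      simp
    | 1 =>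
      change ⟪_, z 2 - z 0⟫ = 0
      rw [inner_sub_left, inner_add_left, inner_smul_left, inner_smul_left, i12, i22]
      simp
    | k + 2 =>
      have e : 1 + (k + 2) = 1 + (2 + k) := by ring
      have h1 := hv k (by omega)
      have h2 : ⟪z 1 - z 0, z (1 + (k + 2)) - z 0⟫ = (0 : ℝ) :=
        he.2 (i := ⟨0, by omega⟩) (j := ⟨k + 2, hk⟩) (by simp)
      have h3 : ⟪z 2 - z 0, z (1 + (k + 2)) - z 0⟫ = (0 : ℝ) :=
        he.2 (i := ⟨1, by omega⟩) (j := ⟨k + 2, hk⟩) (by simp)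
      rw [← e] at h1
      change ⟪_, z (1 + (k + 2)) - z 0⟫ = 0
      rw [inner_sub_left, inner_add_left, inner_smul_left, inner_smul_left, h1, h2, h3]
      simp
  exact sub_eq_zero.1 key

theorem sound_bFRAME (hd : finrank ℝ E = d) (hd3 : 3 ≤ d) (h : BHolds (semS d) z a x (bFRAME d)) :
    FR d z := by
  unfold bFRAME at h
  simp only [bholds_append, bholds_map_range, bholds_flatMap_range, bholds_cons] at h
  simp only [semS, List.getD_cons_zero, List.getD_cons_succ, lval_zz] at h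
  obtain ⟨h1, h2, h3, ⟨h4, h4'⟩, h5, -⟩ := h
  have hin : ∀ i k, i < k → k < d → ⟪z (1 + i) - z 0, z (1 + k) - z 0⟫ = 0 :=
    fun i k hik hk => h2 k hk i hik (h1 k hk).2
  have hon : Orthonormal ℝ (fun k : Fin d => z (1 + k) - z 0) := by
    refine ⟨fun k => (h1 k k.2).1, ?_⟩
    intro i j hij
    rcases lt_or_gt_of_ne hij with h | h
    · exact hin i j h j.2
    · change ⟪z (1 + i) - z 0, z (1 + j) - z 0⟫ = 0
      rw [real_inner_comm]
      exact hin j i h i.2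
  have hpl := plane_of_orth hd hd3 hon (v := z (2 + 2 * d) - z 0)
    (fun k hk => h3 k hk (h1 (2 + k) (by omega)).2)
  have h6 := h5 h4'
  have i11 : ⟪z 1 - z 0, z 1 - z 0⟫ = (1 : ℝ) := by
    have := hon.1 ⟨0, by omega⟩
    simp only [Nat.add_zero] at this
    rw [real_inner_self_eq_norm_sq, this]; norm_num
  refine ⟨hon, fun k hk => (h1 k hk).2, h4, h4', ⟪z (2 + 2 * d) - z 0, z 1 - z 0⟫, ?_⟩
  have h7 : ⟪z (2 + 2 * d) - z 0, z 2 - z 0⟫ = ⟪z (2 + 2 * d) - z 0, z 1 - z 0⟫ := by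
    have e : z 1 - z 2 = (z 1 - z 0) - (z 2 - z 0) := by abel
    rw [e, inner_sub_left, real_inner_comm, real_inner_comm (z (2 + 2 * d) - z 0) (z 2 - z 0)]
      at h6
    linarith
  rw [smul_add]
  rw [h7] at hpl
  exact hpl

theorem sound_bVAR2 (hd : finrank ℝ E = d) (hd3 : 3 ≤ d)
    (h : BHolds (semS d) z a x (bVAR2 d)) :
    FR d z ∧ ∃ y : ℝ, a 1 - a 0 = y • (z 1 - z 0) := by
  unfold bVAR2 at h
  simp only [bholds_cons, bholds_map_range] at h
  simp only [semS, List.getD_cons_zero, List.getD_cons_succ, lval_aa, lval_zz] at h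
  obtain ⟨hF, h1⟩ := h
  refine ⟨hF, ⟪a 1 - a 0, z 1 - z 0⟫, ?_⟩
  have hv : ∀ k, k < d - 2 → ⟪a 1 - a 0, z (1 + (2 + k)) - z 0⟫ = 0 := by
    intro k hk
    have := h1 (1 + k) (by omega)
    have e : 1 + (1 + (1 + k)) = 1 + (2 + k) := by ring
    have e' : 1 + d + (1 + (1 + k)) = 1 + d + (2 + k) := by ring
    rw [e, e'] at this
    exact this (hF.neg (2 + k) (by omega))
  have h2 := plane_of_orth hd hd3 hF.on hv
  have h3 := h1 0 (by omega) (hF.neg 1 (by omega))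
  simp only [Nat.add_zero] at h3
  have h4 : ⟪a 1 - a 0, z 2 - z 0⟫ = 0 := h3
  rw [h4, zero_smul, add_zero] at h2
  exact h2

theorem sound_bVAR3 (hd : finrank ℝ E = d) (hd3 : 3 ≤ d)
    (h : BHolds (semS d) z a x (bVAR3 d)) :
    FR d z ∧ ∃ y : ℝ, a 1 - a 0 = y • (z 1 - z 0) ∧ a 2 - a 0 = y • (z 2 - z 0) := by
  unfold bVAR3 at h
  simp only [bholds_cons, bholds_map_range] at h
  simp only [semS, List.getD_cons_zero, List.getD_cons_succ, lval_aa, lval_zz] at h
  obtain ⟨⟨hF, y, hy⟩, h1, h2, h3⟩ := h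
  refine ⟨hF, y, hy, ?_⟩
  have h4 := plane_of_orth hd hd3 hF.on (v := a 2 - a 0)
    (fun k hk => h3 k hk (hF.neg (2 + k) (by omega)))
  have h5 : ⟪a 2 - a 0, z 1 - z 0⟫ = 0 := h1 (hF.neg 0 (by omega))
  rw [h5, zero_smul, zero_add] at h4
  obtain ⟨α, hα⟩ := hF.diag
  have h6 := h2 hF.dneg
  have hα0 : α ≠ 0 := by
    rintro rfl
    have := hF.dn
    rw [hα, zero_smul, norm_zero] at this
    norm_num at this
  have i11 : ⟪z 1 - z 0, z 1 - z 0⟫ = (1 : ℝ) := hF.inner_self (k := 0) (by omega)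
  have i22 : ⟪z 2 - z 0, z 2 - z 0⟫ = (1 : ℝ) := hF.inner_self (k := 1) (by omega)
  have i12 : ⟪z 1 - z 0, z 2 - z 0⟫ = (0 : ℝ) :=
    hF.inner_ne (i := 0) (k := 1) (by omega) (by omega) (by omega)
  have i21 : ⟪z 2 - z 0, z 1 - z 0⟫ = (0 : ℝ) := by rw [real_inner_comm]; exact i12
  set y' : ℝ := ⟪a 2 - a 0, z 2 - z 0⟫ with hy'
  have e1 : a 1 - a 2 = y • (z 1 - z 0) - y' • (z 2 - z 0) := by
    rw [← hy, ← h4]
    abel
  rw [e1, hα, inner_smul_right, inner_sub_left, inner_smul_left, inner_smul_left, inner_add_right,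
    inner_add_right, i11, i12, i21, i22] at h6
  simp only [RCLike.conj_to_real] at h6
  have h7 : y' = y := by
    rcases mul_eq_zero.1 h6 with h | h
    · exact absurd h hα0
    · linarith
  rw [h7] at h4
  exact h4

theorem sound_bYPROD (hd : finrank ℝ E = d) (hd3 : 3 ≤ d)
    (h : BHolds (semS d) z a x (bYPROD d)) :
    FR d z ∧ ∃ y₁ y₂ y₃ : ℝ, a 1 - a 0 = y₁ • (z 1 - z 0) ∧
      a 3 - a 2 = y₂ • (z 1 - z 0) ∧ a 6 - a 5 = y₃ • (z 1 - z 0) ∧ y₁ * y₂ = y₃ := by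
  unfold bYPROD at h
  simp only [bholds_cons, bholds_map_range] at h
  simp only [semS, List.getD_cons_zero, List.getD_cons_succ, lval_aa, lval_xx, lval_zz] at h
  obtain ⟨⟨hF, y₁, hy₁⟩, ⟨-, y₂, hy₂, hy₂'⟩, ⟨-, y₃, hy₃⟩, ⟨n1, n2⟩, c1, c2, p1, c3, c4, p2,
    h3⟩ := h
  refine ⟨hF, y₁, y₂, y₃, hy₁, hy₂, hy₃, ?_⟩
  have h4 := plane_of_orth hd hd3 hF.on (v := x 2 - x 1)
    (fun k hk => h3 k hk (hF.neg (2 + k) (by omega)))
  have i11 : ⟪z 1 - z 0, z 1 - z 0⟫ = (1 : ℝ) := hF.inner_self (k := 0) (by omega)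
  have i22 : ⟪z 2 - z 0, z 2 - z 0⟫ = (1 : ℝ) := hF.inner_self (k := 1) (by omega)
  have i12 : ⟪z 1 - z 0, z 2 - z 0⟫ = (0 : ℝ) :=
    hF.inner_ne (i := 0) (k := 1) (by omega) (by omega) (by omega)
  have i21 : ⟪z 2 - z 0, z 1 - z 0⟫ = (0 : ℝ) := by rw [real_inner_comm]; exact i12
  set n₀ : ℝ := ⟪x 2 - x 1, z 1 - z 0⟫ with hn0
  set n₁ : ℝ := ⟪x 2 - x 1, z 2 - z 0⟫ with hn1
  have p1' := p1 n2
  have p2' := p2 n2
  have e1 : x 5 - x 3 = y₁ • (z 1 - z 0) + (z 2 - z 0) := by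
    rw [← hy₁, ← c1, ← c2]
    abel
  have e2 : x 8 - x 6 = y₃ • (z 1 - z 0) + y₂ • (z 2 - z 0) := by
    rw [← hy₃, ← c3, ← hy₂', ← c4]
    abel
  rw [e1, h4] at p1'
  rw [e2, h4] at p2'
  simp only [inner_add_left, inner_add_right, inner_smul_left, inner_smul_right, i11, i12, i21,
    i22, RCLike.conj_to_real] at p1' p2'
  have hne : n₀ ≠ 0 := by
    intro h0
    rw [h0] at p1' h4
    have h1 : n₁ = 0 := by linarith
    rw [h1] at h4
    rw [h4] at n1
    simp at n1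
  have : n₀ * (y₁ * y₂ - y₃) = 0 := by linear_combination y₂ * p1' - p2'
  rcases mul_eq_zero.1 this with h | h
  · exact absurd h hne
  · linarith

omit [FiniteDimensional ℝ E] in
theorem FR.ne_zero (hd3 : 3 ≤ d) (h : FR d z) : z 1 - z 0 ≠ 0 := by
  intro h0
  have := h.inner_self (k := 0) (by omega)
  rw [Nat.add_zero, h0, inner_zero_left] at this
  norm_num at this

/-- **Soundness of the gadgets.** -/
theorem sound (hd : finrank ℝ E = d) (hd3 : 3 ≤ d) (s : ℕ) (z a x : ℕ → E)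
    (h : BHolds (semS d) z a x ((tbl d).getD s [])) : semS d s z a := by
  match s with
  | 0 =>
    have h' : BHolds (semS d) z a x bUD := h
    unfold bUD at h'
    rw [bholds_cons] at h'
    exact h'.1
  | 1 =>
    have h' : BHolds (semS d) z a x (bDist 0 d) := h
    have := sound_bDist hd hd3 (δ := 1) (fun _ _ => Iff.rfl) one_pos
      (by have := eD_gt d (by omega); linarith) h'
    rw [one_mul] at this
    exact this
  | 2 =>
    have h' : BHolds (semS d) z a x (bDist 1 d) := h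
    have hD := eD_sq d (by omega)
    have hl := el_gt d (by omega)
    have := sound_bDist hd hd3 (δ := eD d) (fun _ _ => Iff.rfl) (eD_pos d (by omega))
      (by rw [← sq, hD]; linarith) h'
    rw [← sq, hD] at this
    exact this
  | 3 => exact sound_bROD hd hd3 h
  | 4 => exact sound_bCP hd3 h
  | 5 => exact sound_bPERP h
  | 6 => exact sound_bLINE hd3 h
  | 7 => exact sound_bCONST h
  | 8 => exact sound_bADD h
  | 9 => exact sound_bFRAME hd hd3 h
  | 10 => exact sound_bVAR2 hd hd3 h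
  | 11 => exact sound_bVAR3 hd hd3 h
  | 12 =>
    have h' : BHolds (semS d) z a x bYCST := h
    unfold bYCST at h'
    simp only [bholds_cons] at h'
    exact ⟨h'.1, h'.2.1⟩
  | 13 =>
    have h' : BHolds (semS d) z a x bYADD := h
    unfold bYADD at h'
    simp only [bholds_cons] at h'
    simp only [semS, List.getD_cons_zero, List.getD_cons_succ, lval_aa] at h'
    obtain ⟨⟨hF, y₁, hy₁⟩, ⟨-, y₂, hy₂⟩, ⟨-, y₃, hy₃⟩, h5, -⟩ := h'
    refine ⟨hF, y₁, y₂, y₃, hy₁, hy₂, hy₃, ?_⟩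
    rw [hy₁, hy₂, hy₃] at h5
    have h6 : (y₁ + y₂ - (y₃ + 1)) • (z 1 - z 0) = 0 := by
      linear_combination (norm := module) h5
    rcases smul_eq_zero.1 h6 with h7 | h7
    · linarith
    · exact absurd h7 (hF.ne_zero hd3)
  | 14 => exact sound_bYPROD hd hd3 h
  | (n + 15) => trivial

end

end Pool.Agent.NPC.ER.Link
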