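import Pool.Agent.ER.Link2

/-!
# Completeness of the gadgets
-/

namespace Pool.Agent.NPC.ER.Link

open Pool.Agent.NPC Pool.Agent.NPC.ER Geo Module
open scoped RealInnerProductSpace

/-- Extension of an initial segment to an injective sequence. -/
theorem extend_fun {E : Type} [Infinite E] (N : ℕ) (x₀ : ℕ → E)
    (hinj : ∀ i < N, ∀ j < N, x₀ i = x₀ j → i = j) {A : Set E} (hA : A.Finite)
    (h : ∀ i < N, x₀ i ∉ A) : ∃ x : ℕ → E, Function.Injective x ∧ (∀ j, x j ∉ A) ∧
      ∀ j < N, x j = x₀ j := by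
  have hnd : ((List.range N).map x₀).Nodup := by
    refine (List.nodup_map_iff_inj_on List.nodup_range).2 ?_
    intro i hi j hj hij
    exact hinj i (List.mem_range.1 hi) j (List.mem_range.1 hj) hij
  have hav : ∀ y ∈ (List.range N).map x₀, y ∉ A := by
    intro y hy
    rw [List.mem_map] at hy
    obtain ⟨i, hi, rfl⟩ := hy
    exact h i (List.mem_range.1 hi)
  obtain ⟨x, h1, h2, h3⟩ := extend_list _ hnd hA hav
  refine ⟨x, h1, h2, fun j hj => ?_⟩
  rw [h3 j (by simpa using hj)]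
  simp

variable {E : Type} [NormedAddCommGroup E] [InnerProductSpace ℝ E] [FiniteDimensional ℝ E]

theorem infinite_of_finrank {d : ℕ} (hd : finrank ℝ E = d) (hd3 : 3 ≤ d) : Infinite E := by
  have : Nontrivial E := nontrivial_of_finrank_pos (R := ℝ) (by omega)
  exact Module.Free.infinite ℝ E

omit [FiniteDimensional ℝ E] in
theorem ball_avoid {d : ℕ} (hd : finrank ℝ E = d) (hd3 : 3 ≤ d) (c : E) {r : ℝ} (hr : 0 < r)
    {A : Set E} (hA : A.Finite) (K : List E) (hK : K.Nodup) :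
    ∃ L : E, ‖L - c‖ < r ∧ (K.map (fun k => L + k)).Nodup ∧ ∀ k ∈ K, L + k ∉ A := by
  have hnt : Nontrivial E := nontrivial_of_finrank_pos (R := ℝ) (by omega)
  have hne : (nhdsWithin c {c}ᶜ).NeBot := Module.punctured_nhds_neBot ℝ E c
  have hinf : (Metric.ball c r).Infinite := infinite_of_mem_nhds c (Metric.ball_mem_nhds c hr)
  obtain ⟨L, hL, h1, h2⟩ := affine_avoid hinf hA (K.map (fun k => ((1 : ℝ), k)))
    (by simp) (hK.map (fun a b h => by simpa using h))
  refine ⟨L, ?_, ?_, ?_⟩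
  · rw [← dist_eq_norm]
    exact hL
  · simpa [List.map_map, Function.comp_def] using h1
  · intro k hk
    have := h2 (1, k) (List.mem_map.2 ⟨k, hk, rfl⟩)
    simpa using this

/-- The statement of completeness for a body. -/
def Cpl (E : Type) [NormedAddCommGroup E] [InnerProductSpace ℝ E] (d : ℕ) (z a : ℕ → E)
    (b : Body) : Prop := ∀ A : Set E, A.Finite → ∃ x : ℕ → E, Function.Injective x ∧
      (∀ j, x j ∉ A) ∧ BHolds (semC d) z a x b

section

variable {d : ℕ} {z a : ℕ → E}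

theorem cpl_noaux (hd : finrank ℝ E = d) (hd3 : 3 ≤ d) {b : Body}
    (h : ∀ x : ℕ → E, BHolds (semC d) z a x b) : Cpl E d z a b := by
  intro A hA
  have hE := infinite_of_finrank hd hd3
  obtain ⟨x, h1, h2, -⟩ := extend_fun 0 (fun _ => (0 : E)) (by omega) hA (by omega)
  exact ⟨x, h1, h2, h x⟩

theorem cpl_bDist (hd : finrank ℝ E = d) (hd3 : 3 ≤ d) {s : ℕ} {δ : ℝ}
    (hsem : ∀ (z a : ℕ → E), semC d s z a ↔ dist (a 0) (a 1) = δ) (hδ : 0 < δ)
    (hne : 1 < δ * eD d) (h : dist (a 0) (a 1) = δ * eD d) : Cpl E d z a (bDist s d) := by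
  intro A hA
  have hE := infinite_of_finrank hd hd3
  set p := a 0 with hp
  set q := a 1 with hq
  have hW : ‖p - q‖ = δ * eD d := by rw [← dist_eq_norm]; exact h
  have hW0 : p - q ≠ 0 := by
    intro h0
    rw [h0, norm_zero] at hW
    linarith
  have hinf := infinite_slice (E := E) (by omega : 3 ≤ finrank ℝ E) (V := p - q) (ρ := 1)
    (β := 1 / 2) hW0 (by rw [hW]; nlinarith)
  obtain ⟨u, ⟨hu1, hu2⟩, -, hu3⟩ := affine_avoid hinf hA [((1 : ℝ), q)] (by simp) (by simp)
  have hu4 : u + q ∉ A := by simpa using hu3 (1, q) (by simp)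
  have hun : ‖u‖ = 1 := by
    rw [one_pow] at hu1
    exact (pow_eq_one_iff_of_nonneg (norm_nonneg _) (by norm_num)).1 hu1
  set q' := u + q with hq'
  have hqq' : dist q q' = 1 := by
    rw [dist_comm, dist_eq_norm, hq', add_sub_cancel_right, hun]
  have hpq' : dist p q' = δ * eD d := by
    rw [dist_eq_norm]
    have e1 : p - q' = (p - q) - u := by rw [hq']; abel
    have e2 : ‖(p - q) - u‖ ^ 2 = ‖p - q‖ ^ 2 := by
      rw [norm_sub_sq_real, hu1, hu2]
      ring
    rw [e1, ← hW]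
    exact (sq_eq_sq₀ (norm_nonneg _) (norm_nonneg _)).1 e2
  obtain ⟨b, hb1, hb2, hb3, hb4⟩ := simplex_exists hd hd3 hδ h (A := A ∪ {q'})
    (hA.union (Set.finite_singleton _))
  obtain ⟨c, hc1, hc2, hc3, hc4⟩ := simplex_exists hd hd3 hδ hpq' (A := A ∪ {q'} ∪ Set.range b)
    ((hA.union (Set.finite_singleton _)).union (Set.finite_range b))
  have hbi : ∀ i j, b i = b j → i = j := by
    intro i j hij
    by_contra hne
    have := hb1 i j hne
    rw [hij, dist_self] at this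
    linarith
  have hci : ∀ i j, c i = c j → i = j := by
    intro i j hij
    by_contra hne
    have := hc1 i j hne
    rw [hij, dist_self] at this
    linarith
  have hbq : ∀ i, b i ≠ q' := fun i hi => hb4 i (Or.inr hi)
  have hcq : ∀ i, c i ≠ q' := fun i hi => hc4 i (Or.inl (Or.inr hi))
  have hcb : ∀ i j, c i ≠ b j := fun i j hi => hc4 i (Or.inr ⟨j, hi.symm⟩)
  have hbA : ∀ i, b i ∉ A := fun i hi => hb4 i (Or.inl hi)
  have hcA : ∀ i, c i ∉ A := fun i hi => hc4 i (Or.inl (Or.inl hi))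
  let x₀ : ℕ → E := fun j => if h : j < d then b ⟨j, h⟩ else
    if h' : j - d < d then c ⟨j - d, h'⟩ else q'
  have hx0 : ∀ j (h : j < d), x₀ j = b ⟨j, h⟩ := fun j h => by simp only [x₀, dif_pos h]
  have hx1 : ∀ j (h : j < d), x₀ (d + j) = c ⟨j, h⟩ := fun j h => by
    have e1 : ¬ (d + j < d) := by omega
    have e2 : d + j - d < d := by omega
    simp only [x₀, dif_neg e1, dif_pos e2]
    congr 2
    omega
  have hx2 : x₀ (2 * d) = q' := by
    have e1 : ¬ (2 * d < d) := by omega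
    have e2 : ¬ (2 * d - d < d) := by omega
    simp only [x₀, dif_neg e1, dif_neg e2]
  have hcase : ∀ j < 2 * d + 1, (∃ h : j < d, x₀ j = b ⟨j, h⟩) ∨
      (∃ i, ∃ h : i < d, j = d + i ∧ x₀ j = c ⟨i, h⟩) ∨ (j = 2 * d ∧ x₀ j = q') := by
    intro j hj
    by_cases h1 : j < d
    · exact Or.inl ⟨h1, hx0 j h1⟩
    · by_cases h2 : j - d < d
      · refine Or.inr (Or.inl ⟨j - d, h2, by omega, ?_⟩)
        rw [← hx1 _ h2]
        congr 1
        omega
      · have : j = 2 * d := by omega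
        subst this
        exact Or.inr (Or.inr ⟨rfl, hx2⟩)
  have hinj : ∀ i < 2 * d + 1, ∀ j < 2 * d + 1, x₀ i = x₀ j → i = j := by
    intro i hi j hj hij
    rcases hcase i hi with ⟨h1, e1⟩ | ⟨i', h1, h1', e1⟩ | ⟨h1, e1⟩ <;>
    rcases hcase j hj with ⟨h2, e2⟩ | ⟨j', h2, h2', e2⟩ | ⟨h2, e2⟩ <;> rw [e1, e2] at hij
    · simpa using hbi _ _ hij
    · exact absurd hij.symm (hcb _ _)
    · exact absurd hij (hbq _)
    · exact absurd hij (hcb _ _)
    · have := hci _ _ hij
      simp only [Fin.mk.injEq] at this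
      omega
    · exact absurd hij (hcq _)
    · exact absurd hij.symm (hbq _)
    · exact absurd hij.symm (hcq _)
    · omega
  have hav : ∀ i < 2 * d + 1, x₀ i ∉ A := by
    intro j hj
    rcases hcase j hj with ⟨h2, e2⟩ | ⟨j', h2, h2', e2⟩ | ⟨h2, e2⟩ <;> rw [e2]
    · exact hbA _
    · exact hcA _
    · exact hu4
  obtain ⟨x, h1, h2, h3⟩ := extend_fun (2 * d + 1) x₀ hinj hA hav
  refine ⟨x, h1, h2, ?_⟩
  have e0 : ∀ i : Fin d, x i = b i := fun i => by rw [h3 _ (by omega), hx0 _ i.2]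
  have e1 : ∀ i : Fin d, x (d + i) = c i := fun i => by rw [h3 _ (by omega), hx1 _ i.2]
  have e2 : x (2 * d) = q' := by rw [h3 _ (by omega), hx2]
  unfold bDist
  rw [bholds_append, bholds_append, bholds_bip dist_comm hsem, bholds_bip dist_comm hsem,
    bholds_cons]
  simp only [semC, List.getD_cons_zero, List.getD_cons_succ, lval_aa, lval_xx, e0, e1, e2]
  exact ⟨⟨hb1, hb2, hb3⟩, ⟨hc1, hc2, hc3⟩, hqq', bholds_nil⟩

theorem cpl_bROD (hd : finrank ℝ E = d) (hd3 : 3 ≤ d)
    (h : dist (a 0) (a 1) = 1 ∧ a 2 - a 0 = el d • (a 1 - a 0)) : Cpl E d z a (bROD d) := by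
  intro A hA
  have hE := infinite_of_finrank hd hd3
  obtain ⟨h1, h2⟩ := h
  have hel := el_gt d (by omega)
  have hD := eD_pos d (by omega)
  have hD2 := eD_sq d (by omega)
  have h3 : dist (a 0) (a 2) = el d := by
    rw [dist_comm, dist_eq_norm, h2, norm_smul, ← dist_eq_norm, dist_comm, h1, mul_one,
      Real.norm_eq_abs, abs_of_pos (by linarith)]
  have h3' : dist (a 0) (a 2) = eD d * eD d := by rw [h3, ← hD2, sq]
  obtain ⟨b, hb1, hb2, hb3, hb4⟩ := simplex_exists hd hd3 hD h3' hA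
  have hbi : ∀ i j, b i = b j → i = j := by
    intro i j hij
    by_contra hne
    have := hb1 i j hne
    rw [hij, dist_self] at this
    linarith
  have hm : ∀ i, dist (a 1) (b i) = 1 := by
    intro i
    have e1 : ‖a 0 - b i‖ ^ 2 = el d := by rw [← dist_eq_norm, hb2, hD2]
    have e2 : ‖a 2 - b i‖ ^ 2 = el d := by rw [← dist_eq_norm, hb3, hD2]
    have e3 : a 2 - b i = (a 0 - b i) + el d • (a 1 - a 0) := by rw [← h2]; abel
    have e4 : a 1 - b i = (a 0 - b i) + (a 1 - a 0) := by abel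
    have e5 : ‖a 1 - a 0‖ = 1 := by rw [← dist_eq_norm, dist_comm]; exact h1
    rw [e3, norm_add_sq_real, e1, inner_smul_right, norm_smul, e5, mul_one, Real.norm_eq_abs,
      sq_abs] at e2
    have e6 : el d * (2 * ⟪a 0 - b i, a 1 - a 0⟫ + el d) = 0 := by linarith
    have e7 : 2 * ⟪a 0 - b i, a 1 - a 0⟫ + el d = 0 := by
      rcases mul_eq_zero.1 e6 with h | h
      · linarith
      · exact h
    have e8 : ‖a 1 - b i‖ ^ 2 = 1 := by
      rw [e4, norm_add_sq_real, e1, e5]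
      linarith
    rw [dist_eq_norm]
    exact (pow_eq_one_iff_of_nonneg (norm_nonneg _) (by norm_num)).1 e8
  let x₀ : ℕ → E := fun j => if h : j < d then b ⟨j, h⟩ else 0
  have hx0 : ∀ j (h : j < d), x₀ j = b ⟨j, h⟩ := fun j h => by simp only [x₀, dif_pos h]
  obtain ⟨x, g1, g2, g3⟩ := extend_fun d x₀ (fun i hi j hj hij => by
    rw [hx0 i hi, hx0 j hj] at hij
    simpa using hbi _ _ hij) hA (fun i hi => by rw [hx0 i hi]; exact hb4 _)
  refine ⟨x, g1, g2, ?_⟩
  have e0 : ∀ i : Fin d, x i = b i := fun i => by rw [g3 _ i.2, hx0 _ i.2]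
  unfold bROD
  rw [bholds_append, bholds_append, bholds_bip (δ := eD d) dist_comm (fun _ _ => Iff.rfl),
    bholds_map_range, bholds_cons, bholds_cons]
  simp only [semC, List.getD_cons_zero, List.getD_cons_succ, lval_aa, lval_xx, e0]
  refine ⟨⟨hb1, hb2, hb3⟩, fun i hi => ?_, h1, h3, bholds_nil⟩
  rw [e0 ⟨i, hi⟩]
  exact hm _

end

end Pool.Agent.NPC.ER.Link
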