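import Pool.Agent.ER.Link3

/-!
# Completeness of the gadgets, II
-/

namespace Pool.Agent.NPC.ER.Link

open Pool.Agent.NPC Pool.Agent.NPC.ER Geo Module
open scoped RealInnerProductSpace

variable {E : Type} [NormedAddCommGroup E] [InnerProductSpace ℝ E] [FiniteDimensional ℝ E]

variable {d : ℕ} {z a : ℕ → E}

theorem norm_eq_one_of_sq {E : Type*} [SeminormedAddCommGroup E] {v : E} (h : ‖v‖ ^ 2 = 1) :
    ‖v‖ = 1 :=
  (pow_eq_one_iff_of_nonneg (norm_nonneg _) (by norm_num)).1 h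

theorem quart {x : ℝ} (h0 : 0 < x) (h2 : x < 2) : (x ^ 2 / 2) ^ 2 < 1 ^ 2 * x ^ 2 := by
  have h3 : 0 < x ^ 2 := by positivity
  have h4 : 0 < 4 - x ^ 2 := by nlinarith
  nlinarith [mul_pos h3 h4]

theorem cpl_bCP (hd : finrank ℝ E = d) (hd3 : 3 ≤ d)
    (h : a 3 - a 2 = a 1 - a 0 ∧ a 1 ≠ a 0 ∧ ‖a 1 - a 0‖ < 2 ∧ a 2 ≠ a 0 ∧ ‖a 2 - a 0‖ < 2) :
    Cpl E d z a bCP := by
  intro A hA
  have hE := infinite_of_finrank hd hd3
  obtain ⟨h1, h2, h3, h4, h5⟩ := h
  set p := a 0 with hp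
  set r := a 2 with hr
  set V := a 1 - p with hV
  set W := r - p with hW
  have hq : a 1 = p + V := by rw [hV]; abel
  have hs : a 3 = r + V := by rw [← h1]; abel
  have hV0 : V ≠ 0 := sub_ne_zero.2 h2
  have hW0 : W ≠ 0 := sub_ne_zero.2 h4
  have hl := el_gt d (by omega)
  set l := el d with hldef
  have hVn : 0 < ‖V‖ := norm_pos_iff.2 hV0
  have hWn : 0 < ‖W‖ := norm_pos_iff.2 hW0
  -- first group
  have hinf := infinite_slice (E := E) (by omega : 3 ≤ finrank ℝ E) (V := V) (ρ := 1)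
    (β := ‖V‖ ^ 2 / 2) hV0 (quart hVn h3)
  have hA1 : (A ∪ {p, a 1, r, a 3}).Finite := hA.union (Set.toFinite _)
  have hpr : p ≠ r := fun h => h4 h.symm
  obtain ⟨u, ⟨hu1, hu2⟩, hu3, hu4⟩ := affine_avoid hinf hA1
    [((1 : ℝ), p), (1, r), (l, p), (l, r), (1 - l, p + l • V), (1 - l, r + l • V)]
    (by
      intro x hx
      simp only [List.mem_cons, List.not_mem_nil, or_false] at hx
      rcases hx with rfl | rfl | rfl | rfl | rfl | rfl <;> intro h <;> simp only at h <;> linarith)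
    (by
      have e1 : (1 : ℝ) ≠ l := by linarith
      have e2 : (1 : ℝ) ≠ 1 - l := by intro h; linarith
      have e3 : l ≠ 1 - l := by intro h; linarith
      simp only [List.nodup_cons, List.mem_cons, List.not_mem_nil, or_false, not_or, Prod.mk.injEq,
        e1, e2, e3, false_and, not_false_iff, true_and, and_true, hpr, List.nodup_nil,
        add_left_inj, or_false])
  simp only [List.map_cons, List.map_nil] at hu3
  have hun : ‖u‖ = 1 := norm_eq_one_of_sq (by rw [hu1]; norm_num)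
  have hVu : ‖V - u‖ = 1 := norm_eq_one_of_sq (by rw [norm_sub_sq_real, hu1, hu2]; ring)
  have av1 := hu4 (1, p) (by simp)
  have av2 := hu4 (1, r) (by simp)
  have av3 := hu4 (l, p) (by simp)
  have av4 := hu4 (l, r) (by simp)
  have av5 := hu4 (1 - l, p + l • V) (by simp)
  have av6 := hu4 (1 - l, r + l • V) (by simp)
  simp only at av1 av2 av3 av4 av5 av6
  set w := (1 : ℝ) • u + p with hw
  set ru := (1 : ℝ) • u + r with hru
  set R1 := l • u + p with hR1
  set R3 := l • u + r with hR3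
  set S1 := (1 - l) • u + (p + l • V) with hS1
  set S3 := (1 - l) • u + (r + l • V) with hS3
  simp only [Set.mem_union, Set.mem_insert_iff, Set.mem_singleton_iff, not_or] at av1 av2 av3 av4 av5 av6
  -- second group
  have hinf2 := infinite_slice (E := E) (by omega : 3 ≤ finrank ℝ E) (V := W) (ρ := 1)
    (β := ‖W‖ ^ 2 / 2) hW0 (quart hWn h5)
  have hA2 : (A ∪ {w, ru, R1, R3, S1, S3}).Finite := hA.union (Set.toFinite _)
  have hu3' := hu3
  simp only [List.nodup_cons, List.mem_cons, List.not_mem_nil, or_false, not_or] at hu3'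
  obtain ⟨⟨n12, n13, n14, n15, n16⟩, ⟨n23, n24, n25, n26⟩, ⟨n34, n35, n36⟩, ⟨n45, n46⟩, n56, -⟩ := hu3'
  obtain ⟨b, ⟨hb1, hb2⟩, hb3, hb4⟩ := affine_avoid hinf2 hA2
    [((1 : ℝ), p), (1, w), (1, a 1), (1, R1), (1, S1)]
    (by
      intro x hx
      simp only [List.mem_cons, List.not_mem_nil, or_false] at hx
      rcases hx with rfl | rfl | rfl | rfl | rfl <;> norm_num)
    (by
      simp only [List.nodup_cons, List.mem_cons, List.not_mem_nil, or_false, not_or, Prod.mk.injEq,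
        true_and, List.nodup_nil, and_true, not_false_iff]
      exact ⟨⟨Ne.symm av1.2.1, Ne.symm h2, Ne.symm av3.2.1, Ne.symm av5.2.1⟩,
        ⟨av1.2.2.1, n13, n15⟩, ⟨Ne.symm av3.2.2.1, Ne.symm av5.2.2.1⟩, n35⟩)
  simp only [List.map_cons, List.map_nil] at hb3
  have hbn : ‖b‖ = 1 := norm_eq_one_of_sq (by rw [hb1]; norm_num)
  have hWb : ‖W - b‖ = 1 := norm_eq_one_of_sq (by rw [norm_sub_sq_real, hb1, hb2]; ring)
  have bv1 := hb4 (1, p) (by simp)
  have bv2 := hb4 (1, w) (by simp)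
  have bv3 := hb4 (1, a 1) (by simp)
  have bv4 := hb4 (1, R1) (by simp)
  have bv5 := hb4 (1, S1) (by simp)
  simp only at bv1 bv2 bv3 bv4 bv5
  set z0 := (1 : ℝ) • b + p with hz0
  set zu := (1 : ℝ) • b + w with hzu
  set zV := (1 : ℝ) • b + a 1 with hzV
  set R2 := (1 : ℝ) • b + R1 with hR2
  set S2 := (1 : ℝ) • b + S1 with hS2
  have hb5 : ∀ y ∈ [z0, zu, zV, R2, S2], y ∉ A ∪ {w, ru, R1, R3, S1, S3} := by
    intro y hy
    simp only [List.mem_cons, List.not_mem_nil, or_false] at hy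
    rcases hy with rfl | rfl | rfl | rfl | rfl
    exacts [bv1, bv2, bv3, bv4, bv5]
  have hnd : ([w, ru, R1, R3, S1, S3] ++ [z0, zu, zV, R2, S2]).Nodup := by
    refine hu3.append hb3 ?_
    intro y hy hy'
    refine hb5 y hy' (Or.inr ?_)
    simpa only [List.mem_cons, List.not_mem_nil, or_false, Set.mem_insert_iff,
      Set.mem_singleton_iff] using hy
  have hav : ∀ y ∈ [w, ru, R1, R3, S1, S3] ++ [z0, zu, zV, R2, S2], y ∉ A := by
    intro y hy
    rcases List.mem_append.1 hy with hy | hy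
    · simp only [List.mem_cons, List.not_mem_nil, or_false] at hy
      rcases hy with rfl | rfl | rfl | rfl | rfl | rfl
      exacts [av1.1, av2.1, av3.1, av4.1, av5.1, av6.1]
    · exact fun h => hb5 y hy (Or.inl h)
  obtain ⟨x, g1, g2, g3⟩ := extend_list _ hnd hA hav
  refine ⟨x, g1, g2, ?_⟩
  have e0 : x 0 = w := g3 0 (by simp)
  have e1 : x 1 = ru := g3 1 (by simp)
  have e2 : x 2 = R1 := g3 2 (by simp)
  have e3 : x 3 = R3 := g3 3 (by simp)
  have e4 : x 4 = S1 := g3 4 (by simp)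
  have e5 : x 5 = S3 := g3 5 (by simp)
  have e6 : x 6 = z0 := g3 6 (by simp)
  have e7 : x 7 = zu := g3 7 (by simp)
  have e8 : x 8 = zV := g3 8 (by simp)
  have e9 : x 9 = R2 := g3 9 (by simp)
  have e10 : x 10 = S2 := g3 10 (by simp)
  unfold bCP
  simp only [bholds_cons, semC, List.getD_cons_zero, List.getD_cons_succ, lval_aa, lval_xx, e0, e1,
    e2, e3, e4, e5, e6, e7, e8, e9, e10, bholds_nil, and_true, ← hp, ← hr]
  have dist_of : ∀ {x y v : E}, y - x = v → ‖v‖ = 1 → dist x y = 1 := by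
    intro x y v h1 h2
    rw [dist_comm, dist_eq_norm, h1, h2]
  have dist_of' : ∀ {x y v : E}, x - y = v → ‖v‖ = 1 → dist x y = 1 := by
    intro x y v h1 h2
    rw [dist_eq_norm, h1, h2]
  have hrW : r = p + W := by rw [hW]; abel
  refine ⟨⟨dist_of (v := u) ?_ hun, ?_⟩, ⟨dist_of (v := u) ?_ hun, ?_⟩,
    ⟨dist_of (v := u) ?_ hun, ?_⟩, ⟨dist_of (v := V - u) ?_ hVu, ?_⟩,
    ⟨dist_of (v := V - u) ?_ hVu, ?_⟩, ⟨dist_of (v := V - u) ?_ hVu, ?_⟩,
    dist_of (v := b) ?_ hbn, dist_of (v := b) ?_ hbn, dist_of (v := b) ?_ hbn,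
    dist_of (v := W - b) ?_ hWb, dist_of (v := W - b) ?_ hWb, dist_of (v := W - b) ?_ hWb,
    dist_of (v := b) ?_ hbn, dist_of (v := b) ?_ hbn, dist_of (v := W - b) ?_ hWb,
    dist_of (v := W - b) ?_ hWb⟩ <;>
  · simp only [hw, hru, hR1, hR3, hS1, hS3, hz0, hzu, hzV, hR2, hS2, hq, hs, hrW]
    module

theorem cpl_bPERP (hd : finrank ℝ E = d) (hd3 : 3 ≤ d)
    (h : a 4 - a 3 = a 3 - a 2 ∧ ‖a 4 - a 3‖ = 1 ∧ a 1 ≠ a 0 ∧ ‖a 1 - a 0‖ < 2 ∧
      ⟪a 1 - a 0, a 4 - a 3⟫ = 0 ∧ ‖a 0 - a 3‖ < 2) : Cpl E d z a bPERP := by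
  intro A hA
  have hE := infinite_of_finrank hd hd3
  obtain ⟨h1, h2, h3, h4, h5, h6⟩ := h
  set p := a 0 with hp
  set o := a 3 with ho
  set V := a 1 - p with hV
  set ν := a 4 - o with hν
  have hq : a 1 = p + V := by rw [hV]; abel
  have hn : a 4 = o + ν := by rw [hν]; abel
  have hn' : a 2 = o - ν := by rw [h1]; abel
  have hV0 : V ≠ 0 := sub_ne_zero.2 h3
  have hVn : 0 < ‖V‖ := norm_pos_iff.2 hV0
  have hνν : ⟪ν, ν⟫ = (1 : ℝ) := by rw [real_inner_self_eq_norm_sq, h2]; norm_num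
  have hl := el_gt d (by omega)
  have hl' := el_le d hd3
  have hνV : ⟪ν, V⟫ = (0 : ℝ) := by rw [real_inner_comm]; exact h5
  -- the vector `c`
  obtain ⟨m, hm1, hm2, hm3⟩ := exists_unit_orthogonal_two (E := E) (by omega) V ν
  have hpos : 0 < el d - 1 - ‖V‖ ^ 2 / 4 := by nlinarith
  set k := √(el d - 1 - ‖V‖ ^ 2 / 4) with hk
  have hk0 : 0 < k := Real.sqrt_pos.2 hpos
  have hk2 : k ^ 2 = el d - 1 - ‖V‖ ^ 2 / 4 := Real.sq_sqrt hpos.le
  have hmm : ⟪m, m⟫ = (1 : ℝ) := by rw [real_inner_self_eq_norm_sq, hm1]; norm_num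
  have hmV : ⟪m, V⟫ = (0 : ℝ) := by rw [real_inner_comm]; exact hm2
  have hmν : ⟪m, ν⟫ = (0 : ℝ) := by rw [real_inner_comm]; exact hm3
  set α := (1 / 2 : ℝ) • V + k • m with hα
  set β := (1 / 2 : ℝ) • V - k • m with hβ
  have hαβ : α + β = V := by rw [hα, hβ]; module
  have hαn : ‖α‖ ^ 2 = el d - 1 := by
    rw [hα, norm_add_sq_real, norm_smul, norm_smul, inner_smul_left, inner_smul_right, hm2, hm1,
      mul_pow, mul_one, Real.norm_eq_abs, Real.norm_eq_abs, sq_abs, sq_abs, hk2]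
    ring
  have hβn : ‖β‖ ^ 2 = el d - 1 := by
    rw [hβ, norm_sub_sq_real, norm_smul, norm_smul, inner_smul_left, inner_smul_right, hm2, hm1,
      mul_pow, mul_one, Real.norm_eq_abs, Real.norm_eq_abs, sq_abs, sq_abs, hk2]
    ring
  have hαν : ⟪α, ν⟫ = 0 := by
    rw [hα, inner_add_left, inner_smul_left, inner_smul_left, h5, hmν]; simp
  have hβν : ⟪β, ν⟫ = 0 := by
    rw [hβ, inner_sub_left, inner_smul_left, inner_smul_left, h5, hmν]; simp
  have hα0 : α ≠ 0 := by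
    intro h0
    rw [h0, norm_zero] at hαn
    linarith
  have hβ0 : β ≠ 0 := by
    intro h0
    rw [h0, norm_zero] at hβn
    linarith
  have hν0 : ν ≠ 0 := by
    intro h0
    rw [h0, norm_zero] at h2
    norm_num at h2
  have hαb : ‖α‖ < 2 := by
    have := norm_nonneg α
    nlinarith
  have hβb : ‖β‖ < 2 := by
    have := norm_nonneg β
    nlinarith
  -- distinctness
  have orth_ne : ∀ {v : E}, ⟪v, ν⟫ = 0 → v ≠ ν := by
    intro v hv he
    rw [he, hνν] at hv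
    norm_num at hv
  have orth_ne' : ∀ {v : E}, ⟪v, ν⟫ = 0 → v ≠ -ν := by
    intro v hv he
    rw [he, inner_neg_left, hνν] at hv
    norm_num at hv
  have hνneg : ν ≠ -ν := by
    intro he
    have : ⟪ν, ν⟫ = ⟪ν, -ν⟫ := by rw [← he]
    rw [inner_neg_right, hνν] at this
    norm_num at this
  have hαβne : α ≠ β := by
    intro he
    have h7 : (2 * k) • m = 0 := by
      have : (2 * k) • m = α - β := by rw [hα, hβ]; module
      rw [this, he, sub_self]
    rcases smul_eq_zero.1 h7 with h8 | h8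
    · linarith
    · rw [h8, norm_zero] at hm1
      norm_num at hm1
  have hVα : V ≠ α := by
    intro he
    apply hβ0
    rw [← hαβ] at he
    exact left_eq_add.1 he.symm
  have hVβ : V ≠ β := by
    intro he
    apply hα0
    rw [← hαβ] at he
    exact right_eq_add.1 he.symm
  have hK : [0, V, ν, -ν, α, β].Nodup := by
    simp only [List.nodup_cons, List.mem_cons, List.not_mem_nil, or_false, not_or, List.nodup_nil,
      and_true, not_false_iff]
    refine ⟨⟨hV0.symm, hν0.symm, ?_, hα0.symm, hβ0.symm⟩, ⟨orth_ne h5, orth_ne' h5, hVα, hVβ⟩,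
      ⟨hνneg, (orth_ne hαν).symm, (orth_ne hβν).symm⟩, ⟨(orth_ne' hαν).symm, (orth_ne' hβν).symm⟩,
      hαβne⟩
    intro he
    exact hν0 (neg_eq_zero.1 he.symm)
  have hA1 : (A ∪ {p, o}).Finite := hA.union (Set.toFinite _)
  obtain ⟨L, hL1, hL2, hL3⟩ := ball_avoid hd hd3 ((1 / 2 : ℝ) • (p + o)) one_pos hA1 _ hK
  simp only [List.map_cons, List.map_nil] at hL2
  have hav : ∀ y ∈ [L + 0, L + V, L + ν, L + -ν, L + α, L + β], y ∉ A := by
    intro y hy
    simp only [List.mem_cons, List.not_mem_nil, or_false] at hy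
    rcases hy with rfl | rfl | rfl | rfl | rfl | rfl
    exacts [fun h => hL3 0 (by simp) (Or.inl h), fun h => hL3 V (by simp) (Or.inl h),
      fun h => hL3 ν (by simp) (Or.inl h), fun h => hL3 (-ν) (by simp) (Or.inl h),
      fun h => hL3 α (by simp) (Or.inl h), fun h => hL3 β (by simp) (Or.inl h)]
  have hL0 := hL3 0 (by simp)
  rw [add_zero] at hL0
  simp only [Set.mem_union, Set.mem_insert_iff, Set.mem_singleton_iff, not_or] at hL0
  obtain ⟨-, hLp, hLo⟩ := hL0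
  have hpo : ‖(1 / 2 : ℝ) • (p - o)‖ < 1 := by
    rw [norm_smul, Real.norm_eq_abs, abs_of_pos (by norm_num)]
    linarith
  have hLpn : ‖L - p‖ < 2 := by
    have e : L - p = (L - (1 / 2 : ℝ) • (p + o)) - (1 / 2 : ℝ) • (p - o) := by module
    rw [e]
    refine (norm_sub_le _ _).trans_lt ?_
    linarith
  have hLon : ‖L - o‖ < 2 := by
    have e : L - o = (L - (1 / 2 : ℝ) • (p + o)) + (1 / 2 : ℝ) • (p - o) := by module
    rw [e]
    refine (norm_add_le _ _).trans_lt ?_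
    linarith
  obtain ⟨x, g1, g2, g3⟩ := extend_list _ hL2 hA hav
  refine ⟨x, g1, g2, ?_⟩
  have e0 : x 0 = L := by rw [g3 0 (by simp)]; exact add_zero _
  have e1 : x 1 = L + V := g3 1 (by simp)
  have e2 : x 2 = L + ν := g3 2 (by simp)
  have e3 : x 3 = L + -ν := g3 3 (by simp)
  have e4 : x 4 = L + α := g3 4 (by simp)
  have e5 : x 5 = L + β := g3 5 (by simp)
  have hdist : ∀ {v w : E}, ‖v‖ ^ 2 = el d - 1 → ⟪v, ν⟫ = 0 →
      (w = v - ν ∨ w = v + ν) → ‖w‖ = eD d := by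
    intro v w hv hvν hw
    have hD := eD_pos d (by omega)
    have hD2 := eD_sq d (by omega)
    refine (sq_eq_sq₀ (norm_nonneg _) hD.le).1 ?_
    rcases hw with rfl | rfl
    · rw [norm_sub_sq_real, hv, hvν, h2, hD2]; ring
    · rw [norm_add_sq_real, hv, hvν, h2, hD2]; ring
  unfold bPERP
  simp only [bholds_cons, semC, List.getD_cons_zero, List.getD_cons_succ, lval_aa, lval_xx, e0, e1,
    e2, e3, e4, e5, bholds_nil, and_true, ← hp, ← ho, dist_eq_norm]
  refine ⟨⟨?_, h3, h4, hLp, hLpn⟩, ⟨?_, ?_, ?_, hLo, hLon⟩, ⟨?_, ?_, ?_, hLo, hLon⟩,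
    ⟨?_, ?_, ?_, ?_, ?_⟩, ?_, ?_, ?_, ?_⟩
  · rw [← hV]; abel
  · rw [← hν]; abel
  · rw [hn]
    intro h0
    exact hν0 (add_eq_left.1 h0)
  · rw [← hν, h2]; norm_num
  · rw [hn']; abel
  · rw [hn']
    intro h0
    exact hν0 (sub_eq_self.1 h0)
  · rw [hn']
    have : o - ν - o = -ν := by abel
    rw [this, norm_neg, h2]
    norm_num
  · rw [← hαβ]; abel
  · intro h0
    exact hα0 (add_eq_left.1 h0)
  · rw [add_sub_cancel_left]; exact hαb
  · intro h0
    exact hβ0 (add_eq_left.1 h0)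
  · rw [add_sub_cancel_left]; exact hβb
  · exact hdist hαn hαν (Or.inl (by abel))
  · exact hdist hαn hαν (Or.inr (by abel))
  · exact hdist hβn hβν (Or.inl (by abel))
  · exact hdist hβn hβν (Or.inr (by abel))

end Pool.Agent.NPC.ER.Link
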