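import Pool.Agent.ER.Link4

/-!
# Completeness of the gadgets, III
-/

namespace Pool.Agent.NPC.ER.Link

open Pool.Agent.NPC Pool.Agent.NPC.ER Geo Module
open scoped RealInnerProductSpace

variable {E : Type} [NormedAddCommGroup E] [InnerProductSpace ℝ E] [FiniteDimensional ℝ E]

variable {d : ℕ} {z a : ℕ → E}

theorem cpl_bLINE (hd : finrank ℝ E = d) (hd3 : 3 ≤ d)
    (h : ‖a 2 - a 1‖ = 1 ∧ a 2 - a 1 = a 1 - a 0) : Cpl E d z a bLINE := by
  intro A hA
  have hE := infinite_of_finrank hd hd3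
  obtain ⟨h1, h2⟩ := h
  set o := a 1 with ho
  set ν := a 2 - o with hν
  have hn : a 2 = o + ν := by rw [hν]; abel
  have hn' : a 0 = o - ν := by rw [h2]; abel
  have hl := el_gt d (by omega)
  have hν0 : ν ≠ 0 := by
    intro h0
    rw [h0, norm_zero] at h1
    norm_num at h1
  have hne : ∀ {s t : ℝ}, s ≠ t → s • ν ≠ t • ν := by
    intro s t hst h
    have : (s - t) • ν = 0 := by rw [sub_smul, h, sub_self]
    rcases smul_eq_zero.1 this with h | h
    · exact hst (by linarith)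
    · exact hν0 h
  have hK : [(0 : ℝ) • ν, (1 : ℝ) • ν, (2 : ℝ) • ν, el d • ν, (1 + el d) • ν].Nodup := by
    simp only [List.nodup_cons, List.mem_cons, List.not_mem_nil, or_false, not_or, List.nodup_nil,
      and_true, not_false_iff]
    refine ⟨⟨hne (by norm_num), hne (by norm_num), hne (by linarith), hne (by linarith)⟩,
      ⟨hne (by norm_num), hne (by linarith), hne (by linarith)⟩,
      ⟨hne (by linarith), hne ?_⟩, hne (by linarith)⟩
    intro h
    linarith
  have hA1 : (A ∪ {a 0}).Finite := hA.union (Set.toFinite _)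
  obtain ⟨L, hL1, hL2, hL3⟩ := ball_avoid hd hd3 (a 0) one_pos hA1 _ hK
  simp only [List.map_cons, List.map_nil] at hL2
  have hav : ∀ y ∈ [L + (0 : ℝ) • ν, L + (1 : ℝ) • ν, L + (2 : ℝ) • ν, L + el d • ν,
      L + (1 + el d) • ν], y ∉ A := by
    intro y hy hyA
    simp only [List.mem_cons, List.not_mem_nil, or_false] at hy
    rcases hy with rfl | rfl | rfl | rfl | rfl
    exacts [hL3 _ (by simp) (Or.inl hyA), hL3 _ (by simp) (Or.inl hyA),
      hL3 _ (by simp) (Or.inl hyA), hL3 _ (by simp) (Or.inl hyA), hL3 _ (by simp) (Or.inl hyA)]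
  have hL0 := hL3 ((0 : ℝ) • ν) (by simp)
  rw [zero_smul, add_zero] at hL0
  have hL0' : L ≠ a 0 := fun h => hL0 (Or.inr h)
  obtain ⟨x, g1, g2, g3⟩ := extend_list _ hL2 hA hav
  refine ⟨x, g1, g2, ?_⟩
  have e0 : x 0 = L := by rw [g3 0 (by simp)]; simp
  have e1 : x 1 = L + ν := by rw [g3 1 (by simp)]; simp
  have e2 : x 2 = L + (2 : ℝ) • ν := g3 2 (by simp)
  have e3 : x 3 = L + el d • ν := g3 3 (by simp)
  have e4 : x 4 = L + (1 + el d) • ν := g3 4 (by simp)
  have eL : L + ν - o = L - a 0 := by rw [hn']; abel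
  have dist_of : ∀ {x y : E}, y - x = ν → dist x y = 1 := by
    intro x y h3
    rw [dist_comm, dist_eq_norm, h3, h1]
  unfold bLINE
  simp only [bholds_cons, semC, List.getD_cons_zero, List.getD_cons_succ, lval_aa, lval_xx, e0, e1,
    e2, e3, e4, bholds_nil, and_true, ← ho]
  refine ⟨⟨?_, ?_, ?_, hL0', by linarith⟩, ⟨?_, ?_, ?_, ?_, ?_⟩, ⟨dist_of ?_, ?_⟩,
    ⟨dist_of ?_, ?_⟩, dist_of ?_⟩
  · rw [← h2]; abel
  · intro h
    rw [← h, sub_self] at h2
    exact hν0 h2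
  · rw [← h2, h1]; norm_num
  · rw [← hν]; module
  · intro h
    rw [hν, h, sub_self] at hν0
    exact hν0 rfl
  · rw [← hν, h1]; norm_num
  · intro h
    rw [h, sub_self] at eL
    exact hL0' (sub_eq_zero.1 eL.symm)
  · rw [eL]; linarith
  · abel
  · module
  · module
  · module
  · module

theorem cpl_bCONST (hd : finrank ℝ E = d) (hd3 : 3 ≤ d)
    (h : ‖z 1 - z 0‖ = 1 ∧ a 1 - a 0 = (el d - 1) • (z 1 - z 0) ∧ ‖a 0 - z 1‖ < 3 / 2) :
    Cpl E d z a bCONST := by
  intro A hA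
  have hE := infinite_of_finrank hd hd3
  obtain ⟨h1, h2, h3⟩ := h
  set o := z 0 with ho
  set ε := z 1 - o with hε
  have hz1 : z 1 = o + ε := by rw [hε]; abel
  have hl := el_gt d (by omega)
  have hl' := el_le d hd3
  have hε0 : ε ≠ 0 := by
    intro h0
    rw [h0, norm_zero] at h1
    norm_num at h1
  have hne : ∀ {s t : ℝ}, s ≠ t → s • ε ≠ t • ε := by
    intro s t hst h
    have : (s - t) • ε = 0 := by rw [sub_smul, h, sub_self]
    rcases smul_eq_zero.1 this with h | h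
    · exact hst (by linarith)
    · exact hε0 h
  have hK : [(0 : ℝ) • ε, (1 : ℝ) • ε, el d • ε].Nodup := by
    simp only [List.nodup_cons, List.mem_cons, List.not_mem_nil, or_false, not_or, List.nodup_nil,
      and_true, not_false_iff]
    exact ⟨⟨hne (by norm_num), hne (by linarith)⟩, hne (by linarith)⟩
  have hA1 : (A ∪ {o, a 0}).Finite := hA.union (Set.toFinite _)
  obtain ⟨L, hL1, hL2, hL3⟩ := ball_avoid hd hd3 o (r := 1 / 2) (by norm_num) hA1 _ hK
  simp only [List.map_cons, List.map_nil] at hL2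
  have hav : ∀ y ∈ [L + (0 : ℝ) • ε, L + (1 : ℝ) • ε, L + el d • ε], y ∉ A := by
    intro y hy hyA
    simp only [List.mem_cons, List.not_mem_nil, or_false] at hy
    rcases hy with rfl | rfl | rfl
    exacts [hL3 _ (by simp) (Or.inl hyA), hL3 _ (by simp) (Or.inl hyA),
      hL3 _ (by simp) (Or.inl hyA)]
  have hL0 := hL3 ((0 : ℝ) • ε) (by simp)
  have hL1' := hL3 ((1 : ℝ) • ε) (by simp)
  rw [zero_smul, add_zero] at hL0
  rw [one_smul] at hL1'
  have hLo : L ≠ o := fun h => hL0 (Or.inr (Or.inl h))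
  have hLa : a 0 ≠ L + ε := fun h => hL1' (Or.inr (Or.inr h.symm))
  obtain ⟨x, g1, g2, g3⟩ := extend_list _ hL2 hA hav
  refine ⟨x, g1, g2, ?_⟩
  have e0 : x 0 = L := by rw [g3 0 (by simp)]; simp
  have e1 : x 1 = L + ε := by rw [g3 1 (by simp)]; simp
  have e2 : x 2 = L + el d • ε := g3 2 (by simp)
  unfold bCONST
  simp only [bholds_cons, semC, List.getD_cons_zero, List.getD_cons_succ, lval_aa, lval_xx,
    lval_zz, e0, e1, e2, bholds_nil, and_true, ← ho]
  refine ⟨⟨?_, ?_, ?_, hLo, by linarith⟩, ⟨?_, ?_⟩, ⟨?_, ?_, ?_, hLa, ?_⟩⟩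
  · rw [← hε]; abel
  · intro h
    rw [hε, h, sub_self] at hε0
    exact hε0 rfl
  · rw [← hε, h1]; norm_num
  · rw [dist_comm, dist_eq_norm, add_sub_cancel_left, h1]
  · module
  · rw [h2]; module
  · intro h
    have h4 : (el d - 1) • ε = 0 := by
      have : (el d - 1) • ε = L + el d • ε - (L + ε) := by module
      rw [this, h, sub_self]
    rcases smul_eq_zero.1 h4 with h5 | h5
    · linarith
    · exact hε0 h5
  · have : L + el d • ε - (L + ε) = (el d - 1) • ε := by module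
    rw [this, norm_smul, h1, mul_one, Real.norm_eq_abs, abs_of_pos (by linarith)]
    linarith
  · have : a 0 - (L + ε) = (a 0 - z 1) - (L - o) := by rw [hz1]; abel
    rw [this]
    refine (norm_sub_le _ _).trans_lt ?_
    linarith

theorem cpl_bADD (hd : finrank ℝ E = d) (hd3 : 3 ≤ d)
    (h : (a 1 - a 0) + (a 3 - a 2) = (a 5 - a 4) + (z 1 - z 0) ∧ ‖z 1 - z 0‖ = 1 ∧
      (a 1 ≠ a 0 ∧ ‖a 1 - a 0‖ < 2 ∧ ‖a 0 - z 0‖ ≤ 1 / 4 ∧ ‖(a 1 - a 0) - (z 1 - z 0)‖ ≤ 1) ∧
      (a 3 ≠ a 2 ∧ ‖a 3 - a 2‖ < 2 ∧ ‖a 2 - z 0‖ ≤ 1 / 4 ∧ ‖(a 3 - a 2) - (z 1 - z 0)‖ ≤ 1) ∧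
      (a 5 ≠ a 4 ∧ ‖a 5 - a 4‖ < 2 ∧ ‖a 4 - z 0‖ ≤ 1 / 4)) :
    Cpl E d z a bADD := by
  intro A hA
  have hE := infinite_of_finrank hd hd3
  obtain ⟨h0, hε1, ⟨n1, b1, c1, k1⟩, ⟨n2, b2, c2, k2⟩, ⟨n3, b3, c3⟩⟩ := h
  set o := z 0 with ho
  set ε := z 1 - o with hε
  set V1 := a 1 - a 0 with hV1
  set V2 := a 3 - a 2 with hV2
  set V3 := a 5 - a 4 with hV3
  have hε0 : ε ≠ 0 := by
    intro h0
    rw [h0, norm_zero] at hε1
    norm_num at hε1
  have hV10 : V1 ≠ 0 := sub_ne_zero.2 n1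
  have hV20 : V2 ≠ 0 := sub_ne_zero.2 n2
  have hV30 : V3 ≠ 0 := sub_ne_zero.2 n3
  have hB : ({0, ε, -V1, ε - V1, V2, -V3, V2 - V3} : Set E).Finite := Set.toFinite _
  obtain ⟨g, hg1, -, hg2⟩ := ball_avoid hd hd3 (0 : E) (r := 1 / 4) (by norm_num) hB [0] (by simp)
  have hg3 := hg2 0 (by simp)
  rw [add_zero] at hg3
  rw [sub_zero] at hg1
  simp only [Set.mem_insert_iff, Set.mem_singleton_iff, not_or] at hg3
  obtain ⟨q1, q2, q3, q4, q5, q6, q7⟩ := hg3
  have hK1 : [0, g, ε, g + V1].Nodup := by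
    simp only [List.nodup_cons, List.mem_cons, List.not_mem_nil, or_false, not_or, List.nodup_nil,
      and_true, not_false_iff]
    refine ⟨⟨Ne.symm q1, hε0.symm, ?_⟩, ⟨q2, ?_⟩, ?_⟩
    · intro h; exact q3 (eq_neg_of_add_eq_zero_left h.symm)
    · intro h; exact hV10 (left_eq_add.1 h)
    · intro h; exact q4 (eq_sub_of_add_eq h.symm)
  have hK2 : [0, g, V2, g + V3].Nodup := by
    simp only [List.nodup_cons, List.mem_cons, List.not_mem_nil, or_false, not_or, List.nodup_nil,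
      and_true, not_false_iff]
    refine ⟨⟨Ne.symm q1, hV20.symm, ?_⟩, ⟨q5, ?_⟩, ?_⟩
    · intro h; exact q6 (eq_neg_of_add_eq_zero_left h.symm)
    · intro h; exact hV30 (left_eq_add.1 h)
    · intro h; exact q7 (eq_sub_of_add_eq h.symm)
  have hA1 : (A ∪ {o, a 0}).Finite := hA.union (Set.toFinite _)
  obtain ⟨L, hL1, hL2, hL3⟩ := ball_avoid hd hd3 o (r := 1 / 4) (by norm_num) hA1 _ hK1
  simp only [List.map_cons, List.map_nil] at hL2
  have hA2 : (A ∪ {a 2, a 4, L + 0, L + g, L + ε, L + (g + V1)}).Finite :=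
    hA.union (Set.toFinite _)
  obtain ⟨M, hM1, hM2, hM3⟩ := ball_avoid hd hd3 o (r := 1 / 4) (by norm_num) hA2 _ hK2
  simp only [List.map_cons, List.map_nil] at hM2
  have hM4 : ∀ y ∈ [M + 0, M + g, M + V2, M + (g + V3)],
      y ∉ A ∪ {a 2, a 4, L + 0, L + g, L + ε, L + (g + V1)} := by
    intro y hy
    simp only [List.mem_cons, List.not_mem_nil, or_false] at hy
    rcases hy with rfl | rfl | rfl | rfl
    exacts [hM3 _ (by simp), hM3 _ (by simp), hM3 _ (by simp), hM3 _ (by simp)]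
  have hL4 : ∀ y ∈ [L + 0, L + g, L + ε, L + (g + V1)], y ∉ A ∪ {o, a 0} := by
    intro y hy
    simp only [List.mem_cons, List.not_mem_nil, or_false] at hy
    rcases hy with rfl | rfl | rfl | rfl
    exacts [hL3 _ (by simp), hL3 _ (by simp), hL3 _ (by simp), hL3 _ (by simp)]
  have hnd : ([L + 0, L + g, L + ε, L + (g + V1)] ++ [M + 0, M + g, M + V2, M + (g + V3)]).Nodup := by
    refine hL2.append hM2 ?_
    intro y hy hy'
    refine hM4 y hy' (Or.inr ?_)
    simp only [List.mem_cons, List.not_mem_nil, or_false] at hy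
    simp only [Set.mem_insert_iff, Set.mem_singleton_iff]
    right; right
    exact hy
  have hav : ∀ y ∈ [L + 0, L + g, L + ε, L + (g + V1)] ++ [M + 0, M + g, M + V2, M + (g + V3)],
      y ∉ A := by
    intro y hy hyA
    rcases List.mem_append.1 hy with hy | hy
    · exact hL4 y hy (Or.inl hyA)
    · exact hM4 y hy (Or.inl hyA)
  obtain ⟨x, g1, g2, g3⟩ := extend_list _ hnd hA hav
  refine ⟨x, g1, g2, ?_⟩
  have e0 : x 0 = L := by rw [g3 0 (by simp)]; simp
  have e1 : x 1 = L + g := g3 1 (by simp)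
  have e2 : x 2 = L + ε := g3 2 (by simp)
  have e3 : x 3 = L + (g + V1) := g3 3 (by simp)
  have e4 : x 4 = M := by rw [g3 4 (by simp)]; simp
  have e5 : x 5 = M + g := g3 5 (by simp)
  have e6 : x 6 = M + V2 := g3 6 (by simp)
  have e7 : x 7 = M + (g + V3) := g3 7 (by simp)
  have r1 : L ≠ o := fun h => hL4 (L + 0) (by simp) (Or.inr (Or.inl (by rw [add_zero]; exact h)))
  have r2 : L + g ≠ a 0 := fun h => hL4 (L + g) (by simp) (Or.inr (Or.inr h))
  have r3 : M ≠ a 2 := fun h => hM4 (M + 0) (by simp) (Or.inr (Or.inl (by rw [add_zero]; exact h)))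
  have r4 : M + g ≠ a 4 := fun h => hM4 (M + g) (by simp) (Or.inr (Or.inr (Or.inl h)))
  have r5 : M ≠ L := fun h => hM4 (M + 0) (by simp)
    (Or.inr (Or.inr (Or.inr (Or.inl (by rw [h])))))
  have r6 : M + V2 ≠ L + ε := fun h => hM4 (M + V2) (by simp)
    (Or.inr (Or.inr (Or.inr (Or.inr (Or.inr (Or.inl h))))))
  unfold bADD
  simp only [bholds_cons, semC, List.getD_cons_zero, List.getD_cons_succ, lval_aa, lval_xx,
    lval_zz, e0, e1, e2, e3, e4, e5, e6, e7, bholds_nil, and_true, ← ho, ← hV1, ← hV2, ← hV3, ← hε]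
  refine ⟨⟨?_, ?_, by rw [hε1]; norm_num, r1, by linarith⟩, ⟨?_, n1, b1, r2, ?_⟩,
    ⟨?_, n2, b2, r3, ?_⟩, ⟨?_, n3, b3, r4, ?_⟩, ⟨?_, ?_, ?_, r5, ?_⟩, ⟨?_, ?_, ?_, r6, ?_⟩⟩
  · abel
  · intro h
    rw [hε, h, sub_self] at hε0
    exact hε0 rfl
  · abel
  · have : L + g - a 0 = (L - o) + g - (a 0 - o) := by abel
    rw [this]
    refine (norm_sub_le _ _).trans_lt ?_
    have := norm_add_le (L - o) g
    linarith
  · abel
  · have : M - a 2 = (M - o) - (a 2 - o) := by abel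
    rw [this]
    refine (norm_sub_le _ _).trans_lt ?_
    linarith
  · abel
  · have : M + g - a 4 = (M - o) + g - (a 4 - o) := by abel
    rw [this]
    refine (norm_sub_le _ _).trans_lt ?_
    have := norm_add_le (M - o) g
    linarith
  · abel
  · intro h
    exact q1 (add_eq_left.1 h)
  · rw [add_sub_cancel_left]
    linarith
  · have : M - L = (M - o) - (L - o) := by abel
    rw [this]
    refine (norm_sub_le _ _).trans_lt ?_
    linarith
  · have : g + V1 - ε = g + V3 - V2 := by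
      linear_combination (norm := module) h0
    have e : M + (g + V3) - (M + V2) = g + V3 - V2 := by abel
    rw [e, ← this]
    abel
  · intro h
    exact q4 (eq_sub_of_add_eq (add_left_cancel h))
  · have : L + (g + V1) - (L + ε) = g + (V1 - ε) := by abel
    rw [this]
    refine (norm_add_le _ _).trans_lt ?_
    linarith
  · have : M + V2 - (L + ε) = (M - o) - (L - o) + (V2 - ε) := by abel
    rw [this]
    refine (norm_add_le _ _).trans_lt ?_
    have := norm_sub_le (M - o) (L - o)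
    linarith

end Pool.Agent.NPC.ER.Link
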