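import Pool.Agent.ER.Link5

/-!
# Completeness of the gadgets, IV
-/

namespace Pool.Agent.NPC.ER.Link

open Pool.Agent.NPC Pool.Agent.NPC.ER Geo Module
open scoped RealInnerProductSpace

variable {E : Type} [NormedAddCommGroup E] [InnerProductSpace ℝ E]

variable {d : ℕ} {z a : ℕ → E}

theorem FR.norm_eq (h : FR d z) {k : ℕ} (hk : k < d) : ‖z (1 + k) - z 0‖ = 1 :=
  h.on.1 ⟨k, hk⟩

theorem FR.n1 (h : FR d z) (hd3 : 3 ≤ d) : ‖z 1 - z 0‖ = 1 := h.norm_eq (k := 0) (by omega)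

theorem FR.n2 (h : FR d z) (hd3 : 3 ≤ d) : ‖z 2 - z 0‖ = 1 := h.norm_eq (k := 1) (by omega)

theorem FR.i11 (h : FR d z) (hd3 : 3 ≤ d) : ⟪z 1 - z 0, z 1 - z 0⟫ = 1 :=
  h.inner_self (k := 0) (by omega)

theorem FR.i22 (h : FR d z) (hd3 : 3 ≤ d) : ⟪z 2 - z 0, z 2 - z 0⟫ = 1 :=
  h.inner_self (k := 1) (by omega)

theorem FR.i12 (h : FR d z) (hd3 : 3 ≤ d) : ⟪z 1 - z 0, z 2 - z 0⟫ = 0 :=
  h.inner_ne (i := 0) (k := 1) (by omega) (by omega) (by omega)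

theorem FR.i21 (h : FR d z) (hd3 : 3 ≤ d) : ⟪z 2 - z 0, z 1 - z 0⟫ = 0 :=
  h.inner_ne (i := 1) (k := 0) (by omega) (by omega) (by omega)

theorem FR.i1k (h : FR d z) (hd3 : 3 ≤ d) {k : ℕ} (hk : 1 ≤ k) (hk' : k < d) :
    ⟪z 1 - z 0, z (1 + k) - z 0⟫ = 0 :=
  h.inner_ne (i := 0) (k := k) (by omega) (by omega) (by omega)

theorem FR.i2k (h : FR d z) (hd3 : 3 ≤ d) {k : ℕ} (hk : k ≠ 1) (hk' : k < d) :
    ⟪z 2 - z 0, z (1 + k) - z 0⟫ = 0 :=
  h.inner_ne (i := 1) (k := k) (by omega) (by omega) (by omega)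

theorem ne_of_norm_pos {u v : E} (h : 0 < ‖u - v‖) : u ≠ v := by
  rintro rfl
  rw [sub_self, norm_zero] at h
  exact lt_irrefl _ h

/-- The norm of a combination of the two first basis vectors. -/
theorem FR.norm_comb (h : FR d z) (hd3 : 3 ≤ d) (s t : ℝ) :
    ‖s • (z 1 - z 0) + t • (z 2 - z 0)‖ ^ 2 = s ^ 2 + t ^ 2 := by
  rw [← real_inner_self_eq_norm_sq]
  simp only [inner_add_left, inner_add_right, inner_smul_left, inner_smul_right, h.i11 hd3,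
    h.i12 hd3, h.i21 hd3, h.i22 hd3, RCLike.conj_to_real]
  ring

theorem FR.norm_comb_lt (h : FR d z) (hd3 : 3 ≤ d) {s t : ℝ} (hst : s ^ 2 + t ^ 2 < 4) :
    ‖s • (z 1 - z 0) + t • (z 2 - z 0)‖ < 2 := by
  have h1 := h.norm_comb hd3 s t
  have h2 := norm_nonneg (s • (z 1 - z 0) + t • (z 2 - z 0))
  nlinarith

theorem FR.norm_comb_pos (h : FR d z) (hd3 : 3 ≤ d) {s t : ℝ} (hst : 0 < s ^ 2 + t ^ 2) :
    0 < ‖s • (z 1 - z 0) + t • (z 2 - z 0)‖ := by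
  have h1 := h.norm_comb hd3 s t
  have h2 := norm_nonneg (s • (z 1 - z 0) + t • (z 2 - z 0))
  rcases h2.lt_or_eq with h3 | h3
  · exact h3
  · rw [← h3] at h1
    nlinarith

variable [FiniteDimensional ℝ E]

theorem cpl_bFRAME (hd : finrank ℝ E = d) (hd3 : 3 ≤ d) (h : FR d z) :
    Cpl E d z a (bFRAME d) := by
  refine cpl_noaux hd hd3 fun x => ?_
  obtain ⟨α, hα⟩ := h.diag
  unfold bFRAME
  simp only [bholds_append, bholds_map_range, bholds_flatMap_range, bholds_cons, semC,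
    List.getD_cons_zero, List.getD_cons_succ, lval_zz, bholds_nil, and_true]
  have hf : ∀ k, k < d - 2 → ⟪z (2 + 2 * d) - z 0, z (1 + (2 + k)) - z 0⟫ = 0 := by
    intro k hk
    rw [hα, inner_smul_left, inner_add_left, h.i1k hd3 (by omega) (by omega),
      h.i2k hd3 (by omega) (by omega)]
    simp
  refine ⟨fun k hk => ⟨h.norm_eq hk, h.neg k hk⟩, fun k hk i hi => ⟨h.neg k hk, h.norm_eq hk,
    ?_, ?_, h.inner_ne (by omega) hk (by omega), ?_⟩, fun k hk => ⟨h.neg _ (by omega),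
    h.norm_eq (by omega), ?_, ?_, hf k hk, ?_⟩, ⟨h.dn, h.dneg⟩, h.dneg, h.dn, ?_, ?_, ?_, ?_⟩
  · exact ne_of_norm_pos (by rw [h.norm_eq (by omega)]; norm_num)
  · rw [h.norm_eq (by omega)]; norm_num
  · rw [sub_self, norm_zero]; norm_num
  · exact ne_of_norm_pos (by rw [h.dn]; norm_num)
  · rw [h.dn]; norm_num
  · rw [sub_self, norm_zero]; norm_num
  · intro he
    have h1 := h.i12 hd3
    rw [← he, h.i11 hd3] at h1
    norm_num at h1
  · have e : z 1 - z 2 = (1 : ℝ) • (z 1 - z 0) + (-1 : ℝ) • (z 2 - z 0) := by module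
    rw [e]
    exact h.norm_comb_lt hd3 (by norm_num)
  · have e : z 1 - z 2 = (z 1 - z 0) - (z 2 - z 0) := by abel
    rw [e, hα, inner_smul_right, inner_sub_left, inner_add_right, inner_add_right, h.i11 hd3,
      h.i12 hd3, h.i21 hd3, h.i22 hd3]
    ring
  · rw [h.n2 hd3]; norm_num

theorem cpl_bVAR2 (hd : finrank ℝ E = d) (hd3 : 3 ≤ d)
    (h : FR d z ∧ ∃ y : ℝ, (1 / 4 ≤ y ∧ y ≤ 7 / 4) ∧ a 1 - a 0 = y • (z 1 - z 0) ∧
      ‖a 0 - z 0‖ ≤ 1 / 4) : Cpl E d z a (bVAR2 d) := by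
  refine cpl_noaux hd hd3 fun x => ?_
  obtain ⟨hF, y, ⟨hy1, hy2⟩, hy, ha⟩ := h
  unfold bVAR2
  simp only [bholds_map_range, bholds_cons, semC, List.getD_cons_zero, List.getD_cons_succ,
    lval_zz, lval_aa]
  have hn : ‖a 1 - a 0‖ = y := by
    rw [hy, norm_smul, hF.n1 hd3, mul_one, Real.norm_eq_abs, abs_of_pos (by linarith)]
  refine ⟨hF, fun k hk => ⟨hF.neg _ (by omega), hF.norm_eq (by omega), ne_of_norm_pos (by
    rw [hn]; linarith), by rw [hn]; linarith, ?_, by linarith⟩⟩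
  rw [hy, inner_smul_left, hF.i1k hd3 (by omega) (by omega), mul_zero]

theorem cpl_bVAR3 (hd : finrank ℝ E = d) (hd3 : 3 ≤ d)
    (h : FR d z ∧ ∃ y : ℝ, (1 / 4 ≤ y ∧ y ≤ 5 / 4) ∧ a 1 - a 0 = y • (z 1 - z 0) ∧
      a 2 - a 0 = y • (z 2 - z 0) ∧ ‖a 0 - z 0‖ ≤ 1 / 4) : Cpl E d z a (bVAR3 d) := by
  refine cpl_noaux hd hd3 fun x => ?_
  obtain ⟨hF, y, ⟨hy1, hy2⟩, hy, hy', ha⟩ := h
  obtain ⟨α, hα⟩ := hF.diag
  unfold bVAR3
  simp only [bholds_map_range, bholds_cons, semC, List.getD_cons_zero, List.getD_cons_succ,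
    lval_zz, lval_aa]
  have hn' : ‖a 2 - a 0‖ = y := by
    rw [hy', norm_smul, hF.n2 hd3, mul_one, Real.norm_eq_abs, abs_of_pos (by linarith)]
  have hne : a 2 ≠ a 0 := ne_of_norm_pos (by rw [hn']; linarith)
  have e1 : a 1 - a 2 = y • (z 1 - z 0) + (-y) • (z 2 - z 0) := by
    linear_combination (norm := module) hy - hy'
  refine ⟨⟨hF, y, ⟨hy1, by linarith⟩, hy, ha⟩, ⟨hF.neg 0 (by omega), hF.n1 hd3, hne,
    by rw [hn']; linarith, ?_, by linarith⟩, ⟨hF.dneg, hF.dn, ?_, ?_, ?_, ?_⟩,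
    fun k hk => ⟨hF.neg _ (by omega), hF.norm_eq (by omega), hne, by rw [hn']; linarith, ?_,
      by linarith⟩⟩
  · rw [hy', inner_smul_left, hF.i21 hd3, mul_zero]
  · apply ne_of_norm_pos
    rw [e1]
    exact hF.norm_comb_pos hd3 (by positivity)
  · rw [e1]
    exact hF.norm_comb_lt hd3 (by nlinarith)
  · rw [e1, hα, inner_smul_right, inner_add_left, inner_smul_left, inner_smul_left,
      inner_add_right, inner_add_right, hF.i11 hd3, hF.i12 hd3, hF.i21 hd3, hF.i22 hd3]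
    simp only [RCLike.conj_to_real]
    ring
  · have : a 2 - z 0 = (a 2 - a 0) + (a 0 - z 0) := by abel
    rw [this]
    refine (norm_add_le _ _).trans_lt ?_
    rw [hn']
    linarith
  · rw [hy', inner_smul_left, hF.i2k hd3 (by omega) (by omega), mul_zero]

theorem cpl_bYPROD (hd : finrank ℝ E = d) (hd3 : 3 ≤ d)
    (h : FR d z ∧ ∃ y₁ y₂ y₃ : ℝ, (1 / 4 ≤ y₁ ∧ y₁ ≤ 9 / 8) ∧ (1 / 4 ≤ y₂ ∧ y₂ ≤ 9 / 8) ∧
      (1 / 4 ≤ y₃ ∧ y₃ ≤ 3 / 2) ∧ a 1 - a 0 = y₁ • (z 1 - z 0) ∧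
      a 3 - a 2 = y₂ • (z 1 - z 0) ∧ a 4 - a 2 = y₂ • (z 2 - z 0) ∧
      a 6 - a 5 = y₃ • (z 1 - z 0) ∧ y₁ * y₂ = y₃ ∧
      ‖a 0 - z 0‖ ≤ 1 / 4 ∧ ‖a 2 - z 0‖ ≤ 1 / 4 ∧ ‖a 5 - z 0‖ ≤ 1 / 4) :
    Cpl E d z a (bYPROD d) := by
  intro A hA
  have hE := infinite_of_finrank hd hd3
  obtain ⟨hF, y₁, y₂, y₃, ⟨a1, a1'⟩, ⟨a2, a2'⟩, ⟨a3, a3'⟩, hy1, hy2, hy2', hy3, hprod, c1, c2,
    c3⟩ := h
  set o := z 0 with ho
  set ε := z 1 - o with hε
  set η := z 2 - o with hη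
  have hz2 : z 2 = o + η := by rw [hη]; abel
  have hε1 : ‖ε‖ = 1 := hF.n1 hd3
  have hη1 : ‖η‖ = 1 := hF.n2 hd3
  have i11 : ⟪ε, ε⟫ = (1 : ℝ) := hF.i11 hd3
  have i12 : ⟪ε, η⟫ = (0 : ℝ) := hF.i12 hd3
  have i21 : ⟪η, ε⟫ = (0 : ℝ) := hF.i21 hd3
  have i22 : ⟪η, η⟫ = (1 : ℝ) := hF.i22 hd3
  have hcomb : ∀ s t : ℝ, ‖s • ε + t • η‖ ^ 2 = s ^ 2 + t ^ 2 := hF.norm_comb hd3
  have hlt : ∀ {s t : ℝ}, s ^ 2 + t ^ 2 < 4 → ‖s • ε + t • η‖ < 2 := fun h => hF.norm_comb_lt hd3 h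
  have hpos : ∀ {s t : ℝ}, 0 < s ^ 2 + t ^ 2 → 0 < ‖s • ε + t • η‖ :=
    fun h => hF.norm_comb_pos hd3 h
  have hne0 : ∀ {s t : ℝ}, 0 < s ^ 2 + t ^ 2 → s • ε + t • η ≠ 0 :=
    fun h => norm_pos_iff.1 (hpos h)
  have hdiff : ∀ {s t s' t' : ℝ}, 0 < (s - s') ^ 2 + (t - t') ^ 2 →
      s • ε + t • η ≠ s' • ε + t' • η := by
    intro s t s' t' h he
    refine hne0 h ?_
    have : (s - s') • ε + (t - t') • η = (s • ε + t • η) - (s' • ε + t' • η) := by module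
    rw [this, he, sub_self]
  -- the unit vector orthogonal to `y₁ ε + η`
  set ρ : ℝ := (√(1 + y₁ ^ 2))⁻¹ with hρ
  have hρ1 : ρ ^ 2 * (1 + y₁ ^ 2) = 1 := by
    rw [hρ, inv_pow, Real.sq_sqrt (by positivity), inv_mul_cancel₀ (by positivity)]
  set n : E := ρ • ε + (-(ρ * y₁)) • η with hn
  have hn1 : ‖n‖ = 1 := by
    apply norm_eq_one_of_sq
    rw [hn, hcomb]
    linear_combination hρ1
  have hn0 : n ≠ 0 := by
    intro h
    rw [h, norm_zero] at hn1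
    norm_num at hn1
  have hnn : ⟪n, n⟫ = (1 : ℝ) := by rw [real_inner_self_eq_norm_sq, hn1]; norm_num
  have hnneg : -n ≠ n := by
    intro he
    have : ⟪n, n⟫ = ⟪n, -n⟫ := by rw [he]
    rw [inner_neg_right, hnn] at this
    norm_num at this
  have hin : ∀ s t : ℝ, ⟪s • ε + t • η, n⟫ = ρ * (s - t * y₁) := by
    intro s t
    rw [hn]
    simp only [inner_add_left, inner_add_right, inner_smul_left, inner_smul_right, i11, i12, i21,
      i22, RCLike.conj_to_real]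
    ring
  -- first group
  have hK1 : [-n, 0, n].Nodup := by
    simp only [List.nodup_cons, List.mem_cons, List.not_mem_nil, or_false, not_or, List.nodup_nil,
      and_true, not_false_iff]
    exact ⟨⟨fun h => hn0 (neg_eq_zero.1 h), hnneg⟩, hn0.symm⟩
  obtain ⟨N, hN1, hN2, hN3⟩ := ball_avoid hd hd3 o (r := 1 / 2) (by norm_num) hA _ hK1
  simp only [List.map_cons, List.map_nil] at hN2
  have hN4 : ∀ y ∈ [N + -n, N + 0, N + n], y ∉ A := by
    intro y hy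
    simp only [List.mem_cons, List.not_mem_nil, or_false] at hy
    rcases hy with rfl | rfl | rfl
    exacts [hN3 _ (by simp), hN3 _ (by simp), hN3 _ (by simp)]
  -- second group
  have hK2 : [(0 : ℝ) • ε + (0 : ℝ) • η, y₁ • ε + (0 : ℝ) • η, y₁ • ε + (1 : ℝ) • η].Nodup := by
    simp only [List.nodup_cons, List.mem_cons, List.not_mem_nil, or_false, not_or, List.nodup_nil,
      and_true, not_false_iff]
    refine ⟨⟨hdiff ?_, hdiff ?_⟩, hdiff ?_⟩
    · nlinarith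
    · nlinarith
    · nlinarith
  have hA2 : (A ∪ {a 0, o - y₁ • ε, N + -n, N + 0, N + n}).Finite := hA.union (Set.toFinite _)
  obtain ⟨L, hL1, hL2, hL3⟩ := ball_avoid hd hd3 o (r := 1 / 2) (by norm_num) hA2 _ hK2
  simp only [List.map_cons, List.map_nil] at hL2
  have hL4 : ∀ y ∈ [L + ((0 : ℝ) • ε + (0 : ℝ) • η), L + (y₁ • ε + (0 : ℝ) • η),
      L + (y₁ • ε + (1 : ℝ) • η)], y ∉ A ∪ {a 0, o - y₁ • ε, N + -n, N + 0, N + n} := by
    intro y hy
    simp only [List.mem_cons, List.not_mem_nil, or_false] at hy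
    rcases hy with rfl | rfl | rfl
    exacts [hL3 _ (by simp), hL3 _ (by simp), hL3 _ (by simp)]
  -- third group
  have hK3 : [(0 : ℝ) • ε + (0 : ℝ) • η, y₃ • ε + (0 : ℝ) • η, y₃ • ε + y₂ • η].Nodup := by
    simp only [List.nodup_cons, List.mem_cons, List.not_mem_nil, or_false, not_or, List.nodup_nil,
      and_true, not_false_iff]
    refine ⟨⟨hdiff ?_, hdiff ?_⟩, hdiff ?_⟩
    · nlinarith
    · nlinarith
    · nlinarith
  have hA3 : (A ∪ {a 5, a 2 - y₃ • ε, N + -n, N + 0, N + n, L + ((0 : ℝ) • ε + (0 : ℝ) • η),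
      L + (y₁ • ε + (0 : ℝ) • η), L + (y₁ • ε + (1 : ℝ) • η)}).Finite := hA.union (Set.toFinite _)
  obtain ⟨M, hM1, hM2, hM3⟩ := ball_avoid hd hd3 o (r := 1 / 8) (by norm_num) hA3 _ hK3
  simp only [List.map_cons, List.map_nil] at hM2
  have hM4 : ∀ y ∈ [M + ((0 : ℝ) • ε + (0 : ℝ) • η), M + (y₃ • ε + (0 : ℝ) • η),
      M + (y₃ • ε + y₂ • η)], y ∉ A ∪ {a 5, a 2 - y₃ • ε, N + -n, N + 0, N + n,
        L + ((0 : ℝ) • ε + (0 : ℝ) • η), L + (y₁ • ε + (0 : ℝ) • η),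
        L + (y₁ • ε + (1 : ℝ) • η)} := by
    intro y hy
    simp only [List.mem_cons, List.not_mem_nil, or_false] at hy
    rcases hy with rfl | rfl | rfl
    exacts [hM3 _ (by simp), hM3 _ (by simp), hM3 _ (by simp)]
  have hnd : ([N + -n, N + 0, N + n] ++ ([L + ((0 : ℝ) • ε + (0 : ℝ) • η),
      L + (y₁ • ε + (0 : ℝ) • η), L + (y₁ • ε + (1 : ℝ) • η)] ++
      [M + ((0 : ℝ) • ε + (0 : ℝ) • η), M + (y₃ • ε + (0 : ℝ) • η),
        M + (y₃ • ε + y₂ • η)])).Nodup := by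
    refine hN2.append (hL2.append hM2 ?_) ?_
    · intro y hy hy'
      refine hM4 y hy' (Or.inr ?_)
      simp only [List.mem_cons, List.not_mem_nil, or_false] at hy
      simp only [Set.mem_insert_iff, Set.mem_singleton_iff]
      right; right; right; right; right
      exact hy
    · intro y hy hy'
      simp only [List.mem_cons, List.not_mem_nil, or_false] at hy
      rcases List.mem_append.1 hy' with hy' | hy'
      · refine hL4 y hy' (Or.inr ?_)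
        simp only [Set.mem_insert_iff, Set.mem_singleton_iff]
        right; right
        exact hy
      · refine hM4 y hy' (Or.inr ?_)
        simp only [Set.mem_insert_iff, Set.mem_singleton_iff]
        right; right
        rcases hy with h | h | h
        · exact Or.inl h
        · exact Or.inr (Or.inl h)
        · exact Or.inr (Or.inr (Or.inl h))
  have hav : ∀ y ∈ [N + -n, N + 0, N + n] ++ ([L + ((0 : ℝ) • ε + (0 : ℝ) • η),
      L + (y₁ • ε + (0 : ℝ) • η), L + (y₁ • ε + (1 : ℝ) • η)] ++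
      [M + ((0 : ℝ) • ε + (0 : ℝ) • η), M + (y₃ • ε + (0 : ℝ) • η),
        M + (y₃ • ε + y₂ • η)]), y ∉ A := by
    intro y hy hyA
    rcases List.mem_append.1 hy with hy | hy
    · exact hN4 y hy hyA
    · rcases List.mem_append.1 hy with hy | hy
      · exact hL4 y hy (Or.inl hyA)
      · exact hM4 y hy (Or.inl hyA)
  obtain ⟨x, g1, g2, g3⟩ := extend_list _ hnd hA hav
  refine ⟨x, g1, g2, ?_⟩
  have e0 : x 0 = N + -n := g3 0 (by simp)
  have e1 : x 1 = N := by rw [g3 1 (by simp)]; exact add_zero N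
  have e2 : x 2 = N + n := g3 2 (by simp)
  have e3 : x 3 = L := by rw [g3 3 (by simp)]; change L + _ = L; module
  have e4 : x 4 = L + y₁ • ε := by rw [g3 4 (by simp)]; change L + _ = _; module
  have e5 : x 5 = L + (y₁ • ε + (1 : ℝ) • η) := g3 5 (by simp)
  have e6 : x 6 = M := by rw [g3 6 (by simp)]; change M + _ = M; module
  have e7 : x 7 = M + y₃ • ε := by rw [g3 7 (by simp)]; change M + _ = _; module
  have e8 : x 8 = M + (y₃ • ε + y₂ • η) := g3 8 (by simp)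
  have z0 : (0 : ℝ) • ε + (0 : ℝ) • η = 0 := by module
  have r1 : L ≠ a 0 := fun h => hL4 (L + ((0 : ℝ) • ε + (0 : ℝ) • η)) (by simp)
    (Or.inr (Or.inl (by rw [z0, add_zero]; exact h)))
  have r2 : L + y₁ • ε ≠ o := fun h => hL4 (L + ((0 : ℝ) • ε + (0 : ℝ) • η)) (by simp)
    (Or.inr (Or.inr (Or.inl (by rw [z0, add_zero]; exact eq_sub_of_add_eq h))))
  have r3 : M ≠ a 5 := fun h => hM4 (M + ((0 : ℝ) • ε + (0 : ℝ) • η)) (by simp)
    (Or.inr (Or.inl (by rw [z0, add_zero]; exact h)))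
  have r4 : M + y₃ • ε ≠ a 2 := fun h => hM4 (M + ((0 : ℝ) • ε + (0 : ℝ) • η)) (by simp)
    (Or.inr (Or.inr (Or.inl (by rw [z0, add_zero]; exact eq_sub_of_add_eq h))))
  have nrm : ∀ {s : ℝ} {v : E}, 0 < s → ‖v‖ = 1 → ‖s • v‖ = s := by
    intro s v hs hv
    rw [norm_smul, hv, mul_one, Real.norm_eq_abs, abs_of_pos hs]
  unfold bYPROD
  simp only [bholds_cons, bholds_map_range, semC, List.getD_cons_zero, List.getD_cons_succ,
    lval_aa, lval_xx, lval_zz, e0, e1, e2, e3, e4, e5, e6, e7, e8, bholds_nil, and_true, ← ho,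
    ← hε, ← hη, add_sub_cancel_left]
  refine ⟨⟨hF, y₁, ⟨a1, by linarith⟩, hy1, c1⟩, ⟨hF, y₂, ⟨a2, by linarith⟩, hy2, hy2', c2⟩,
    ⟨hF, y₃, ⟨a3, by linarith⟩, hy3, c3⟩, ⟨hn1, ?_⟩, ⟨?_, ?_, ?_, r1, ?_⟩,
    ⟨?_, ?_, ?_, r2, ?_⟩, ⟨?_, hn1, ?_, ?_, ?_, ?_⟩, ⟨?_, ?_, ?_, r3, ?_⟩, ⟨?_, ?_, ?_, r4, ?_⟩,
    ⟨?_, hn1, ?_, ?_, ?_, ?_⟩, fun k hk => ⟨hF.neg _ (by omega), hF.norm_eq (by omega), ?_, ?_,
      ?_, ?_⟩⟩
  · abel
  · exact hy1.symm
  · exact ne_of_norm_pos (by rw [hy1, nrm (by linarith) hε1]; linarith)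
  · rw [hy1, nrm (by linarith) hε1]; linarith
  · have : L - a 0 = (L - o) - (a 0 - o) := by abel
    rw [this]
    refine (norm_sub_le _ _).trans_lt ?_
    linarith
  · module
  · exact ne_of_norm_pos (by rw [← hη, hη1]; norm_num)
  · rw [hη1]; norm_num
  · have : L + y₁ • ε - o = (L - o) + y₁ • ε := by abel
    rw [this]
    refine (norm_add_le _ _).trans_lt ?_
    rw [nrm (by linarith) hε1]
    linarith
  · abel
  · intro h
    have h9 : 0 < y₁ ^ 2 + (1 : ℝ) ^ 2 := by positivity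
    exact hne0 h9 (add_eq_left.1 h)
  · exact hlt (by nlinarith)
  · rw [hin]; ring
  · have : L - N = (L - o) - (N - o) := by abel
    rw [this]
    refine (norm_sub_le _ _).trans_lt ?_
    linarith
  · exact hy3.symm
  · exact ne_of_norm_pos (by rw [hy3, nrm (by linarith) hε1]; linarith)
  · rw [hy3, nrm (by linarith) hε1]; linarith
  · have : M - a 5 = (M - o) - (a 5 - o) := by abel
    rw [this]
    refine (norm_sub_le _ _).trans_lt ?_
    linarith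
  · rw [hy2']; abel
  · exact ne_of_norm_pos (by rw [hy2', nrm (by linarith) hη1]; linarith)
  · rw [hy2', nrm (by linarith) hη1]; linarith
  · have : M + y₃ • ε - a 2 = (M - o) + y₃ • ε - (a 2 - o) := by abel
    rw [this]
    refine (norm_sub_le _ _).trans_lt ?_
    have h8 := norm_add_le (M - o) (y₃ • ε)
    rw [nrm (by linarith) hε1] at h8
    linarith
  · abel
  · intro h
    have h9 : 0 < y₃ ^ 2 + y₂ ^ 2 := by positivity
    exact hne0 h9 (add_eq_left.1 h)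
  · exact hlt (by nlinarith)
  · rw [hin, ← hprod]; ring
  · have : M - N = (M - o) - (N - o) := by abel
    rw [this]
    refine (norm_sub_le _ _).trans_lt ?_
    linarith
  · intro h
    exact hn0 (add_eq_left.1 h)
  · rw [hn1]; norm_num
  · rw [hn, inner_add_left, inner_smul_left, inner_smul_left]
    have f1 := hF.i1k hd3 (k := 2 + k) (by omega) (by omega)
    have f2 := hF.i2k hd3 (k := 2 + k) (by omega) (by omega)
    rw [← ho] at f1 f2
    rw [← hε] at f1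
    rw [← hη] at f2
    rw [f1, f2]
    simp
  · linarith

/-- **Completeness of the gadgets.** -/
theorem complete (hd : finrank ℝ E = d) (hd3 : 3 ≤ d) (s : ℕ) (z a : ℕ → E)
    (h : semC d s z a) : ∀ A : Set E, A.Finite → ∃ x : ℕ → E, Function.Injective x ∧
      (∀ j, x j ∉ A) ∧ BHolds (semC d) z a x ((tbl d).getD s []) := by
  match s with
  | 0 =>
    refine cpl_noaux hd hd3 (b := bUD) fun x => ?_
    unfold bUD
    rw [bholds_cons]
    exact ⟨h, bholds_nil⟩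
  | 1 =>
    have hD := eD_gt d (by omega)
    exact cpl_bDist hd hd3 (δ := 1) (fun _ _ => Iff.rfl) one_pos (by linarith)
      (by rw [one_mul]; exact h)
  | 2 =>
    have hD := eD_sq d (by omega)
    have hl := el_gt d (by omega)
    exact cpl_bDist hd hd3 (δ := eD d) (fun _ _ => Iff.rfl) (eD_pos d (by omega))
      (by rw [← sq, hD]; linarith) (by rw [← sq, hD]; exact h)
  | 3 => exact cpl_bROD hd hd3 h
  | 4 => exact cpl_bCP hd hd3 h
  | 5 => exact cpl_bPERP hd hd3 h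
  | 6 => exact cpl_bLINE hd hd3 h
  | 7 => exact cpl_bCONST hd hd3 h
  | 8 => exact cpl_bADD hd hd3 h
  | 9 => exact cpl_bFRAME hd hd3 h
  | 10 => exact cpl_bVAR2 hd hd3 h
  | 11 => exact cpl_bVAR3 hd hd3 h
  | 12 =>
    refine cpl_noaux hd hd3 (b := bYCST) fun x => ?_
    obtain ⟨hF, h1, h2⟩ := h
    unfold bYCST
    simp only [bholds_cons]
    refine ⟨hF, ⟨hF.n1 hd3, h1, ?_⟩, bholds_nil⟩
    change ‖a 0 - z 1‖ < 3 / 2
    have : a 0 - z 1 = (a 0 - z 0) - (z 1 - z 0) := by abel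
    rw [this]
    refine (norm_sub_le _ _).trans_lt ?_
    rw [hF.n1 hd3]
    linarith
  | 13 =>
    refine cpl_noaux hd hd3 (b := bYADD) fun x => ?_
    obtain ⟨hF, y₁, y₂, y₃, h1, h2, h3, e1, e2, e3, h4, c1, c2, c3⟩ := h
    unfold bYADD
    simp only [bholds_cons, semC, List.getD_cons_zero, List.getD_cons_succ, lval_aa, bholds_nil,
      and_true]
    have nrm : ∀ {y : ℝ}, 0 < y → ‖y • (z 1 - z 0)‖ = y := by
      intro y hy
      rw [norm_smul, hF.n1 hd3, mul_one, Real.norm_eq_abs, abs_of_pos hy]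
    have nrm' : ∀ {y : ℝ}, 1 / 4 ≤ y ∧ y ≤ 7 / 4 → ‖y • (z 1 - z 0) - (z 1 - z 0)‖ ≤ 1 := by
      intro y hy
      have : y • (z 1 - z 0) - (z 1 - z 0) = (y - 1) • (z 1 - z 0) := by module
      rw [this, norm_smul, hF.n1 hd3, mul_one, Real.norm_eq_abs, abs_le]
      constructor <;> linarith [hy.1, hy.2]
    refine ⟨⟨hF, y₁, h1, e1, c1⟩, ⟨hF, y₂, h2, e2, c2⟩, ⟨hF, y₃, h3, e3, c3⟩, ?_, hF.n1 hd3,
      ⟨?_, ?_, c1, ?_⟩, ⟨?_, ?_, c2, ?_⟩, ⟨?_, ?_, c3⟩⟩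
    · rw [e1, e2, e3, ← add_smul, h4]
      module
    · exact ne_of_norm_pos (by rw [e1, nrm (by linarith [h1.1])]; linarith [h1.1])
    · rw [e1, nrm (by linarith [h1.1])]; linarith [h1.2]
    · rw [e1]; exact nrm' h1
    · exact ne_of_norm_pos (by rw [e2, nrm (by linarith [h2.1])]; linarith [h2.1])
    · rw [e2, nrm (by linarith [h2.1])]; linarith [h2.2]
    · rw [e2]; exact nrm' h2
    · exact ne_of_norm_pos (by rw [e3, nrm (by linarith [h3.1])]; linarith [h3.1])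
    · rw [e3, nrm (by linarith [h3.1])]; linarith [h3.2]
  | 14 => exact cpl_bYPROD hd hd3 h
  | (n + 15) => exact h.elim

end Pool.Agent.NPC.ER.Link
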