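import Pool.Agent.ER.LinkTop2
import Pool.Agent.ER.GraphCode

/-!
# Hardness of unit distance realizability in dimension at least three
-/

namespace Pool.Agent.NPC.ER.Link

open Pool.Agent.NPC Pool.Agent.NPC.ER Module

/-- The graph with a given list of edges. -/
def codeOf (L : List (ℕ × ℕ)) : GCode := (L.flatMap (fun e => [e.1, e.2]), L)

theorem poly_codeOf {α : Type} [TEnc α] {L : α → List (ℕ × ℕ)} (hL : Poly L) :
    Poly (fun a => codeOf (L a)) := by
  have e1 : Poly (fun p : α × (ℕ × ℕ) => p.2.1) := Poly.fst (Poly.snd Poly.id)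
  have e2 : Poly (fun p : α × (ℕ × ℕ) => p.2.2) := Poly.snd (Poly.snd Poly.id)
  have h2 : Poly (fun p : α × (ℕ × ℕ) => [p.2.1, p.2.2]) :=
    Poly.cons e1 (Poly.cons e2 (Poly.const []))
  exact Poly.pair (Poly.flatMap (F := fun (_ : α) (e : ℕ × ℕ) => [e.1, e.2]) hL h2) hL

theorem mem_codeOf {L : List (ℕ × ℕ)} {e : ℕ × ℕ} (he : e ∈ L) :
    e.1 ∈ (codeOf L).1 ∧ e.2 ∈ (codeOf L).1 :=
  ⟨List.mem_flatMap.2 ⟨e, he, by simp⟩, List.mem_flatMap.2 ⟨e, he, by simp⟩⟩

/-- Realizations of a graph and points indexed by all natural numbers. -/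
theorem exists_points {E : Type} [MetricSpace E] [Inhabited E] {L : List (ℕ × ℕ)}
    (hw : (codeOf L).WF) {p : (codeOf L).V → E}
    (h : ∀ u v, (codeOf L).graph.Adj u v → dist (p u) (p v) = 1) :
    ∃ p' : ℕ → E, ∀ e ∈ L, dist (p' e.1) (p' e.2) = 1 := by
  classical
  refine ⟨fun n => if h : n ∈ (codeOf L).1 then p ⟨n, h⟩ else default, fun e he => ?_⟩
  obtain ⟨h1, h2⟩ := mem_codeOf he
  simp only [dif_pos h1, dif_pos h2]
  exact h ⟨e.1, h1⟩ ⟨e.2, h2⟩ ((graph_adj hw).2 (Or.inl he))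

/-- Points indexed by all natural numbers and injective realizations of a graph. -/
theorem exists_realization {E : Type} [MetricSpace E] {L : List (ℕ × ℕ)} {p : ℕ → E}
    (hinj : Set.InjOn p {i | ∃ e ∈ L, i = e.1 ∨ i = e.2})
    (hp : ∀ e ∈ L, dist (p e.1) (p e.2) = 1) : (codeOf L).WF ∧
      ∃ p' : (codeOf L).V → E, Function.Injective p' ∧
        ∀ u v, (codeOf L).graph.Adj u v → dist (p' u) (p' v) = 1 := by
  have hw : (codeOf L).WF := by
    intro e he
    obtain ⟨h1, h2⟩ := mem_codeOf he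
    refine ⟨h1, h2, fun h3 => ?_⟩
    have h4 := hp e he
    rw [h3, dist_self] at h4
    norm_num at h4
  have hmem : ∀ v : (codeOf L).V, ∃ e ∈ L, v.1 = e.1 ∨ v.1 = e.2 := by
    intro v
    obtain ⟨e, he, hv⟩ := List.mem_flatMap.1 v.2
    simp only [List.mem_cons, List.not_mem_nil, or_false] at hv
    exact ⟨e, he, hv⟩
  refine ⟨hw, fun v => p v.1, ?_, ?_⟩
  · intro u v huv
    exact Subtype.ext (hinj (hmem u) (hmem v) huv)
  · intro u v huv
    rcases (graph_adj hw).1 huv with h1 | h1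
    · exact hp (u.1, v.1) h1
    · rw [dist_comm]
      exact hp (v.1, u.1) h1

variable {d : ℕ}

/-- A realizable graph gives a satisfiable system. -/
theorem sat_of_realizable (hd3 : 3 ≤ d) {S : List Con} (hw : (codeOf (esys d S)).WF)
    {p : (codeOf (esys d S)).V → EuclideanSpace ℝ (Fin d)}
    (h : ∀ u v, (codeOf (esys d S)).graph.Adj u v → dist (p u) (p v) = 1) : Sat S := by
  obtain ⟨p', hp'⟩ := exists_points hw h
  exact sat_of_esys finrank_euclideanSpace_fin hd3 hp'

/-- A satisfiable system gives an injectively realizable graph. -/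
theorem realizable_of_sat (hd3 : 3 ≤ d) {S : List Con} (h : Sat S) : (codeOf (esys d S)).WF ∧
    ∃ p : (codeOf (esys d S)).V → EuclideanSpace ℝ (Fin d), Function.Injective p ∧
      ∀ u v, (codeOf (esys d S)).graph.Adj u v → dist (p u) (p v) = 1 := by
  obtain ⟨p, hinj, hp⟩ := esys_of_sat (E := EuclideanSpace ℝ (Fin d)) finrank_euclideanSpace_fin
    hd3 h
  exact exists_realization hinj hp

end Pool.Agent.NPC.ER.Link
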