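import Pool.Agent.ER.Link6
import Pool.Agent.ER.Bounded

/-!
# Systems of polynomial constraints and unit distance graphs

The reduction from systems of constraints over the reals to systems of unit distances.
-/

namespace Pool.Agent.NPC.ER.Link

open Pool.Agent.NPC Pool.Agent.NPC.ER Geo Module
open scoped RealInnerProductSpace

/-- The name of the point `Pᵢ`. -/
def nP (d i : ℕ) : ℕ := 2 * d + 3 + 3 * i

/-- The name of the point `Qᵢ`. -/
def nQ (d i : ℕ) : ℕ := 2 * d + 3 + 3 * i + 1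

/-- The name of the point `Rᵢ`. -/
def nR (d i : ℕ) : ℕ := 2 * d + 3 + 3 * i + 2

/-- `yᵢ = ℓ - 1`. -/
def mcst (d i : ℕ) : MC := (12, [nP d i, nQ d i])

/-- `yᵢ + yⱼ = yₖ + 1`. -/
def madd (d i j k : ℕ) : MC := (13, [nP d i, nQ d i, nP d j, nQ d j, nP d k, nQ d k])

/-- `yᵢ yⱼ = yₖ`. -/
def mprod (d i j k : ℕ) : MC := (14, [nP d i, nQ d i, nP d j, nQ d j, nR d j, nP d k, nQ d k])

/-- Fresh variables. -/
def fr (t m : ℕ) : ℕ := 2 * (3 * t + m) + 1

/-- The translation of one constraint. -/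
def tcon (d : ℕ) (c : Con) (t : ℕ) : List MC :=
  match c with
  | Con.one i => [madd d (2 * i) (2 * i) (fr t 0), madd d (fr t 0) (fr t 0) (fr t 1),
      madd d (fr t 1) (fr t 1) (fr t 2), mcst d (fr t 2)]
  | Con.add i j k => [madd d (2 * i) (2 * j) (2 * k)]
  | Con.mul i j k => [mprod d (2 * i) (2 * j) (fr t 0), madd d (fr t 1) (2 * i) (fr t 0),
      madd d (2 * k) (2 * j) (fr t 1)]

/-- The translation of a system. -/
def tsys (d : ℕ) (T : List Con) : List MC := T.zipIdx.flatMap (fun p => tcon d p.1 p.2)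

/-- The constant. -/
noncomputable def kap (d : ℕ) : ℝ := 1 / (4 * d)

theorem kap_pos {d : ℕ} (hd3 : 3 ≤ d) : 0 < kap d := by
  have : (3 : ℝ) ≤ d := by exact_mod_cast hd3
  unfold kap
  positivity

theorem kap_le {d : ℕ} (hd3 : 3 ≤ d) : kap d ≤ 1 / 12 := by
  have : (3 : ℝ) ≤ d := by exact_mod_cast hd3
  unfold kap
  rw [div_le_div_iff₀ (by positivity) (by norm_num)]
  linarith

theorem kap_el {d : ℕ} (hd3 : 3 ≤ d) : 1 + 8 * kap d = el d - 1 := by
  have : (3 : ℝ) ≤ d := by exact_mod_cast hd3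
  unfold kap el
  field_simp
  ring

section Sound

variable {E : Type} [NormedAddCommGroup E] [InnerProductSpace ℝ E] {d : ℕ} {v : ℕ → E}

/-- The number represented by two points. -/
noncomputable def yv (d : ℕ) (v : ℕ → E) (i : ℕ) : ℝ := ⟪v (nQ d i) - v (nP d i), v 1 - v 0⟫

theorem glob_lt {E : Type} {G : ℕ} {v : ℕ → E} {j : ℕ} (h : j < G) : glob G v j = v j := by
  simp [glob, h]

theorem yv_eq (hd3 : 3 ≤ d) (hF : FR d (glob ((2 * d + 3)) v)) {i : ℕ} {y : ℝ}
    (h : v (nQ d i) - v (nP d i) = y • (v 1 - v 0)) : yv d v i = y := by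
  have h1 := hF.i11 hd3
  rw [glob_lt (by omega), glob_lt (by omega)] at h1
  unfold yv
  rw [h, inner_smul_left, h1]
  simp

theorem sem_madd (hd3 : 3 ≤ d) {i j k : ℕ}
    (h : MHolds ((2 * d + 3)) (semS d) v [madd d i j k]) : yv d v i + yv d v j = yv d v k + 1 := by
  have h1 := h _ (List.mem_singleton.2 rfl)
  obtain ⟨hF, y₁, y₂, y₃, e1, e2, e3, e4⟩ := h1
  rw [glob_lt (by omega), glob_lt (by omega)] at e1 e2 e3
  rw [yv_eq hd3 hF e1, yv_eq hd3 hF e2, yv_eq hd3 hF e3, e4]

theorem sem_mprod (hd3 : 3 ≤ d) {i j k : ℕ}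
    (h : MHolds ((2 * d + 3)) (semS d) v [mprod d i j k]) : yv d v i * yv d v j = yv d v k := by
  have h1 := h _ (List.mem_singleton.2 rfl)
  obtain ⟨hF, y₁, y₂, y₃, e1, e2, e3, e4⟩ := h1
  rw [glob_lt (by omega), glob_lt (by omega)] at e1 e2 e3
  rw [yv_eq hd3 hF e1, yv_eq hd3 hF e2, yv_eq hd3 hF e3, e4]

theorem sem_mcst (hd3 : 3 ≤ d) {i : ℕ}
    (h : MHolds ((2 * d + 3)) (semS d) v [mcst d i]) : yv d v i = el d - 1 := by
  have h1 := h _ (List.mem_singleton.2 rfl)
  obtain ⟨hF, e1⟩ := h1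
  rw [glob_lt (by omega), glob_lt (by omega)] at e1
  exact yv_eq hd3 hF e1

omit [NormedAddCommGroup E] [InnerProductSpace ℝ E] in
theorem mholds_cons {G : ℕ} {sem : ℕ → (ℕ → E) → (ℕ → E) → Prop} {c : MC} {S : List MC} :
    MHolds G sem v (c :: S) ↔ MHolds G sem v [c] ∧ MHolds G sem v S := by
  unfold MHolds
  simp

theorem tsys_mem {T : List Con} {c : Con} {t : ℕ} (h : (c, t) ∈ T.zipIdx)
    (hv : MHolds ((2 * d + 3)) (semS d) v (tsys d T)) : MHolds ((2 * d + 3)) (semS d) v (tcon d c t) := by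
  intro m hm
  exact hv m (List.mem_flatMap.2 ⟨(c, t), h, hm⟩)

/-- Soundness of the translation. -/
theorem tsys_sound (hd3 : 3 ≤ d) {T : List Con} (h : MHolds ((2 * d + 3)) (semS d) v (tsys d T)) :
    ∀ c ∈ T, c.HoldsC (kap d) (fun i => yv d v (2 * i) - 1) := by
  intro c hc
  obtain ⟨t, ht⟩ : ∃ t, (c, t) ∈ T.zipIdx := by
    obtain ⟨t, ht⟩ := List.mem_iff_getElem?.1 hc
    exact ⟨t, List.mem_zipIdx_iff_getElem?.2 ht⟩
  have h1 := tsys_mem ht h
  have hk := kap_el hd3
  cases c with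
  | one i =>
    unfold tcon at h1
    obtain ⟨a1, h1⟩ := mholds_cons.1 h1
    obtain ⟨a2, h1⟩ := mholds_cons.1 h1
    obtain ⟨a3, a4⟩ := mholds_cons.1 h1
    have b1 := sem_madd hd3 a1
    have b2 := sem_madd hd3 a2
    have b3 := sem_madd hd3 a3
    have b4 := sem_mcst hd3 a4
    simp only [Con.HoldsC]
    linarith
  | add i j k =>
    have b1 := sem_madd hd3 h1
    simp only [Con.HoldsC]
    linarith
  | mul i j k =>
    unfold tcon at h1
    obtain ⟨a1, h1⟩ := mholds_cons.1 h1
    obtain ⟨a2, a3⟩ := mholds_cons.1 h1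
    have b1 := sem_mprod hd3 a1
    have b2 := sem_madd hd3 a2
    have b3 := sem_madd hd3 a3
    simp only [Con.HoldsC]
    linear_combination b1 - b2 - b3

end Sound

section Complete

variable {E : Type} [NormedAddCommGroup E] [InnerProductSpace ℝ E] {d : ℕ} {b : Fin d → E}

/-- Basis vectors. -/
noncomputable def bb (b : Fin d → E) (k : ℕ) : E := if h : k < d then b ⟨k, h⟩ else 0

theorem inner_bb (hb : Orthonormal ℝ b) {k j : ℕ} (hk : k < d) (hj : j < d) :
    ⟪bb b k, bb b j⟫ = if k = j then (1 : ℝ) else 0 := by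
  unfold bb
  rw [dif_pos hk, dif_pos hj, orthonormal_iff_ite.1 hb]
  simp only [Fin.mk.injEq]

/-- The diagonal vector. -/
noncomputable def phi (b : Fin d → E) : E := (√2)⁻¹ • (bb b 0 + bb b 1)

/-- The frame. -/
noncomputable def frame (b : Fin d → E) (n : ℕ) : E :=
  if n = 0 then 0 else if n ≤ d then bb b (n - 1) else if n ≤ 2 * d then - bb b (n - 1 - d) else
    if n = 2 * d + 1 then - phi b else phi b

theorem frame_zero : frame b 0 = 0 := by simp [frame]

theorem frame_e {k : ℕ} (hk : k < d) : frame b (1 + k) = bb b k := by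
  unfold frame
  rw [if_neg (by omega), if_pos (by omega)]
  congr 1
  omega

theorem frame_e' {k : ℕ} (hk : k < d) : frame b (1 + d + k) = - bb b k := by
  unfold frame
  rw [if_neg (by omega), if_neg (by omega), if_pos (by omega)]
  congr 2
  omega

theorem frame_phi' : frame b (1 + 2 * d) = - phi b := by
  unfold frame
  rw [if_neg (by omega), if_neg (by omega), if_neg (by omega), if_pos (by omega)]

theorem frame_phi (hd3 : 3 ≤ d) : frame b (2 + 2 * d) = phi b := by
  unfold frame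
  rw [if_neg (by omega), if_neg (by omega), if_neg (by omega), if_neg (by omega)]

/-- The points of the configuration. -/
noncomputable def pt (b : Fin d → E) (Y : ℕ → ℝ) (n : ℕ) : E :=
  if n < (2 * d + 3) then frame b n else
    (1 / (8 + ((n - (2 * d + 3)) / 3 : ℕ)) : ℝ) • bb b 2 + (if (n - (2 * d + 3)) % 3 = 0 then 0 else
      if (n - (2 * d + 3)) % 3 = 1 then Y ((n - (2 * d + 3)) / 3) • bb b 0 else Y ((n - (2 * d + 3)) / 3) • bb b 1)

theorem pt_P (Y : ℕ → ℝ) (i : ℕ) : pt b Y (nP d i) = (1 / (8 + i) : ℝ) • bb b 2 := by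
  unfold pt nP
  have e1 : (2 * d + 3 + 3 * i - (2 * d + 3)) = 3 * i := by omega
  have e2 : 3 * i / 3 = i := by omega
  rw [if_neg (by omega), e1, if_pos (by omega), e2, add_zero]

theorem pt_Q (Y : ℕ → ℝ) (i : ℕ) :
    pt b Y (nQ d i) = (1 / (8 + i) : ℝ) • bb b 2 + Y i • bb b 0 := by
  unfold pt nQ
  have e1 : (2 * d + 3 + 3 * i + 1 - (2 * d + 3)) = 3 * i + 1 := by omega
  have e2 : (3 * i + 1) / 3 = i := by omega
  rw [if_neg (by omega), e1, if_neg (by omega), if_pos (by omega), e2]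

theorem pt_R (Y : ℕ → ℝ) (i : ℕ) :
    pt b Y (nR d i) = (1 / (8 + i) : ℝ) • bb b 2 + Y i • bb b 1 := by
  unfold pt nR
  have e1 : (2 * d + 3 + 3 * i + 2 - (2 * d + 3)) = 3 * i + 2 := by omega
  have e2 : (3 * i + 2) / 3 = i := by omega
  rw [if_neg (by omega), e1, if_neg (by omega), if_neg (by omega), e2]

theorem pt_frame (Y : ℕ → ℝ) {n : ℕ} (hn : n < (2 * d + 3)) : pt b Y n = frame b n := by
  unfold pt
  rw [if_pos hn]

theorem phi_inner (hb : Orthonormal ℝ b) (hd3 : 3 ≤ d) {k : ℕ} (hk : k < d) :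
    ⟪bb b k, phi b⟫ = if k < 2 then (√2)⁻¹ else 0 := by
  unfold phi
  rw [inner_smul_right, inner_add_right, inner_bb hb hk (by omega), inner_bb hb hk (by omega)]
  match k with
  | 0 => simp
  | 1 => simp
  | k + 2 => simp

theorem phi_norm (hb : Orthonormal ℝ b) (hd3 : 3 ≤ d) : ‖phi b‖ = 1 := by
  apply norm_eq_one_of_sq
  rw [← real_inner_self_eq_norm_sq]
  unfold phi
  rw [inner_smul_left, inner_smul_right]
  simp only [inner_add_left, inner_add_right]
  rw [inner_bb hb (by omega) (by omega), inner_bb hb (by omega) (by omega),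
    inner_bb hb (by omega) (by omega), inner_bb hb (by omega) (by omega)]
  have h2 : (√2 : ℝ)⁻¹ * (√2)⁻¹ = 1 / 2 := by
    rw [← mul_inv, Real.mul_self_sqrt (by norm_num)]
    norm_num
  simp only [RCLike.conj_to_real, one_ne_zero, zero_ne_one, if_true, if_false]
  linear_combination 2 * h2

theorem pt_FR (hb : Orthonormal ℝ b) (hd3 : 3 ≤ d) (Y : ℕ → ℝ) :
    FR d (glob ((2 * d + 3)) (pt b Y)) := by
  have g0 : glob ((2 * d + 3)) (pt b Y) 0 = 0 := by
    rw [glob_lt (by omega), pt_frame _ (by omega), frame_zero]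
  have ge : ∀ k, k < d → glob ((2 * d + 3)) (pt b Y) (1 + k) = bb b k := fun k hk => by
    rw [glob_lt (by omega), pt_frame _ (by omega), frame_e hk]
  have ge' : ∀ k, k < d → glob ((2 * d + 3)) (pt b Y) (1 + d + k) = -bb b k := fun k hk => by
    rw [glob_lt (by omega), pt_frame _ (by omega), frame_e' hk]
  have gp' : glob ((2 * d + 3)) (pt b Y) (1 + 2 * d) = -phi b := by
    rw [glob_lt (by omega), pt_frame _ (by omega), frame_phi']
  have gp : glob ((2 * d + 3)) (pt b Y) (2 + 2 * d) = phi b := by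
    rw [glob_lt (by omega), pt_frame _ (by omega), frame_phi hd3]
  refine ⟨?_, ?_, ?_, ?_, ?_⟩
  · have : (fun k : Fin d => glob ((2 * d + 3)) (pt b Y) (1 + k) - glob ((2 * d + 3)) (pt b Y) 0) = b := by
      funext k
      rw [ge k k.2, g0, sub_zero]
      unfold bb
      rw [dif_pos k.2]
    rw [this]
    exact hb
  · intro k hk
    rw [ge k hk, ge' k hk, g0]
    abel
  · rw [gp, g0, sub_zero]
    exact phi_norm hb hd3
  · rw [gp, gp', g0]
    abel
  · refine ⟨(√2)⁻¹, ?_⟩
    have h1 := ge 0 (by omega)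
    have h2 := ge 1 (by omega)
    simp only [Nat.add_zero] at h1
    have h2' : glob ((2 * d + 3)) (pt b Y) 2 = bb b 1 := h2
    rw [gp, h1, h2', g0, sub_zero, sub_zero, sub_zero]
    rfl

/-- The points of the configuration are pairwise distinct. -/
theorem pt_injective (hb : Orthonormal ℝ b) (hd3 : 3 ≤ d) {Y : ℕ → ℝ} (hY : ∀ i, 0 < Y i) :
    Function.Injective (pt b Y) := by
  have hs0 : (0 : ℝ) < (√2)⁻¹ := by positivity
  have hs1 : (√2 : ℝ)⁻¹ < 1 := by
    rw [inv_lt_one₀ (by positivity)]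
    have := Real.mul_self_sqrt (show (0 : ℝ) ≤ 2 by norm_num)
    have h2 : (0 : ℝ) < √2 := by positivity
    nlinarith
  have hcls : ∀ n, (n = 0) ∨ (∃ k, k < d ∧ n = 1 + k) ∨ (∃ k, k < d ∧ n = 1 + d + k) ∨
      (n = 1 + 2 * d) ∨ (n = 2 + 2 * d) ∨ (∃ i, n = nP d i) ∨ (∃ i, n = nQ d i) ∨
      (∃ i, n = nR d i) := by
    intro n
    unfold nP nQ nR
    by_cases h0 : n = 0
    · exact Or.inl h0
    by_cases h1 : n ≤ d
    · exact Or.inr (Or.inl ⟨n - 1, by omega, by omega⟩)
    by_cases h2 : n ≤ 2 * d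
    · exact Or.inr (Or.inr (Or.inl ⟨n - 1 - d, by omega, by omega⟩))
    by_cases h3 : n = 1 + 2 * d
    · exact Or.inr (Or.inr (Or.inr (Or.inl h3)))
    by_cases h4 : n = 2 + 2 * d
    · exact Or.inr (Or.inr (Or.inr (Or.inr (Or.inl h4))))
    have h5 : (n - (2 * d + 3)) % 3 = 0 ∨ (n - (2 * d + 3)) % 3 = 1 ∨ (n - (2 * d + 3)) % 3 = 2 := by omega
    rcases h5 with h5 | h5 | h5
    · exact Or.inr (Or.inr (Or.inr (Or.inr (Or.inr (Or.inl ⟨(n - (2 * d + 3)) / 3, by omega⟩)))))
    · exact Or.inr (Or.inr (Or.inr (Or.inr (Or.inr (Or.inr (Or.inl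
        ⟨(n - (2 * d + 3)) / 3, by omega⟩))))))
    · exact Or.inr (Or.inr (Or.inr (Or.inr (Or.inr (Or.inr (Or.inr
        ⟨(n - (2 * d + 3)) / 3, by omega⟩))))))
  -- coordinates
  have v0 : pt b Y 0 = 0 := by rw [pt_frame _ (by omega), frame_zero]
  have ve : ∀ k, k < d → pt b Y (1 + k) = bb b k := fun k hk => by
    rw [pt_frame _ (by omega), frame_e hk]
  have ve' : ∀ k, k < d → pt b Y (1 + d + k) = -bb b k := fun k hk => by
    rw [pt_frame _ (by omega), frame_e' hk]
  have vp' : pt b Y (1 + 2 * d) = -phi b := by rw [pt_frame _ (by omega), frame_phi']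
  have vp : pt b Y (2 + 2 * d) = phi b := by rw [pt_frame _ (by omega), frame_phi hd3]
  have hc : ∀ i : ℕ, (0 : ℝ) < 1 / (8 + i) ∧ (1 : ℝ) / (8 + i) < 1 := by
    intro i
    have hi : (0 : ℝ) ≤ i := Nat.cast_nonneg i
    refine ⟨by positivity, ?_⟩
    rw [div_lt_one (by positivity)]
    linarith
  have hci : ∀ i j : ℕ, (1 : ℝ) / (8 + i) = 1 / (8 + j) → i = j := by
    intro i j h
    have hi : (0 : ℝ) ≤ i := Nat.cast_nonneg i
    have hj : (0 : ℝ) ≤ j := Nat.cast_nonneg j
    rw [div_eq_div_iff (by positivity) (by positivity)] at h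
    have : (i : ℝ) = j := by linarith
    exact_mod_cast this
  have i22 : ⟪bb b 2, bb b 2⟫ = (1 : ℝ) := by
    rw [inner_bb hb (by omega) (by omega), if_pos rfl]
  have i20 : ⟪bb b 2, bb b 0⟫ = (0 : ℝ) := by
    rw [inner_bb hb (by omega) (by omega), if_neg (by norm_num)]
  have i21 : ⟪bb b 2, bb b 1⟫ = (0 : ℝ) := by
    rw [inner_bb hb (by omega) (by omega), if_neg (by norm_num)]
  have i00 : ⟪bb b 0, bb b 0⟫ = (1 : ℝ) := by
    rw [inner_bb hb (by omega) (by omega), if_pos rfl]
  have i01 : ⟪bb b 0, bb b 1⟫ = (0 : ℝ) := by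
    rw [inner_bb hb (by omega) (by omega), if_neg (by norm_num)]
  have i02 : ⟪bb b 0, bb b 2⟫ = (0 : ℝ) := by
    rw [inner_bb hb (by omega) (by omega), if_neg (by norm_num)]
  have i10 : ⟪bb b 1, bb b 0⟫ = (0 : ℝ) := by
    rw [inner_bb hb (by omega) (by omega), if_neg (by norm_num)]
  have i11 : ⟪bb b 1, bb b 1⟫ = (1 : ℝ) := by
    rw [inner_bb hb (by omega) (by omega), if_pos rfl]
  have i12 : ⟪bb b 1, bb b 2⟫ = (0 : ℝ) := by
    rw [inner_bb hb (by omega) (by omega), if_neg (by norm_num)]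
  have p0 : ⟪bb b 0, phi b⟫ = (√2)⁻¹ := by
    rw [phi_inner hb hd3 (by omega), if_pos (by norm_num)]
  have p2 : ⟪bb b 2, phi b⟫ = (0 : ℝ) := by
    rw [phi_inner hb hd3 (by omega), if_neg (by norm_num)]
  -- the third coordinate separates the frame from the other points
  have hfr : ∀ n, n < (2 * d + 3) → ⟪bb b 2, pt b Y n⟫ = 0 ∨ ⟪bb b 2, pt b Y n⟫ = 1 ∨
      ⟪bb b 2, pt b Y n⟫ = -1 := by
    intro n hn
    rcases hcls n with rfl | ⟨k, hk, rfl⟩ | ⟨k, hk, rfl⟩ | rfl | rfl | ⟨i, rfl⟩ | ⟨i, rfl⟩ | ⟨i, rfl⟩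
    · left; rw [v0, inner_zero_right]
    · rw [ve k hk, inner_bb hb (by omega) hk]
      split
      · exact Or.inr (Or.inl rfl)
      · exact Or.inl rfl
    · rw [ve' k hk, inner_neg_right, inner_bb hb (by omega) hk]
      split
      · exact Or.inr (Or.inr rfl)
      · exact Or.inl (by norm_num)
    · left; rw [vp', inner_neg_right, p2, neg_zero]
    · left; rw [vp, p2]
    · unfold nP at hn; omega
    · unfold nQ at hn; omega
    · unfold nR at hn; omega
  have htr : ∀ n, ¬ n < (2 * d + 3) → ∃ i, (n = nP d i ∨ n = nQ d i ∨ n = nR d i) ∧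
      ⟪bb b 2, pt b Y n⟫ = 1 / (8 + i) := by
    intro n hn
    rcases hcls n with rfl | ⟨k, hk, rfl⟩ | ⟨k, hk, rfl⟩ | rfl | rfl | ⟨i, rfl⟩ | ⟨i, rfl⟩ | ⟨i, rfl⟩
    · omega
    · omega
    · omega
    · omega
    · omega
    · refine ⟨i, Or.inl rfl, ?_⟩
      rw [pt_P, inner_smul_right, i22]; ring
    · refine ⟨i, Or.inr (Or.inl rfl), ?_⟩
      rw [pt_Q, inner_add_right, inner_smul_right, inner_smul_right, i22, i20]; ring
    · refine ⟨i, Or.inr (Or.inr rfl), ?_⟩
      rw [pt_R, inner_add_right, inner_smul_right, inner_smul_right, i22, i21]; ring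
  have hft : ∀ n n', n < (2 * d + 3) → ¬ n' < (2 * d + 3) → pt b Y n ≠ pt b Y n' := by
    intro n n' hn hn' he
    obtain ⟨i, -, hi⟩ := htr n' hn'
    have h1 := hc i
    rw [← he] at hi
    rcases hfr n hn with h | h | h <;> rw [h] at hi <;> linarith
  have hff : ∀ n n', n < (2 * d + 3) → n' < (2 * d + 3) → pt b Y n = pt b Y n' → n = n' := by
    intro n n' hn hn' he
    have cf : ∀ k, k < d → ⟪bb b k, pt b Y n⟫ = ⟪bb b k, pt b Y n'⟫ := fun k _ => by rw [he]
    rcases hcls n with rfl | ⟨k, hk, rfl⟩ | ⟨k, hk, rfl⟩ | rfl | rfl | ⟨i, rfl⟩ | ⟨i, rfl⟩ | ⟨i, rfl⟩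
    · rcases hcls n' with rfl | ⟨k', hk', rfl⟩ | ⟨k', hk', rfl⟩ | rfl | rfl | ⟨i, rfl⟩ | ⟨i, rfl⟩ | ⟨i, rfl⟩
      · rfl
      · have := cf k' hk'
        rw [v0, ve k' hk', inner_zero_right, inner_bb hb hk' hk', if_pos rfl] at this
        norm_num at this
      · have := cf k' hk'
        rw [v0, ve' k' hk', inner_zero_right, inner_neg_right, inner_bb hb hk' hk', if_pos rfl]
          at this
        norm_num at this
      · have := cf 0 (by omega)
        rw [v0, vp', inner_zero_right, inner_neg_right, p0] at this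
        linarith
      · have := cf 0 (by omega)
        rw [v0, vp, inner_zero_right, p0] at this
        linarith
      · unfold nP at hn'; omega
      · unfold nQ at hn'; omega
      · unfold nR at hn'; omega
    · have h1 := cf k hk
      rw [ve k hk, inner_bb hb hk hk, if_pos rfl] at h1
      rcases hcls n' with rfl | ⟨k', hk', rfl⟩ | ⟨k', hk', rfl⟩ | rfl | rfl | ⟨i, rfl⟩ | ⟨i, rfl⟩ | ⟨i, rfl⟩
      · rw [v0, inner_zero_right] at h1
        norm_num at h1
      · rw [ve k' hk', inner_bb hb hk hk'] at h1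
        by_cases h : k = k'
        · rw [h]
        · rw [if_neg h] at h1
          norm_num at h1
      · rw [ve' k' hk', inner_neg_right, inner_bb hb hk hk'] at h1
        split_ifs at h1 <;> norm_num at h1
      · rw [vp', inner_neg_right, phi_inner hb hd3 hk] at h1
        split_ifs at h1 <;> linarith
      · rw [vp, phi_inner hb hd3 hk] at h1
        split_ifs at h1 <;> linarith
      · unfold nP at hn'; omega
      · unfold nQ at hn'; omega
      · unfold nR at hn'; omega
    · have h1 := cf k hk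
      rw [ve' k hk, inner_neg_right, inner_bb hb hk hk, if_pos rfl] at h1
      rcases hcls n' with rfl | ⟨k', hk', rfl⟩ | ⟨k', hk', rfl⟩ | rfl | rfl | ⟨i, rfl⟩ | ⟨i, rfl⟩ | ⟨i, rfl⟩
      · rw [v0, inner_zero_right] at h1
        norm_num at h1
      · rw [ve k' hk', inner_bb hb hk hk'] at h1
        split_ifs at h1 <;> norm_num at h1
      · rw [ve' k' hk', inner_neg_right, inner_bb hb hk hk'] at h1
        by_cases h : k = k'
        · rw [h]
        · rw [if_neg h] at h1
          norm_num at h1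
      · rw [vp', inner_neg_right, phi_inner hb hd3 hk] at h1
        split_ifs at h1 <;> linarith
      · rw [vp, phi_inner hb hd3 hk] at h1
        split_ifs at h1 <;> linarith
      · unfold nP at hn'; omega
      · unfold nQ at hn'; omega
      · unfold nR at hn'; omega
    · rcases hcls n' with rfl | ⟨k', hk', rfl⟩ | ⟨k', hk', rfl⟩ | rfl | rfl | ⟨i, rfl⟩ | ⟨i, rfl⟩ | ⟨i, rfl⟩
      · have := cf 0 (by omega)
        rw [v0, vp', inner_zero_right, inner_neg_right, p0] at this
        linarith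
      · have := cf k' hk'
        rw [ve k' hk', vp', inner_neg_right, inner_bb hb hk' hk', if_pos rfl,
          phi_inner hb hd3 hk'] at this
        split_ifs at this <;> linarith
      · have := cf k' hk'
        rw [ve' k' hk', vp', inner_neg_right, inner_neg_right, inner_bb hb hk' hk', if_pos rfl,
          phi_inner hb hd3 hk'] at this
        split_ifs at this <;> linarith
      · rfl
      · have := cf 0 (by omega)
        rw [vp, vp', inner_neg_right, p0] at this
        linarith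
      · unfold nP at hn'; omega
      · unfold nQ at hn'; omega
      · unfold nR at hn'; omega
    · rcases hcls n' with rfl | ⟨k', hk', rfl⟩ | ⟨k', hk', rfl⟩ | rfl | rfl | ⟨i, rfl⟩ | ⟨i, rfl⟩ | ⟨i, rfl⟩
      · have := cf 0 (by omega)
        rw [v0, vp, inner_zero_right, p0] at this
        linarith
      · have := cf k' hk'
        rw [ve k' hk', vp, inner_bb hb hk' hk', if_pos rfl,
          phi_inner hb hd3 hk'] at this
        split_ifs at this <;> linarith
      · have := cf k' hk'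
        rw [ve' k' hk', vp, inner_neg_right, inner_bb hb hk' hk', if_pos rfl,
          phi_inner hb hd3 hk'] at this
        split_ifs at this <;> linarith
      · have := cf 0 (by omega)
        rw [vp, vp', inner_neg_right, p0] at this
        linarith
      · rfl
      · unfold nP at hn'; omega
      · unfold nQ at hn'; omega
      · unfold nR at hn'; omega
    · unfold nP at hn; omega
    · unfold nQ at hn; omega
    · unfold nR at hn; omega
  intro n n' he
  by_cases hn : n < (2 * d + 3) <;> by_cases hn' : n' < (2 * d + 3)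
  · exact hff n n' hn hn' he
  · exact absurd he (hft n n' hn hn')
  · exact absurd he.symm (hft n' n hn' hn)
  · obtain ⟨i, h1, h2⟩ := htr n hn
    obtain ⟨i', h1', h2'⟩ := htr n' hn'
    rw [he, h2'] at h2
    obtain rfl := hci _ _ h2
    have c0 : ⟪bb b 0, pt b Y n⟫ = ⟪bb b 0, pt b Y n'⟫ := by rw [he]
    have c1 : ⟪bb b 1, pt b Y n⟫ = ⟪bb b 1, pt b Y n'⟫ := by rw [he]
    have hY' := hY i'
    rcases h1 with rfl | rfl | rfl <;> rcases h1' with rfl | rfl | rfl
    · rfl
    · rw [pt_P, pt_Q, inner_add_right, inner_smul_right, inner_smul_right, i02, i00] at c0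
      linarith
    · rw [pt_P, pt_R, inner_add_right, inner_smul_right, inner_smul_right, i12, i11] at c1
      linarith
    · rw [pt_P, pt_Q, inner_add_right, inner_smul_right, inner_smul_right, i02, i00] at c0
      linarith
    · rfl
    · rw [pt_R, pt_Q, inner_add_right, inner_add_right, inner_smul_right, inner_smul_right,
        inner_smul_right, i02, i00, i01] at c0
      linarith
    · rw [pt_P, pt_R, inner_add_right, inner_smul_right, inner_smul_right, i12, i11] at c1
      linarith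
    · rw [pt_R, pt_Q, inner_add_right, inner_add_right, inner_smul_right, inner_smul_right,
        inner_smul_right, i02, i00, i01] at c0
      linarith
    · rfl

end Complete

end Pool.Agent.NPC.ER.Link
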