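import Pool.Agent.ER.LinkTop

/-!
# Systems of polynomial constraints and unit distance graphs, II

The final reduction: `esys d S` is a list of pairs of natural numbers, computable in polynomial
time, such that the following are equivalent: `S` has a real solution; there are points `pᵢ` in
`ℝ^d` with `|pᵢ - pⱼ| = 1` for all pairs `(i, j)` of the list; there are such points which are
moreover pairwise distinct.
-/

namespace Pool.Agent.NPC.ER.Link

open Pool.Agent.NPC Pool.Agent.NPC.ER Geo Module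
open scoped RealInnerProductSpace

section

variable {E : Type} [NormedAddCommGroup E] [InnerProductSpace ℝ E] {d : ℕ} {b : Fin d → E}

/-- The values of the variables. -/
noncomputable def Yv (T : List Con) (κ : ℝ) (w : ℕ → ℝ) (n : ℕ) : ℝ :=
  if n % 2 = 0 then 1 + w (n / 2) else
    match T[n / 2 / 3]? with
    | some (Con.one _) => if n / 2 % 3 = 0 then 1 + 2 * κ else if n / 2 % 3 = 1 then 1 + 4 * κ
        else 1 + 8 * κ
    | some (Con.mul i j _) => if n / 2 % 3 = 0 then (1 + w i) * (1 + w j) else 1 + w j + w i * w j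
    | _ => 1

theorem Yv_even (T : List Con) (κ : ℝ) (w : ℕ → ℝ) (i : ℕ) : Yv T κ w (2 * i) = 1 + w i := by
  unfold Yv
  rw [if_pos (by omega)]
  congr 2
  omega

theorem Yv_range {T : List Con} {κ : ℝ} (hκ0 : 0 < κ) (hκ : κ ≤ 1 / 12) {w : ℕ → ℝ}
    (hw : ∀ i, |w i| ≤ 1 / 8) (n : ℕ) : 1 / 4 ≤ Yv T κ w n ∧ Yv T κ w n ≤ 7 / 4 := by
  have hw' : ∀ i, -(1 / 8) ≤ w i ∧ w i ≤ 1 / 8 := fun i => abs_le.1 (hw i)
  unfold Yv
  by_cases h0 : n % 2 = 0
  · rw [if_pos h0]
    have := hw' (n / 2)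
    constructor <;> linarith [this.1, this.2]
  · rw [if_neg h0]
    split
    · split_ifs <;> constructor <;> linarith
    · rename_i i j k _
      have h1 := hw' i
      have h2 := hw' j
      have h3 : |w i * w j| ≤ 1 / 8 * (1 / 8) := by
        rw [abs_mul]
        exact mul_le_mul (hw i) (hw j) (abs_nonneg _) (by norm_num)
      have h4 := abs_le.1 h3
      split_ifs <;> constructor <;> nlinarith [h1.1, h1.2, h2.1, h2.2, h4.1, h4.2]
    · constructor <;> norm_num

variable (hb : Orthonormal ℝ b) (hd3 : 3 ≤ d)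

include hb hd3

theorem pt_dist (Y : ℕ → ℝ) (i : ℕ) :
    ‖pt b Y (nP d i) - glob (2 * d + 3) (pt b Y) 0‖ ≤ 1 / 4 := by
  rw [glob_lt (by omega), pt_frame (n := 0) _ (by omega), frame_zero, sub_zero, pt_P, norm_smul]
  have h1 : ‖bb b 2‖ = 1 := by
    apply norm_eq_one_of_sq
    rw [← real_inner_self_eq_norm_sq, inner_bb hb (by omega) (by omega), if_pos rfl]
  rw [h1, mul_one, Real.norm_eq_abs, abs_of_pos (by positivity)]
  have hi : (0 : ℝ) ≤ i := Nat.cast_nonneg i
  rw [div_le_div_iff₀ (by positivity) (by norm_num)]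
  linarith

omit hb in
theorem pt_eps (Y : ℕ → ℝ) : glob (2 * d + 3) (pt b Y) 1 - glob (2 * d + 3) (pt b Y) 0 = bb b 0 := by
  have h := frame_e (b := b) (k := 0) (by omega)
  simp only [Nat.add_zero] at h
  rw [glob_lt (by omega), glob_lt (by omega), pt_frame _ (by omega), pt_frame _ (by omega),
    frame_zero, sub_zero, h]

omit hb in
theorem pt_eta (Y : ℕ → ℝ) : glob (2 * d + 3) (pt b Y) 2 - glob (2 * d + 3) (pt b Y) 0 = bb b 1 := by
  have h := frame_e (b := b) (k := 1) (by omega)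
  rw [glob_lt (by omega), glob_lt (by omega), pt_frame _ (by omega), pt_frame _ (by omega),
    frame_zero, sub_zero]
  exact h

omit hb hd3 in
theorem pt_PQ (Y : ℕ → ℝ) (i : ℕ) : pt b Y (nQ d i) - pt b Y (nP d i) = Y i • bb b 0 := by
  rw [pt_P, pt_Q]
  abel

omit hb hd3 in
theorem pt_PR (Y : ℕ → ℝ) (i : ℕ) : pt b Y (nR d i) - pt b Y (nP d i) = Y i • bb b 1 := by
  rw [pt_P, pt_R]
  abel

theorem pt_madd {Y : ℕ → ℝ} (hY : ∀ i, 1 / 4 ≤ Y i ∧ Y i ≤ 7 / 4) {i j k : ℕ}
    (h : Y i + Y j = Y k + 1) : MHolds (2 * d + 3) (semC d) (pt b Y) [madd d i j k] := by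
  intro c hc
  obtain rfl := List.mem_singleton.1 hc
  refine ⟨pt_FR hb hd3 Y, Y i, Y j, Y k, hY i, hY j, hY k, ?_, ?_, ?_, h, pt_dist hb hd3 Y i,
    pt_dist hb hd3 Y j, pt_dist hb hd3 Y k⟩
  · rw [pt_eps hd3]; exact pt_PQ Y i
  · rw [pt_eps hd3]; exact pt_PQ Y j
  · rw [pt_eps hd3]; exact pt_PQ Y k

theorem pt_mprod {Y : ℕ → ℝ} {i j k : ℕ} (hi : 1 / 4 ≤ Y i ∧ Y i ≤ 9 / 8)
    (hj : 1 / 4 ≤ Y j ∧ Y j ≤ 9 / 8) (hk : 1 / 4 ≤ Y k ∧ Y k ≤ 3 / 2)
    (h : Y i * Y j = Y k) : MHolds (2 * d + 3) (semC d) (pt b Y) [mprod d i j k] := by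
  intro c hc
  obtain rfl := List.mem_singleton.1 hc
  refine ⟨pt_FR hb hd3 Y, Y i, Y j, Y k, hi, hj, hk, ?_, ?_, ?_, ?_, h, pt_dist hb hd3 Y i,
    pt_dist hb hd3 Y j, pt_dist hb hd3 Y k⟩
  · rw [pt_eps hd3]; exact pt_PQ Y i
  · rw [pt_eps hd3]; exact pt_PQ Y j
  · rw [pt_eta hd3]; exact pt_PR Y j
  · rw [pt_eps hd3]; exact pt_PQ Y k

theorem pt_mcst {Y : ℕ → ℝ} {i : ℕ} (h : Y i = el d - 1) :
    MHolds (2 * d + 3) (semC d) (pt b Y) [mcst d i] := by
  intro c hc
  obtain rfl := List.mem_singleton.1 hc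
  refine ⟨pt_FR hb hd3 Y, ?_, pt_dist hb hd3 Y i⟩
  rw [pt_eps hd3, ← h]; exact pt_PQ Y i

/-- Completeness of the translation. -/
theorem tsys_complete {S : List Con} (h : Sat S) : ∃ v : ℕ → E, Function.Injective v ∧
    MHolds (2 * d + 3) (semC d) v (tsys d (bsys S)) := by
  have hκ0 := kap_pos hd3
  have hκ := kap_le hd3
  obtain ⟨w, hw, hT⟩ := bsys_of_sat_const hκ0 (by linarith) h
  set T := bsys S with hTdef
  set Y := Yv T (kap d) w with hYdef
  have hY : ∀ i, 1 / 4 ≤ Y i ∧ Y i ≤ 7 / 4 := Yv_range hκ0 hκ hw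
  have hwr : ∀ i, 1 / 4 ≤ Y (2 * i) ∧ Y (2 * i) ≤ 9 / 8 := by
    intro i
    have := abs_le.1 (hw i)
    rw [hYdef, Yv_even]
    constructor <;> linarith [this.1, this.2]
  refine ⟨pt b Y, pt_injective hb hd3 (fun i => by linarith [(hY i).1]), ?_⟩
  intro m hm
  unfold tsys at hm
  rw [List.mem_flatMap] at hm
  obtain ⟨⟨c, t⟩, hp, hm⟩ := hm
  have ht : T[t]? = some c := List.mem_zipIdx_iff_getElem?.1 hp
  have hc := hT c (List.mem_of_getElem? ht)
  have hfr : ∀ r < 3, Y (fr t r) = match (some c : Option Con) with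
      | some (Con.one _) => if r = 0 then 1 + 2 * kap d else if r = 1 then 1 + 4 * kap d
          else 1 + 8 * kap d
      | some (Con.mul i j _) => if r = 0 then (1 + w i) * (1 + w j) else 1 + w j + w i * w j
      | _ => 1 := by
    intro r hr
    rw [hYdef]
    unfold Yv fr
    have e1 : ¬ ((2 * (3 * t + r) + 1) % 2 = 0) := by omega
    have e2 : (2 * (3 * t + r) + 1) / 2 / 3 = t := by omega
    have e3 : (2 * (3 * t + r) + 1) / 2 % 3 = r := by omega
    rw [if_neg e1, e2, e3, ht]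
  have hev : ∀ i, Y (2 * i) = 1 + w i := fun i => Yv_even _ _ _ _
  suffices hall : MHolds (2 * d + 3) (semC d) (pt b Y) (tcon d c t) from hall m hm
  cases c with
  | one i =>
    simp only [Con.HoldsC] at hc
    have f0 : Y (fr t 0) = 1 + 2 * kap d := hfr 0 (by norm_num)
    have f1 : Y (fr t 1) = 1 + 4 * kap d := hfr 1 (by norm_num)
    have f2 : Y (fr t 2) = 1 + 8 * kap d := hfr 2 (by norm_num)
    unfold tcon
    refine mholds_cons.2 ⟨pt_madd hb hd3 hY ?_, mholds_cons.2 ⟨pt_madd hb hd3 hY ?_,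
      mholds_cons.2 ⟨pt_madd hb hd3 hY ?_, pt_mcst hb hd3 ?_⟩⟩⟩
    · rw [hev, f0, hc]; ring
    · rw [f0, f1]; ring
    · rw [f1, f2]; ring
    · rw [f2, kap_el hd3]
  | add i j k =>
    simp only [Con.HoldsC] at hc
    refine pt_madd hb hd3 hY ?_
    rw [hev, hev, hev, ← hc]; ring
  | mul i j k =>
    simp only [Con.HoldsC] at hc
    have f0 : Y (fr t 0) = (1 + w i) * (1 + w j) := hfr 0 (by norm_num)
    have f1 : Y (fr t 1) = 1 + w j + w i * w j := hfr 1 (by norm_num)
    unfold tcon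
    have hi := abs_le.1 (hw i)
    have hj := abs_le.1 (hw j)
    refine mholds_cons.2 ⟨pt_mprod hb hd3 (hwr _) (hwr _) ?_ ?_, mholds_cons.2
      ⟨pt_madd hb hd3 hY ?_, pt_madd hb hd3 hY ?_⟩⟩
    · rw [f0]
      constructor <;> nlinarith [hi.1, hi.2, hj.1, hj.2]
    · rw [hev, hev, f0]
    · rw [hev, f0, f1]; ring
    · rw [hev, hev, f1, ← hc]; ring

end

/-! ### The list of unit distances -/

/-- The list of pairs of points at unit distance. -/
def esys (d : ℕ) (S : List Con) : List (ℕ × ℕ) :=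
  (expandN (2 * d + 3) (tbl d) 14 (tsys d (bsys S))).map (fun c => (c.2.getD 0 0, c.2.getD 1 0))

theorem tsys_symbols (d : ℕ) (T : List Con) : ∀ c ∈ tsys d T, c.1 ≤ 14 := by
  intro m hm
  unfold tsys at hm
  rw [List.mem_flatMap] at hm
  obtain ⟨⟨c, t⟩, -, hm⟩ := hm
  cases c with
  | one i =>
    simp only [tcon, List.mem_cons, List.not_mem_nil, or_false] at hm
    rcases hm with rfl | rfl | rfl | rfl <;> simp [madd, mcst]
  | add i j k =>
    simp only [tcon, List.mem_cons, List.not_mem_nil, or_false] at hm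
    rw [hm]
    simp [madd]
  | mul i j k =>
    simp only [tcon, List.mem_cons, List.not_mem_nil, or_false] at hm
    rcases hm with rfl | rfl | rfl <;> simp [madd, mprod]

variable {E : Type} [NormedAddCommGroup E] [InnerProductSpace ℝ E] [FiniteDimensional ℝ E] {d : ℕ}

/-- **Soundness of the reduction.** -/
theorem sat_of_esys (hd : finrank ℝ E = d) (hd3 : 3 ≤ d) {S : List Con} {p : ℕ → E}
    (h : ∀ e ∈ esys d S, dist (p e.1) (p e.2) = 1) : Sat S := by
  have hsym := expandN_symbols (G := 2 * d + 3) (tbl_symbols d) (tsys_symbols d (bsys S))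
  have h1 : MHolds (2 * d + 3) (semS d) p (expandN (2 * d + 3) (tbl d) 14 (tsys d (bsys S))) := by
    intro c hc
    rw [hsym c hc]
    exact h _ (List.mem_map.2 ⟨c, hc, rfl⟩)
  obtain ⟨v, hv⟩ := expandN_sound (by omega) (sound hd hd3) 14 h1
  exact sat_of_bsys_const (kap_pos hd3) (tsys_sound hd3 hv)

/-- **Completeness of the reduction.** -/
theorem esys_of_sat (hd : finrank ℝ E = d) (hd3 : 3 ≤ d) {S : List Con} (h : Sat S) :
    ∃ p : ℕ → E, Set.InjOn p {i | ∃ e ∈ esys d S, i = e.1 ∨ i = e.2} ∧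
      ∀ e ∈ esys d S, dist (p e.1) (p e.2) = 1 := by
  have hsym := expandN_symbols (G := 2 * d + 3) (tbl_symbols d) (tsys_symbols d (bsys S))
  let g : OrthonormalBasis (Fin d) ℝ E := (stdOrthonormalBasis ℝ E).reindex (finCongr hd)
  obtain ⟨v, hv1, hv2⟩ := tsys_complete g.orthonormal hd3 h
  obtain ⟨v', h1, h2⟩ := expandN_complete (by omega) (complete hd hd3) 14
    (Set.injOn_of_injective hv1) hv2
  have hused : ∀ c ∈ expandN (2 * d + 3) (tbl d) 14 (tsys d (bsys S)), ∀ k,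
      c.2.getD k 0 ∈ used (2 * d + 3) (expandN (2 * d + 3) (tbl d) 14 (tsys d (bsys S))) := by
    intro c hc k
    rcases lt_or_ge k c.2.length with hl | hl
    · right
      refine ⟨c, hc, ?_⟩
      rw [List.getD_eq_getElem _ _ hl]
      exact List.getElem_mem hl
    · left
      rw [List.getD_eq_default _ _ hl]
      omega
  refine ⟨v', h1.mono ?_, ?_⟩
  · rintro i ⟨e, he, hi⟩
    unfold esys at he
    rw [List.mem_map] at he
    obtain ⟨c, hc, rfl⟩ := he
    rcases hi with rfl | rfl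
    · exact hused c hc 0
    · exact hused c hc 1
  · intro e he
    unfold esys at he
    rw [List.mem_map] at he
    obtain ⟨c, hc, rfl⟩ := he
    have h3 := h2 c hc
    rw [hsym c hc] at h3
    exact h3

/-! ### Polynomial time -/

section

variable {α : Type} [TEnc α]

theorem tcon_eq (d : ℕ) (c : Con) (t : ℕ) : tcon d c t =
    if c.code.1 = 0 then [madd d (2 * c.code.2.1) (2 * c.code.2.1) (fr t 0),
      madd d (fr t 0) (fr t 0) (fr t 1), madd d (fr t 1) (fr t 1) (fr t 2), mcst d (fr t 2)]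
    else if c.code.1 = 1 then [madd d (2 * c.code.2.1) (2 * c.code.2.2.1) (2 * c.code.2.2.2)]
    else [mprod d (2 * c.code.2.1) (2 * c.code.2.2.1) (fr t 0),
      madd d (fr t 1) (2 * c.code.2.1) (fr t 0),
      madd d (2 * c.code.2.2.2) (2 * c.code.2.2.1) (fr t 1)] := by
  cases c <;> rfl

theorem poly_nP {i : α → ℕ} (hi : Poly i) (d : ℕ) : Poly (fun a => nP d (i a)) :=
  Poly.add (Poly.const (2 * d + 3)) (Poly.mul (Poly.const 3) hi)

theorem poly_nQ {i : α → ℕ} (hi : Poly i) (d : ℕ) : Poly (fun a => nQ d (i a)) :=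
  Poly.add (poly_nP hi d) (Poly.const 1)

theorem poly_nR {i : α → ℕ} (hi : Poly i) (d : ℕ) : Poly (fun a => nR d (i a)) :=
  Poly.add (poly_nP hi d) (Poly.const 2)

theorem poly_mcst {i : α → ℕ} (hi : Poly i) (d : ℕ) : Poly (fun a => mcst d (i a)) :=
  Poly.pair (Poly.const 12) (Poly.cons (poly_nP hi d) (Poly.cons (poly_nQ hi d) (Poly.const [])))

theorem poly_madd {i j k : α → ℕ} (hi : Poly i) (hj : Poly j) (hk : Poly k) (d : ℕ) :
    Poly (fun a => madd d (i a) (j a) (k a)) :=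
  Poly.pair (Poly.const 13) (Poly.cons (poly_nP hi d) (Poly.cons (poly_nQ hi d)
    (Poly.cons (poly_nP hj d) (Poly.cons (poly_nQ hj d) (Poly.cons (poly_nP hk d)
      (Poly.cons (poly_nQ hk d) (Poly.const [])))))))

theorem poly_mprod {i j k : α → ℕ} (hi : Poly i) (hj : Poly j) (hk : Poly k) (d : ℕ) :
    Poly (fun a => mprod d (i a) (j a) (k a)) :=
  Poly.pair (Poly.const 14) (Poly.cons (poly_nP hi d) (Poly.cons (poly_nQ hi d)
    (Poly.cons (poly_nP hj d) (Poly.cons (poly_nQ hj d) (Poly.cons (poly_nR hj d)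
      (Poly.cons (poly_nP hk d) (Poly.cons (poly_nQ hk d) (Poly.const []))))))))

theorem poly_fr {t : α → ℕ} (ht : Poly t) (m : ℕ) : Poly (fun a => fr (t a) m) :=
  Poly.add (Poly.mul (Poly.const 2) (Poly.add (Poly.mul (Poly.const 3) ht) (Poly.const m)))
    (Poly.const 1)

theorem poly_tcon {c : α → Con} {t : α → ℕ} (hc : Poly c) (ht : Poly t) (d : ℕ) :
    Poly (fun a => tcon d (c a) (t a)) := by
  have h0 : Poly (fun a => (c a).code) := poly_con_code hc
  have h1 : Poly (fun a => (c a).code.1) := Poly.fst h0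
  have hi : Poly (fun a => 2 * (c a).code.2.1) :=
    Poly.mul (Poly.const 2) (Poly.fst (Poly.snd h0))
  have hj : Poly (fun a => 2 * (c a).code.2.2.1) :=
    Poly.mul (Poly.const 2) (Poly.fst (Poly.snd (Poly.snd h0)))
  have hk : Poly (fun a => 2 * (c a).code.2.2.2) :=
    Poly.mul (Poly.const 2) (Poly.snd (Poly.snd (Poly.snd h0)))
  have f0 := poly_fr ht 0
  have f1 := poly_fr ht 1
  have f2 := poly_fr ht 2
  have key := Poly.ite (Poly.decide_eq h1 (Poly.const 0))
    (Poly.cons (poly_madd hi hi f0 d) (Poly.cons (poly_madd f0 f0 f1 d)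
      (Poly.cons (poly_madd f1 f1 f2 d) (Poly.cons (poly_mcst f2 d) (Poly.const [])))))
    (Poly.ite (Poly.decide_eq h1 (Poly.const 1))
      (Poly.cons (poly_madd hi hj hk d) (Poly.const []))
      (Poly.cons (poly_mprod hi hj f0 d) (Poly.cons (poly_madd f1 hi f0 d)
        (Poly.cons (poly_madd hk hj f1 d) (Poly.const [])))))
  exact key.congr fun a => (tcon_eq d _ _).symm

theorem poly_tsys {T : α → List Con} (hT : Poly T) (d : ℕ) : Poly (fun a => tsys d (T a)) := by
  have h0 : Poly (fun a => (T a).zipIdx) := Poly.zipIdx hT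
  have hp : Poly (fun q : α × (Con × ℕ) => q.2) := Poly.snd Poly.id
  have hp1 : Poly (fun q : α × (Con × ℕ) => q.2.1) := Poly.fst hp
  have hp2 : Poly (fun q : α × (Con × ℕ) => q.2.2) := Poly.snd hp
  have h1 : Poly (fun q : α × (Con × ℕ) => tcon d q.2.1 q.2.2) := poly_tcon hp1 hp2 d
  exact Poly.flatMap (F := fun (_ : α) (p : Con × ℕ) => tcon d p.1 p.2) h0 h1

theorem poly_esys {S : α → List Con} (hS : Poly S) (d : ℕ) : Poly (fun a => esys d (S a)) := by
  have h1 : Poly (fun a => expandN (2 * d + 3) (tbl d) 14 (tsys d (bsys (S a)))) :=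
    poly_expandN (poly_tsys (poly_bsys hS) d) (2 * d + 3) (tbl d) 14
  have hp : Poly (fun q : α × MC => q.2.2) := Poly.snd (Poly.snd Poly.id)
  have h2 : Poly (fun q : α × MC => (q.2.2.getD 0 0, q.2.2.getD 1 0)) :=
    Poly.pair (Poly.getD hp (Poly.const 0) (Poly.const 0))
      (Poly.getD hp (Poly.const 1) (Poly.const 0))
  exact Poly.map (F := fun (_ : α) (c : MC) => (c.2.getD 0 0, c.2.getD 1 0)) h1 h2

end

end Pool.Agent.NPC.ER.Link
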