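import Pool.Agent.NPC.Dec

/-!
# Greatest common divisors and decoding of rational numbers
-/

namespace Pool.Agent.NPC

/-- One step of Euclid's algorithm. -/
def gstep (s : ℕ × ℕ) : ℕ × ℕ := (s.2, s.1 % s.2)

theorem gstep_gcd (s : ℕ × ℕ) : Nat.gcd (gstep s).1 (gstep s).2 = Nat.gcd s.1 s.2 := by
  unfold gstep
  rw [Nat.gcd_comm s.1 s.2, Nat.gcd_rec s.2 s.1, Nat.gcd_comm]

theorem gstep_iter_gcd (k : ℕ) (s : ℕ × ℕ) :
    Nat.gcd (gstep^[k] s).1 (gstep^[k] s).2 = Nat.gcd s.1 s.2 := by
  induction k with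
  | zero => rfl
  | succ k ih => rw [Function.iterate_succ_apply', gstep_gcd, ih]

theorem gstep_zero {s : ℕ × ℕ} (h : s.1 * s.2 = 0) : (gstep s).1 * (gstep s).2 = 0 := by
  unfold gstep
  rcases Nat.mul_eq_zero.1 h with h | h
  · simp [h]
  · simp [h]

theorem gstep_iter_zero {s : ℕ × ℕ} (h : s.1 * s.2 = 0) (k : ℕ) :
    (gstep^[k] s).1 * (gstep^[k] s).2 = 0 := by
  induction k with
  | zero => exact h
  | succ k ih => rw [Function.iterate_succ_apply']; exact gstep_zero ih

theorem gstep_iter : ∀ (k : ℕ) (s : ℕ × ℕ), s.2 < s.1 → s.1 * s.2 < 2 ^ k →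
    (gstep^[k] s).1 * (gstep^[k] s).2 = 0
  | 0, s, _, h => by
    simp only [pow_zero, Nat.lt_one_iff] at h
    exact h
  | k + 1, s, hs, h => by
    rw [Function.iterate_succ_apply]
    obtain ⟨a, b⟩ := s
    simp only at hs h
    rcases Nat.eq_zero_or_pos b with hb | hb
    · subst hb
      exact gstep_iter_zero (gstep_zero (by simp)) k
    · apply gstep_iter k
      · exact Nat.mod_lt _ hb
      · simp only [gstep]
        have h1 := Nat.mod_lt a hb
        have h2 := Nat.mod_add_div a b
        have h3 : 1 ≤ a / b := Nat.div_pos hs.le hb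
        have h4 : b ≤ b * (a / b) := Nat.le_mul_of_pos_right _ h3
        have h5 : 2 * (a % b) ≤ a := by omega
        have h6 : b * (2 * (a % b)) ≤ b * a := Nat.mul_le_mul_left b h5
        rw [pow_succ] at h
        nlinarith

theorem gstep_le (k : ℕ) (s : ℕ × ℕ) (B : ℕ) (h : s.1 ≤ B ∧ s.2 ≤ B) :
    (gstep^[k] s).1 ≤ B ∧ (gstep^[k] s).2 ≤ B := by
  induction k with
  | zero => exact h
  | succ k ih =>
    rw [Function.iterate_succ_apply']
    exact ⟨ih.2, (Nat.mod_le _ _).trans ih.1⟩

theorem gcd_by_steps (m n : ℕ) : (gstep^[m.size + n.size + 1] (m, n)).1 +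
    (gstep^[m.size + n.size + 1] (m, n)).2 = Nat.gcd m n := by
  have h0 : (gstep^[m.size + n.size + 1] (m, n)).1 * (gstep^[m.size + n.size + 1] (m, n)).2 = 0 := by
    rw [Function.iterate_succ_apply]
    rcases Nat.eq_zero_or_pos n with hn | hn
    · subst hn
      exact gstep_iter_zero (gstep_zero (by simp)) _
    · apply gstep_iter
      · exact Nat.mod_lt _ hn
      · simp only [gstep]
        have h1 := Nat.mod_le m n
        have h2 := Nat.lt_size_self m
        have h3 := Nat.lt_size_self n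
        rw [pow_add]
        calc n * (m % n) ≤ n * m := Nat.mul_le_mul_left n h1
          _ = m * n := Nat.mul_comm _ _
          _ < _ := Nat.mul_lt_mul'' h2 h3
  have h1 := gstep_iter_gcd (m.size + n.size + 1) (m, n)
  rcases Nat.mul_eq_zero.1 h0 with h | h
  · rw [h] at h1 ⊢
    simpa using h1
  · rw [h] at h1 ⊢
    simpa using h1

namespace Poly

variable {α : Type} [TEnc α]

theorem gcd {m n : α → ℕ} (hm : Poly m) (hn : Poly n) : Poly (fun a => Nat.gcd (m a) (n a)) := by
  obtain ⟨r, hr⟩ := hm.sz_le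
  obtain ⟨r', hr'⟩ := hn.sz_le
  have hl : Poly (fun a => false :: ((m a).bits ++ (n a).bits)) :=
    cons (const false) (append hm.natBits hn.natBits)
  have hstep : Poly (fun p : α × (ℕ × ℕ) => gstep p.2) :=
    pair (snd (snd id)) (mod (fst (snd id)) (snd (snd id)))
  have h := iterLen (l := fun a => false :: ((m a).bits ++ (n a).bits))
    (s := fun a => (m a, n a)) (F := fun _ s => gstep s) hl (pair hm hn) hstep
    (Polynomial.C 8 * (r + r') + Polynomial.C 30) (by
      intro a k _
      obtain ⟨h1, h2⟩ := gstep_le k (m a, n a) (m a + n a) ⟨by simp, by simp⟩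
      have e1 := sz_nat_mono_le h1
      have e2 := sz_nat_mono_le h2
      have k1 := sz_nat_le (m a + n a)
      have k2 := size_le_sz (m a)
      have k3 := size_le_sz (n a)
      have k4 : (m a + n a).size ≤ (m a).size + (n a).size + 1 := by
        rw [Nat.size_le]
        have l1 := Nat.lt_size_self (m a)
        have l2 := Nat.lt_size_self (n a)
        have l3 : 2 ^ (m a).size ≤ 2 ^ ((m a).size + (n a).size) :=
          Nat.pow_le_pow_right (by norm_num) (Nat.le_add_right _ _)
        have l4 : 2 ^ (n a).size ≤ 2 ^ ((m a).size + (n a).size) :=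
          Nat.pow_le_pow_right (by norm_num) (Nat.le_add_left _ _)
        rw [pow_succ]
        omega
      have k5 := hr a
      have k6 := hr' a
      have k7 : sz (gstep^[k] (m a, n a)) = sz (gstep^[k] (m a, n a)).1 +
        sz (gstep^[k] (m a, n a)).2 + 1 := sz_pair _ _
      simp only [Polynomial.eval_add, Polynomial.eval_mul, Polynomial.eval_C]
      change sz (gstep^[k] (m a, n a)) ≤ _
      omega)
  refine (add (fst h) (snd h)).congr fun a => ?_
  have : (false :: ((m a).bits ++ (n a).bits)).length = (m a).size + (n a).size + 1 := by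
    rw [List.length_cons, List.length_append, ← Nat.size_eq_bits_len, ← Nat.size_eq_bits_len]
  rw [this]
  exact gcd_by_steps (m a) (n a)

end Poly

/-- The inverse of the coding of rational numbers by numerator and denominator. -/
def ratOf (p : ℤ × ℕ) : Option ℚ :=
  if h : p.2 ≠ 0 ∧ p.1.natAbs.Coprime p.2 then some ⟨p.1, p.2, h.1, h.2⟩ else none

theorem poly_ratOf : Poly ratOf := by
  have hz : Poly (fun p : ℤ × ℕ => (p.1).natAbs) := by
    have h : Poly (fun p : ℤ × ℕ => ((decide (p.1 < 0), (p.1).natAbs) : Bool × ℕ)) :=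
      Poly.fst (α := ℤ × ℕ) (β := ℤ) Poly.id
    exact Poly.snd h
  have h1 : Poly (fun p : ℤ × ℕ => decide (p.2 ≠ 0 ∧ Nat.gcd p.1.natAbs p.2 = 1)) :=
    Poly.decide_and (Poly.decide_not (Poly.decide_eq (Poly.snd Poly.id) (Poly.const 0)))
      (Poly.decide_eq (Poly.gcd hz (Poly.snd Poly.id)) (Poly.const 1))
  have h2 : Poly (fun p : ℤ × ℕ => if p.2 ≠ 0 ∧ Nat.gcd p.1.natAbs p.2 = 1 then some p
      else none) := Poly.ite h1 (Poly.some Poly.id) (Poly.const none)
  refine Poly.of_toT (h2.toT'.congr fun p => ?_)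
  unfold ratOf
  by_cases h : p.2 ≠ 0 ∧ Nat.gcd p.1.natAbs p.2 = 1
  · rw [if_pos h, dif_pos (show p.2 ≠ 0 ∧ p.1.natAbs.Coprime p.2 from h)]
    rfl
  · rw [if_neg h, dif_neg (show ¬ (p.2 ≠ 0 ∧ p.1.natAbs.Coprime p.2) from h)]
    rfl

/-- Rational numbers are decodable. -/
instance : TDec ℚ := TDec.of (fun q : ℚ => (q.num, q.den)) ratOf (fun _ => rfl)
  (fun q => by
    unfold ratOf
    rw [dif_pos ⟨q.den_nz, q.reduced⟩])
  (fun p q h => by
    unfold ratOf at h
    split_ifs at h with h1
    cases h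
    rfl)
  poly_ratOf

end Pool.Agent.NPC
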