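import Pool.Agent.ER.LinkGraph
import Pool.Agent.ER.Hard

/-!
# Unit linkage realizability and Euclidean dimension: the decision problems
-/

namespace Pool.Agent.NPC.ER

open Pool.Agent.NPC

/-- A realization in `ℝ^d` of the unit linkage on `G`: adjacent vertices are placed at distance
one (and there is no other condition). -/
def IsRealization {V : Type} (G : SimpleGraph V) {d : ℕ} (p : V → EuclideanSpace ℝ (Fin d)) :
    Prop := ∀ u v, G.Adj u v → dist (p u) (p v) = 1

/-- Unit linkage realizability in `ℝ^d`: the set of the codes of the finite graphs `G` such that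
the unit linkage on `G` has a realization in `ℝ^d`. -/
def UnitLinkageRealizability (d : ℕ) : Set (List Bool) :=
  lang fun g : GCode => g.WF ∧ ∃ p : g.V → EuclideanSpace ℝ (Fin d), IsRealization g.graph p

theorem unitLinkage_mem (d : ℕ) : InER (UnitLinkageRealizability d) := by
  have hF : Poly (fun g : GCode => if g.WF then edgesF d g else H670R2.ff) :=
    (Poly.ite (poly_wf Poly.id) (poly_edgesF Poly.id d) (Poly.const H670R2.ff)).congr fun g => by
      by_cases h : g.WF <;> simp [h]
  refine H670R2.InER.of_poly hF fun g => ?_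
  by_cases hg : g.WF
  · rw [if_pos hg]
    constructor
    · rintro ⟨-, p, hp⟩
      obtain ⟨x, hx⟩ := exists_ofX p
      refine ⟨x, (edgesF_holds hg x).2 fun u v huv => ?_⟩
      rw [hx, hx]
      exact hp u v huv
    · rintro ⟨x, hx⟩
      exact ⟨hg, fun v => ofX d x v.1, (edgesF_holds hg x).1 hx⟩
  · rw [if_neg hg]
    exact ⟨fun h => absurd h.1 hg, fun h => absurd h H670R2.not_etr_ff⟩

theorem unitLinkage_hard (d : ℕ) (hd : 3 ≤ d) : ERHard (UnitLinkageRealizability d) := by
  refine ERHard.of_sys (f := fun S => Link.codeOf (Link.esys d S))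
    (Link.poly_codeOf (Link.poly_esys Poly.id d)) fun S => ?_
  constructor
  · intro h
    obtain ⟨hw, p, -, hp⟩ := Link.realizable_of_sat hd h
    exact ⟨hw, p, hp⟩
  · rintro ⟨hw, p, hp⟩
    exact Link.sat_of_realizable hd hw hp

end Pool.Agent.NPC.ER
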